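import Pool.Agent.Lib.MP_f11a48_ag.helper92.Lie

/-! # Exponentials of nilpotent elements of the Lie algebra -/

set_option autoImplicit false
set_option linter.unusedSectionVars false

namespace Pool.Agent.Lib.MPf11a48.GL2

open Matrix Pool.Agent.Lib.MPf11a48.CM Pool.Agent.Lib.MPf11a48.Tors

variable {n : Type} [Fintype n] [DecidableEq n]

/-- substitution of `f + s M f` -/
noncomputable def sb (M f : Matrix n n ℂ) : MvPolynomial (n × n) ℂ →ₐ[ℂ] Polynomial ℂ :=
  MvPolynomial.aeval fun v =>
    Polynomial.C (f v.1 v.2) + Polynomial.X * Polynomial.C ((M * f) v.1 v.2)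

theorem sb_X (M f : Matrix n n ℂ) (v : n × n) : sb M f (MvPolynomial.X v) =
    Polynomial.C (f v.1 v.2) + Polynomial.X * Polynomial.C ((M * f) v.1 v.2) :=
  MvPolynomial.aeval_X _ _

theorem eval_sb (M f : Matrix n n ℂ) (s : ℂ) (p : MvPolynomial (n × n) ℂ) :
    Polynomial.eval s (sb M f p) = MvPolynomial.eval (en (f + s • (M * f))) p := by
  induction p using MvPolynomial.induction_on with
  | C a =>
    rw [MvPolynomial.algHom_C, MvPolynomial.eval_C]
    exact Polynomial.eval_C
  | add p q hp hq => rw [map_add, Polynomial.eval_add, hp, hq, map_add]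
  | mul_X p v hp =>
    rw [map_mul, Polynomial.eval_mul, hp, map_mul, MvPolynomial.eval_X, sb_X, Polynomial.eval_add,
      Polynomial.eval_mul, Polynomial.eval_C, Polynomial.eval_C, Polynomial.eval_X]
    rfl

theorem derivative_sb {M : Matrix n n ℂ} (hM : M * M = 0) (f : Matrix n n ℂ)
    (p : MvPolynomial (n × n) ℂ) :
    Polynomial.derivative (sb M f p) = sb M f (vf M p) := by
  induction p using MvPolynomial.induction_on with
  | C a =>
    rw [MvPolynomial.derivation_C, map_zero, MvPolynomial.algHom_C]
    exact Polynomial.derivative_C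
  | add p q hp hq => rw [map_add, Polynomial.derivative_add, hp, hq, map_add, map_add]
  | mul_X p v hp =>
    have h1 : sb M f (vf M (MvPolynomial.X v)) = Polynomial.C ((M * f) v.1 v.2) := by
      rw [vf_X, map_sum]
      have h2 : ∀ i, sb M f (MvPolynomial.C (M v.1 i) * MvPolynomial.X (i, v.2)) =
          Polynomial.C (M v.1 i * f i v.2) +
            Polynomial.X * Polynomial.C (M v.1 i * (M * f) i v.2) := by
        intro i
        rw [map_mul, MvPolynomial.algHom_C, sb_X]
        change Polynomial.C (M v.1 i) * _ = _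
        rw [Polynomial.C_mul, Polynomial.C_mul]
        ring
      simp only [h2, Finset.sum_add_distrib, ← Finset.mul_sum, ← map_sum, ← Matrix.mul_apply]
      rw [← Matrix.mul_assoc, hM, Matrix.zero_mul]
      simp
    rw [map_mul, Polynomial.derivative_mul, hp, Derivation.leibniz, map_add, smul_eq_mul,
      smul_eq_mul, map_mul, map_mul, h1, sb_X]
    simp only [Polynomial.derivative_add, Polynomial.derivative_C, Polynomial.derivative_mul,
      Polynomial.derivative_X]
    ring

theorem sb_eq_zero {T : Set (GL n ℂ)} {M : Matrix n n ℂ} (hM : M * M = 0) (hMT : M ∈ lie T)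
    {f : GL n ℂ} (hf : f ∈ T) {p : MvPolynomial (n × n) ℂ} (hp : p ∈ van T) :
    sb M f.1 p = 0 := by
  have key : ∀ k : ℕ, ∀ p ∈ van T, (sb M f.1 p).coeff k = 0 := by
    intro k
    induction k with
    | zero =>
      intro p hp
      rw [Polynomial.coeff_zero_eq_eval_zero, eval_sb, zero_smul, add_zero]
      exact hp f hf
    | succ k ih =>
      intro p hp
      have h1 := ih _ (vf_mem hMT hp)
      rw [← derivative_sb hM, Polynomial.coeff_derivative] at h1
      refine (mul_eq_zero.1 h1).resolve_right ?_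
      have : ((k : ℂ) + 1) = ((k + 1 : ℕ) : ℂ) := by push_cast; rfl
      rw [this]
      exact Nat.cast_ne_zero.2 (Nat.succ_ne_zero k)
  exact Polynomial.ext fun k => by rw [key k p hp, Polynomial.coeff_zero]

theorem Geo.one_add_mul_mem {T : Set (GL n ℂ)} (h : Geo T) {M : Matrix n n ℂ} (hM : M * M = 0)
    (hMT : M ∈ lie T) {f g : GL n ℂ} (hf : f ∈ T) (hg : g.1 = 1 + M) : g * f ∈ T := by
  apply h.closed
  intro p hp
  have h1 := eval_sb M f.1 1 p
  rw [sb_eq_zero hM hMT hf hp, Polynomial.eval_zero, one_smul] at h1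
  rw [glmul, hg, add_mul, one_mul]
  exact h1.symm

end Pool.Agent.Lib.MPf11a48.GL2
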