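import Pool.Agent.Lib.MP_f11a48_ag.helper92.Exact

/-! # The classes of an endomorphism and of a polarisation -/

set_option autoImplicit false
set_option linter.unusedSectionVars false

namespace Pool.Agent.Lib.MPf11a48.GL2

open Matrix Pool.Agent.Lib.MPf11a48.Tors
open Pool.Agent.Lib.MPf11a48.CM hiding OmegaM

variable {K : IntermediateField ℚ ℂ} {I : Type}

/-- The class in `V ⊗ V^∨` of an endomorphism (with matrices `AdR`, `AB`). -/
def endPair (AdR : Matrix I I K) (AB : Matrix I I ℚ) : TPair K I where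
  n := 1
  m := 1
  dR J := AdR (J.1 0) (J.2 0)
  B J := AB (J.1 0) (J.2 0)

/-- The class `ψ⁻¹ ⊗ ψ` in `V^{⊗ 2} ⊗ (V^∨)^{⊗ 2}` of a bilinear form with values in a rank one
object (with Gram matrices `ψdR`, `ψB`). -/
noncomputable def polPair [Fintype I] [DecidableEq I] (ψdR : Matrix I I K) (ψB : Matrix I I ℚ) :
    TPair K I where
  n := 2
  m := 2
  dR J := ψdR⁻¹ (J.1 0) (J.1 1) * ψdR (J.2 0) (J.2 1)
  B J := ψB⁻¹ (J.1 0) (J.1 1) * ψB (J.2 0) (J.2 1)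

variable [Fintype I] [DecidableEq I]

theorem sum_one (F : (Fin 1 → I) → ℂ) : ∑ J, F J = ∑ j, F (fun _ => j) := by
  refine Fintype.sum_equiv (Equiv.funUnique (Fin 1) I) _ _ fun J => ?_
  congr 1
  funext i
  rw [Subsingleton.elim i 0]
  rfl

theorem sum_two (F : (Fin 2 → I) → ℂ) : ∑ J, F J = ∑ p : I × I, F ![p.1, p.2] := by
  refine Fintype.sum_equiv (finTwoArrowEquiv I) _ _ fun J => ?_
  congr 1
  funext i
  fin_cases i <;> rfl

theorem mul_mul_apply (A B C : Matrix I I ℂ) (i j : I) :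
    (A * B * C) i j = ∑ p : I × I, A i p.1 * B p.1 p.2 * C p.2 j := by
  rw [Matrix.mul_apply, Fintype.sum_prod_type, Finset.sum_comm]
  refine Finset.sum_congr rfl fun x _ => ?_
  rw [Matrix.mul_apply, Finset.sum_mul]

theorem fixes_endPair {AdR : Matrix I I K} {AB : Matrix I I ℚ} {f : GL I ℂ} :
    Fixes f (endPair AdR AB) ↔
      f.1 * AdR.map (algebraMap K ℂ) * f⁻¹.1 = AB.map (algebraMap ℚ ℂ) := by
  have key : ∀ i j : I, ∀ J : TIdx I 1 1, J.1 0 = i → J.2 0 = j →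
      (∑ L : TIdx I 1 1, tens 1 1 f.1 f⁻¹.1 J L * (((endPair AdR AB).dR L : K) : ℂ)) =
      (f.1 * AdR.map (algebraMap K ℂ) * f⁻¹.1) i j := by
    rintro i j J rfl rfl
    rw [Fintype.sum_prod_type, sum_one, mul_mul_apply, Fintype.sum_prod_type]
    simp only [sum_one]
    refine Finset.sum_congr rfl fun x _ => Finset.sum_congr rfl fun y _ => ?_
    simp only [tens, Finset.univ_unique, Finset.prod_singleton]
    change f.1 (J.1 0) x * f⁻¹.1 y (J.2 0) * ((AdR x y : K) : ℂ) =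
      f.1 (J.1 0) x * ((AdR x y : K) : ℂ) * f⁻¹.1 y (J.2 0)
    ring
  constructor
  · intro h
    refine Matrix.ext fun i j => ?_
    have h1 := h (fun _ => i, fun _ => j)
    rw [← key i j (fun _ => i, fun _ => j) rfl rfl]
    refine h1.trans ?_
    change ((AB i j : ℚ) : ℂ) = algebraMap ℚ ℂ (AB i j)
    simp
  · intro h (J : TIdx I 1 1)
    refine (key (J.1 0) (J.2 0) J rfl rfl).trans ?_
    rw [h]
    change algebraMap ℚ ℂ (AB (J.1 0) (J.2 0)) = ((AB (J.1 0) (J.2 0) : ℚ) : ℂ)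
    simp

theorem fixes_polPair {ψdR : Matrix I I K} {ψB : Matrix I I ℚ} {f : GL I ℂ} :
    Fixes f (polPair ψdR ψB) ↔ ∀ i j i' j',
      (f.1 * (ψdR⁻¹).map (algebraMap K ℂ) * f.1ᵀ) i j *
        (f⁻¹.1ᵀ * ψdR.map (algebraMap K ℂ) * f⁻¹.1) i' j' =
      ((ψB⁻¹ i j : ℚ) : ℂ) * ((ψB i' j' : ℚ) : ℂ) := by
  have key : ∀ i j i' j' : I, ∀ J : TIdx I 2 2, J.1 0 = i → J.1 1 = j → J.2 0 = i' → J.2 1 = j' →
      (∑ L : TIdx I 2 2, tens 2 2 f.1 f⁻¹.1 J L * (((polPair ψdR ψB).dR L : K) : ℂ)) =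
      (f.1 * (ψdR⁻¹).map (algebraMap K ℂ) * f.1ᵀ) i j *
        (f⁻¹.1ᵀ * ψdR.map (algebraMap K ℂ) * f⁻¹.1) i' j' := by
    rintro i j i' j' J rfl rfl rfl rfl
    rw [Fintype.sum_prod_type, sum_two, mul_mul_apply, mul_mul_apply, Finset.sum_mul_sum]
    simp only [sum_two]
    refine Finset.sum_congr rfl fun p _ => Finset.sum_congr rfl fun q _ => ?_
    simp only [tens, Fin.prod_univ_two]
    change f.1 (J.1 0) p.1 * f.1 (J.1 1) p.2 * (f⁻¹.1 q.1 (J.2 0) * f⁻¹.1 q.2 (J.2 1)) *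
        ((ψdR⁻¹ p.1 p.2 * ψdR q.1 q.2 : K) : ℂ) =
      f.1 (J.1 0) p.1 * ((ψdR⁻¹ p.1 p.2 : K) : ℂ) * f.1 (J.1 1) p.2 *
        (f⁻¹.1 q.1 (J.2 0) * ((ψdR q.1 q.2 : K) : ℂ) * f⁻¹.1 q.2 (J.2 1))
    push_cast
    ring
  constructor
  · intro h i j i' j'
    have h1 := h (![i, j], ![i', j'])
    rw [← key i j i' j' (![i, j], ![i', j']) rfl rfl rfl rfl]
    refine h1.trans ?_
    change ((ψB⁻¹ i j * ψB i' j' : ℚ) : ℂ) = _
    push_cast
    rfl
  · intro h (J : TIdx I 2 2)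
    refine (key (J.1 0) (J.1 1) (J.2 0) (J.2 1) J rfl rfl rfl rfl).trans ?_
    rw [h]
    change _ = ((ψB⁻¹ (J.1 0) (J.1 1) * ψB (J.2 0) (J.2 1) : ℚ) : ℂ)
    push_cast
    rfl

/-- an isomorphism that fixes the class of the polarisation is a similitude -/
theorem sim_of_fixes {ψdR : Matrix I I K} {ψB : Matrix I I ℚ} (hdet : ψB.det ≠ 0) {f : GL I ℂ}
    (h : Fixes f (polPair ψdR ψB)) :
    ∃ μ : ℂ, f.1ᵀ * ψB.map (algebraMap ℚ ℂ) * f.1 = μ • ψdR.map (algebraMap K ℂ) := by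
  rw [fixes_polPair] at h
  by_cases h0 : ∃ i j, ψB⁻¹ i j ≠ 0
  · obtain ⟨i, j, hij⟩ := h0
    have hijC : ((ψB⁻¹ i j : ℚ) : ℂ) ≠ 0 := by exact_mod_cast hij
    set y := (f.1 * (ψdR⁻¹).map (algebraMap K ℂ) * f.1ᵀ) i j with hy
    refine ⟨y / ((ψB⁻¹ i j : ℚ) : ℂ), ?_⟩
    have h1 : ψB.map (algebraMap ℚ ℂ) = (y / ((ψB⁻¹ i j : ℚ) : ℂ)) •
        (f⁻¹.1ᵀ * ψdR.map (algebraMap K ℂ) * f⁻¹.1) := by
      refine Matrix.ext fun i' j' => ?_
      rw [Matrix.smul_apply, smul_eq_mul, map_apply, div_mul_eq_mul_div, h i j i' j',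
        mul_div_cancel_left₀ _ hijC]
      simp
    have hff : f⁻¹.1 * f.1 = 1 := f.inv_mul
    have hff' : f.1ᵀ * f⁻¹.1ᵀ = 1 := by rw [← transpose_mul, hff, transpose_one]
    rw [h1, Matrix.mul_smul, Matrix.smul_mul]
    congr 1
    calc f.1ᵀ * (f⁻¹.1ᵀ * ψdR.map (algebraMap K ℂ) * f⁻¹.1) * f.1
        = (f.1ᵀ * f⁻¹.1ᵀ) * ψdR.map (algebraMap K ℂ) * (f⁻¹.1 * f.1) := by
          simp only [Matrix.mul_assoc]
      _ = _ := by rw [hff, hff', Matrix.one_mul, Matrix.mul_one]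
  · push Not at h0
    have h1 : ψB⁻¹ = 0 := Matrix.ext h0
    have h2 : ψB * ψB⁻¹ = 1 := Matrix.mul_nonsing_inv _ (isUnit_iff_ne_zero.2 hdet)
    rw [h1, Matrix.mul_zero] at h2
    have h3 : IsEmpty I := by
      by_contra hne
      rw [not_isEmpty_iff] at hne
      obtain ⟨i⟩ := hne
      have := congrFun (congrFun h2 i) i
      rw [one_apply_eq] at this
      exact zero_ne_one this
    exact ⟨1, Matrix.ext fun i => h3.elim i⟩

/-- a similitude fixes the class of the polarisation -/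
theorem fixes_of_sim {ψdR : Matrix I I K} {ψB : Matrix I I ℚ} (hdet : ψB.det ≠ 0) {f : GL I ℂ}
    {μ : ℂ} (h : f.1ᵀ * ψB.map (algebraMap ℚ ℂ) * f.1 = μ • ψdR.map (algebraMap K ℂ))
    (hμ : μ ≠ 0) : Fixes f (polPair ψdR ψB) := by
  have hff : f⁻¹.1 * f.1 = 1 := f.inv_mul
  have hff2 : f.1 * f⁻¹.1 = 1 := f.mul_inv
  have hffT : f.1ᵀ * f⁻¹.1ᵀ = 1 := by rw [← transpose_mul, hff, transpose_one]
  have hffT' : f⁻¹.1ᵀ * f.1ᵀ = 1 := by rw [← transpose_mul, hff2, transpose_one]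
  have e1 : f⁻¹.1ᵀ * ψdR.map (algebraMap K ℂ) * f⁻¹.1 = μ⁻¹ • ψB.map (algebraMap ℚ ℂ) := by
    have h1 : ψdR.map (algebraMap K ℂ) = μ⁻¹ • (f.1ᵀ * ψB.map (algebraMap ℚ ℂ) * f.1) := by
      rw [h, smul_smul, inv_mul_cancel₀ hμ, one_smul]
    rw [h1, Matrix.mul_smul, Matrix.smul_mul]
    congr 1
    calc f⁻¹.1ᵀ * (f.1ᵀ * ψB.map (algebraMap ℚ ℂ) * f.1) * f⁻¹.1
        = (f⁻¹.1ᵀ * f.1ᵀ) * ψB.map (algebraMap ℚ ℂ) * (f.1 * f⁻¹.1) := by
          simp only [Matrix.mul_assoc]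
      _ = _ := by rw [hff2, hffT', Matrix.one_mul, Matrix.mul_one]
  have hBC : ψB.map (algebraMap ℚ ℂ) * (ψB⁻¹).map (algebraMap ℚ ℂ) = 1 := by
    rw [← Matrix.map_mul, Matrix.mul_nonsing_inv _ (isUnit_iff_ne_zero.2 hdet)]
    exact Matrix.map_one _ (map_zero _) (map_one _)
  have hdR : IsUnit ψdR.det := by
    rw [isUnit_iff_ne_zero]
    intro h0
    have h1 : (ψdR.map (algebraMap K ℂ)).det = 0 := by
      have := (algebraMap K ℂ).map_det ψdR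
      rw [h0, map_zero] at this
      exact this.symm
    have h2 := congrArg Matrix.det e1
    rw [det_mul, det_mul, h1, mul_zero, zero_mul, det_smul] at h2
    have h3 := congrArg Matrix.det hBC
    rw [det_mul, det_one] at h3
    have h4 := left_ne_zero_of_mul_eq_one h3
    exact mul_ne_zero (pow_ne_zero _ (inv_ne_zero hμ)) h4 h2.symm
  have hdRC : (ψdR⁻¹).map (algebraMap K ℂ) * ψdR.map (algebraMap K ℂ) = 1 := by
    rw [← Matrix.map_mul, Matrix.nonsing_inv_mul _ hdR]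
    exact Matrix.map_one _ (map_zero _) (map_one _)
  have e2 : f.1 * (ψdR⁻¹).map (algebraMap K ℂ) * f.1ᵀ = μ • (ψB⁻¹).map (algebraMap ℚ ℂ) := by
    have h1 : f.1 * (ψdR⁻¹).map (algebraMap K ℂ) * f.1ᵀ *
        (f⁻¹.1ᵀ * ψdR.map (algebraMap K ℂ) * f⁻¹.1) = 1 := by
      calc _ = f.1 * ((ψdR⁻¹).map (algebraMap K ℂ) * (f.1ᵀ * f⁻¹.1ᵀ) *
            ψdR.map (algebraMap K ℂ)) * f⁻¹.1 := by simp only [Matrix.mul_assoc]
        _ = 1 := by rw [hffT, Matrix.mul_one, hdRC, Matrix.mul_one, hff2]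
    rw [e1] at h1
    calc f.1 * (ψdR⁻¹).map (algebraMap K ℂ) * f.1ᵀ
        = f.1 * (ψdR⁻¹).map (algebraMap K ℂ) * f.1ᵀ *
            (ψB.map (algebraMap ℚ ℂ) * (ψB⁻¹).map (algebraMap ℚ ℂ)) := by
          rw [hBC, Matrix.mul_one]
      _ = μ • (f.1 * (ψdR⁻¹).map (algebraMap K ℂ) * f.1ᵀ * (μ⁻¹ • ψB.map (algebraMap ℚ ℂ)) *
            (ψB⁻¹).map (algebraMap ℚ ℂ)) := by
          rw [Matrix.mul_smul, Matrix.smul_mul, smul_smul, mul_inv_cancel₀ hμ, one_smul]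
          simp only [Matrix.mul_assoc]
      _ = _ := by rw [h1, Matrix.one_mul]
  rw [fixes_polPair, e1, e2]
  intro i j i' j'
  simp only [Matrix.smul_apply, smul_eq_mul, map_apply]
  have h5 : μ * algebraMap ℚ ℂ (ψB⁻¹ i j) * (μ⁻¹ * algebraMap ℚ ℂ (ψB i' j')) =
      (μ * μ⁻¹) * (algebraMap ℚ ℂ (ψB⁻¹ i j) * algebraMap ℚ ℂ (ψB i' j')) := by ring
  rw [h5, mul_inv_cancel₀ hμ, one_mul]
  simp


/-- the class of an endomorphism is fixed if and only if the isomorphism commutes with it -/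
theorem comm_iff_fixes {AdR : Matrix I I K} {AB : Matrix I I ℚ} {f : GL I ℂ} :
    Fixes f (endPair AdR AB) ↔
      f.1 * AdR.map (algebraMap K ℂ) = AB.map (algebraMap ℚ ℂ) * f.1 := by
  rw [fixes_endPair]
  have h1 : f⁻¹.1 * f.1 = 1 := f.inv_mul
  have h2 : f.1 * f⁻¹.1 = 1 := f.mul_inv
  constructor
  · intro h
    calc f.1 * AdR.map (algebraMap K ℂ)
        = f.1 * AdR.map (algebraMap K ℂ) * (f⁻¹.1 * f.1) := by rw [h1, Matrix.mul_one]
      _ = f.1 * AdR.map (algebraMap K ℂ) * f⁻¹.1 * f.1 := by simp only [Matrix.mul_assoc]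
      _ = _ := by rw [h]
  · intro h
    rw [h, Matrix.mul_assoc, h2, Matrix.mul_one]

theorem prod_smul_zpow {κ : Type} [Fintype κ] {t : ℂ} (ht : t ≠ 0) (a : κ → ℂ) (χ : κ → ℤ) :
    ∏ k, (t * a k) ^ χ k = t ^ (∑ k, χ k) * ∏ k, a k ^ χ k := by
  classical
  have h : ∀ s : Finset κ, ∏ k ∈ s, t ^ χ k = t ^ (∑ k ∈ s, χ k) := by
    intro s
    induction s using Finset.induction_on with
    | empty => simp
    | insert k s hk ih => rw [Finset.prod_insert hk, Finset.sum_insert hk, zpow_add₀ ht, ih]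
  rw [← h, ← Finset.prod_mul_distrib]
  exact Finset.prod_congr rfl fun k _ => mul_zpow _ _ _

theorem prod_sum_empty {κ : Type} [Fintype κ] (g : κ ⊕ Empty → ℂ) :
    ∏ i, g i = ∏ k, g (Sum.inl k) := by
  rw [Fintype.prod_sum_type]
  have : ∏ x : Empty, g (Sum.inr x) = 1 := Finset.prod_of_isEmpty _
  rw [this, mul_one]


end Pool.Agent.Lib.MPf11a48.GL2
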