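import Pool.Agent.Lib.MP_f11a48_ag.helper92.Bridge

/-! # Translation of the statement: sums of objects of rank two -/

set_option autoImplicit false
set_option linter.unusedSectionVars false

namespace Pool.Agent.Lib.MPf11a48.GL2T

open Matrix MvPolynomial Pool.Agent.Lib.MPf11a48.Tors
open Pool.Agent.Lib.MPf11a48.CM hiding OmegaM

variable {ι : Type} [Fintype ι] [DecidableEq ι]

/-- a matrix with algebraic entries as a matrix over `Qbar` -/
def dn {μ ν : Type} (A : Matrix μ ν ℂ) (h : IsAlg A) : Matrix μ ν Qbar :=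
  Matrix.of fun i j => ⟨A i j, h i j⟩

theorem toC_dn {μ ν : Type} (A : Matrix μ ν ℂ) (h : IsAlg A) : toC (dn A h) = A := rfl

theorem isAlg_toC {μ ν : Type} (A : Matrix μ ν Qbar) : IsAlg (toC A) := fun i j => (A i j).2

theorem endCompat_iff {c f : GL ι ℂ} : EndCompat c f ↔ GL2.EndCompat c f := by
  constructor
  · intro h A A' hA
    exact h _ _ (isAlg_toC A) (isAlg_toC A') hA
  · intro h A A' hA hA' e
    exact h (dn A hA) (dn A' hA') e

theorem dn_det {P : GL ι ℂ} (h : IsAlg P.1) : IsUnit (dn P.1 h).det := by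
  rw [isUnit_iff_ne_zero]
  intro h0
  have h1 : P.1.det = 0 := by
    have h2 : (toC (dn P.1 h)).det = algebraMap Qbar ℂ (dn P.1 h).det :=
      ((algebraMap Qbar ℂ).map_det _).symm
    rw [h0, map_zero, toC_dn] at h2
    exact h2
  have h3 := congrArg Matrix.det (P.mul_inv : P.1 * P⁻¹.1 = 1)
  rw [det_mul, h1, zero_mul, det_one] at h3
  exact zero_ne_one h3

theorem toC_submatrix {μ ν μ' ν' : Type} (A : Matrix μ ν Qbar) (r : μ' → μ) (s : ν' → ν) :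
    toC (A.submatrix r s) = (toC A).submatrix r s := rfl

theorem sum_of {w : ℤ} {c : GL ι ℂ} (h : SumOfRankTwo w c) : GL2.SumOfRankTwo w c := by
  obtain ⟨n, e, d, P, Q, hP, hQ, hc, hd⟩ := h
  have hP1 := Matrix.mul_nonsing_inv _ (dn_det hP)
  have hP2 := Matrix.nonsing_inv_mul _ (dn_det hP)
  have hQ1 := Matrix.mul_nonsing_inv _ (dn_det hQ)
  have hQ2 := Matrix.nonsing_inv_mul _ (dn_det hQ)
  refine ⟨Fin n, inferInstance, inferInstance, d, ⟨⟨(dn P.1 hP).submatrix e id,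
    (dn P.1 hP)⁻¹.submatrix id e, (dn Q.1 hQ).submatrix id e, (dn Q.1 hQ)⁻¹.submatrix e id,
    ?_, ?_, ?_, ?_, ?_⟩⟩, fun b => irr_of (hd b).1, fun b => ?_⟩
  · rw [← submatrix_mul _ _ e id e Function.bijective_id, hP1, submatrix_one_equiv]
  · rw [submatrix_mul_equiv, hP2, submatrix_id_id]
  · rw [submatrix_mul_equiv, hQ1, submatrix_id_id]
  · rw [← submatrix_mul _ _ e id e Function.bijective_id, hQ2, submatrix_one_equiv]
  · rw [toC_submatrix, toC_submatrix, toC_dn, toC_dn]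
    have e1 : P.1.submatrix e id * c.1 * Q.1.submatrix id e = (P.1 * c.1 * Q.1).submatrix e e := by
      rw [submatrix_mul _ _ e id e Function.bijective_id,
        submatrix_mul _ _ e id id Function.bijective_id, submatrix_id_id]
    rw [e1]
    refine Matrix.ext fun u v => ?_
    rw [submatrix_apply, hc, blockDiagonal_apply]
  · obtain ⟨α, hα, hdα⟩ := (hd b).2
    exact ⟨⟨α, hα⟩, hdα⟩

variable {K : IntermediateField ℚ ℂ}

theorem mapQ (N : Matrix ι ι ℚ) : N.map (fun a => (a : ℂ)) = N.map (algebraMap ℚ ℂ) := by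
  refine Matrix.ext fun i j => ?_
  simp

theorem mapK (N : Matrix ι ι K) : N.map (fun a => (a : ℂ)) = N.map (algebraMap K ℂ) := rfl

theorem mult_iff {f : GL ι ℂ} {ψdR : Matrix ι ι K} {ψB : Matrix ι ι ℚ} {μ : ℂ} :
    Mult f ψdR ψB μ ↔ f.1ᵀ * ψB.map (algebraMap ℚ ℂ) * f.1 = μ • ψdR.map (algebraMap K ℂ) := by
  rw [Mult, mapQ, mapK]

theorem polarised_of {w : ℤ} {c : GL ι ℂ} {ψdR : Matrix ι ι K} {ψB : Matrix ι ι ℚ}
    (h : Polarised w c ψdR ψB) : GL2.Polarised K w c ψdR ψB := ⟨h.1, mult_iff.1 h.2⟩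

theorem omegaLef_eq (c : GL ι ℂ) (ψdR : Matrix ι ι K) (ψB : Matrix ι ι ℚ) :
    OmegaLef c ψdR ψB = GL2.OmegaLef c ψB ψdR := by
  ext f
  exact and_congr endCompat_iff (exists_congr fun μ => mult_iff)

theorem compat_of_spanned {c : GL ι ℂ} {S : Set (TPair K ι)} (h : Spanned c S) {f : GL ι ℂ}
    (hf : f ∈ OmegaS S) : EndCompat c f := by
  intro A A' hA hA' e
  obtain ⟨n, a, AdR, AB, hS, rfl, rfl⟩ := h A A' hA hA' e
  rw [Matrix.mul_sum, Matrix.sum_mul]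
  refine Finset.sum_congr rfl fun r _ => ?_
  have h1 : Fixes f (GL2.endPair (AdR r) (AB r)) := hf _ (hS r)
  have h2 := GL2.comm_iff_fixes.1 h1
  rw [Matrix.mul_smul, Matrix.smul_mul, mapQ, mapK, h2]

theorem partB (hK : K ≤ Qbar) {w : ℤ} (hw : w ≠ 0) {c : GL ι ℂ} {ψdR : Matrix ι ι K}
    {ψB : Matrix ι ι ℚ} (hpol : Polarised w c ψdR ψB) (hsum : SumOfRankTwo w c) :
    (∀ f ∈ OmegaLef c ψdR ψB, ∀ f', Conj K f f' → f' ∈ OmegaM K c) ∧
    ∀ S : Set (TPair K ι), (∀ α ∈ S, Fixes c α) → polPair ψdR ψB ∈ S →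
      ((∀ f ∈ OmegaS S, ∃ f', Conj K f f' ∧ EndCompat c f') →
        OmegaM K c = OmegaS S ∧ OmegaDRB K c = OmegaS S) ∧
      (Spanned c S → OmegaM K c = OmegaS S ∧ OmegaDRB K c = OmegaS S ∧
        OmegaS S = OmegaLef c ψdR ψB) := by
  obtain ⟨h1, h2⟩ := GL2.mainB hK hw (polarised_of hpol) (sum_of hsum)
  have hA : ∀ f ∈ OmegaLef c ψdR ψB, ∀ f', Conj K f f' → f' ∈ OmegaM K c := by
    intro f hf f' hff'
    obtain ⟨τ, hτ, rfl⟩ := conj_iff.1 hff'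
    rw [omegaLef_eq] at hf
    exact h1 f hf τ hτ
  refine ⟨hA, fun S hS hP => ?_⟩
  have h3 := (h2 S hS hP).1
  have main : (∀ f ∈ OmegaS S, ∃ f', Conj K f f' ∧ EndCompat c f') →
      OmegaM K c = OmegaS S ∧ OmegaDRB K c = OmegaS S := by
    intro hE
    apply h3
    intro f hf
    obtain ⟨f', hff', hf'⟩ := hE f hf
    obtain ⟨τ, hτ, rfl⟩ := conj_iff.1 hff'
    exact ⟨τ, hτ, endCompat_iff.1 hf'⟩
  refine ⟨main, fun hsp => ?_⟩
  have hE : ∀ f ∈ OmegaS S, EndCompat c f := fun f hf => compat_of_spanned hsp hf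
  have hrefl : ∀ f : GL ι ℂ, Conj K f f := fun f => ⟨RingEquiv.refl ℂ, fun _ _ => rfl,
    fun _ _ => rfl⟩
  obtain ⟨h5, h6⟩ := main fun f hf => ⟨f, hrefl f, hE f hf⟩
  refine ⟨h5, h6, Set.Subset.antisymm (fun f hf => ⟨hE f hf, ?_⟩) fun f hf => ?_⟩
  · obtain ⟨μ, hμ⟩ := GL2.sim_of_fixes hpol.1 (hf _ hP)
    exact ⟨μ, mult_iff.2 hμ⟩
  · rw [← h5]
    exact hA f hf f (hrefl f)

variable {κ J : Type} [Fintype κ] [DecidableEq κ] [Fintype J] [DecidableEq J]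

theorem partA (hK : K ≤ Qbar) {Φ : Pt κ J → GL ι ℂ} (hΦ : IsMor Φ) {c : Pt κ J}
    (hirr : ∀ k, Irr (c.1 k)) (hiso : ∀ i j, i ≠ j → NonTw (c.1 i) (c.1 j)) :
    (∀ x, SameRel c x → ∀ f, Conj K (Φ x) f → f ∈ OmegaM K (Φ c)) ∧
    (K = Qbar → IsImm Φ → OmegaM K (Φ c) = {f | ∃ x, SameRel c x ∧ f = Φ x}) ∧
    ∀ S : Set (TPair K ι), (∀ α ∈ S, Fixes (Φ c) α) →
      (∀ f ∈ OmegaS S, ∃ x, SameRel c x ∧ Conj K (Φ x) f) →
      OmegaM K (Φ c) = OmegaS S ∧ OmegaDRB K (Φ c) = OmegaS S := by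
  have hi : ∀ k, GL2.Irr (c.1 k).1 := fun k => irr_of (hirr k)
  have hn : ∀ i j, i ≠ j → GL2.NonTw (c.1 i).1 (c.1 j).1 := fun i j h => nonTw_of (hiso i j h)
  have h1 : ∀ x, SameRel c x → ∀ f, Conj K (Φ x) f → f ∈ OmegaM K (Φ c) := by
    intro x hx f hf T hT hcT
    obtain ⟨τ, hτ, rfl⟩ := conj_iff.1 hf
    exact hT.closed.tw_mem hτ (GL2.main hK (isMor_of hΦ) hi hn hT hcT (sameRel_iff.1 hx))
  refine ⟨h1, ?_, ?_⟩
  · rintro rfl hI
    apply Set.Subset.antisymm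
    · intro f hf
      exact hf _ (isTorsor_image hΦ hI c) ⟨c, fun _ _ => rfl, rfl⟩
    · rintro _ ⟨x, hx, rfl⟩
      exact h1 x hx _ ⟨RingEquiv.refl ℂ, fun _ _ => rfl, fun _ _ => rfl⟩
  · intro S hS hsub
    obtain ⟨e1, e2, _⟩ := GL2.equality hK (isMor_of hΦ) hi hn hS (fun f hf => by
      obtain ⟨x, hx, hxf⟩ := hsub f hf
      obtain ⟨τ, hτ, e⟩ := conj_iff.1 hxf
      exact ⟨τ, hτ, x, sameRel_iff.1 hx, e⟩)
    exact ⟨e1.trans e2, e2⟩

end Pool.Agent.Lib.MPf11a48.GL2T
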