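import Pool.Agent.Lib.MP_f11a48_ag.helper92.Core
import Pool.Agent.Lib.MP_f11a48_ag.helper16.Classes

/-! # Exact determination of `Ω_M` over `Qbar`, and consequences for `Ω^dRB_M` and `Ω_S` -/

set_option autoImplicit false
set_option linter.unusedSectionVars false

namespace Pool.Agent.Lib.MPf11a48.GL2

open Matrix MvPolynomial Pool.Agent.Lib.MPf11a48.Tors
open Pool.Agent.Lib.MPf11a48.CM hiding OmegaM

variable {κ J : Type} [Fintype κ] [Fintype J] [DecidableEq κ] [DecidableEq J]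

theorem sameRel_self (c : (κ → GL (Fin 2) ℂ) × (J → ℂˣ)) : SameRel c c := fun _ _ => rfl

theorem dets_mul (x y : (κ → GL (Fin 2) ℂ) × (J → ℂˣ)) : dets (x * y) = dets x * dets y := by
  funext i
  rcases i with k | j
  · exact map_mul _ _ _
  · rfl

theorem dets_inv (x : (κ → GL (Fin 2) ℂ) × (J → ℂˣ)) : dets x⁻¹ = (dets x)⁻¹ := by
  funext i
  rcases i with k | j
  · exact map_inv _ _
  · rfl

theorem prod_zpow_mul (a b : κ ⊕ J → ℂˣ) (χ : κ ⊕ J → ℤ) :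
    (∏ i, (((a * b) i : ℂˣ) : ℂ) ^ χ i) = (∏ i, (a i : ℂ) ^ χ i) * ∏ i, (b i : ℂ) ^ χ i := by
  rw [← Finset.prod_mul_distrib]
  refine Finset.prod_congr rfl fun i _ => ?_
  rw [Pi.mul_apply, Units.val_mul, mul_zpow]

theorem prod_zpow_inv (a : κ ⊕ J → ℂˣ) (χ : κ ⊕ J → ℤ) :
    (∏ i, (((a⁻¹) i : ℂˣ) : ℂ) ^ χ i) = (∏ i, (a i : ℂ) ^ χ i)⁻¹ := by
  rw [← Finset.prod_inv_distrib]
  refine Finset.prod_congr rfl fun i _ => ?_
  rw [Pi.inv_apply, Units.val_inv_eq_inv_val, _root_.inv_zpow]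

theorem prod_zpow_ne (a : κ ⊕ J → ℂˣ) (χ : κ ⊕ J → ℤ) : (∏ i, (a i : ℂ) ^ χ i) ≠ 0 :=
  Finset.prod_ne_zero_iff.2 fun i _ => zpow_ne_zero _ (a i).ne_zero

theorem sameRel_heap {c x y z : (κ → GL (Fin 2) ℂ) × (J → ℂˣ)} (hx : SameRel c x)
    (hy : SameRel c y) (hz : SameRel c z) : SameRel c (x * y⁻¹ * z) := by
  intro χ hχ
  rw [dets_mul, dets_mul, dets_inv, prod_zpow_mul, prod_zpow_mul, prod_zpow_inv, hx χ hχ, hy χ hχ,
    hz χ hχ, mul_inv_cancel₀ (prod_zpow_ne _ _), one_mul]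

/-- the polynomial giving the determinant of a block -/
noncomputable def detPol (i : κ ⊕ J) : MvPolynomial (BIdx κ J × BIdx κ J) Qbar :=
  Sum.elim (fun k => X (Sum.inl (0, k), Sum.inl (0, k)) * X (Sum.inl (1, k), Sum.inl (1, k)) -
    X (Sum.inl (0, k), Sum.inl (1, k)) * X (Sum.inl (1, k), Sum.inl (0, k)))
    (fun j => X (Sum.inr j, Sum.inr j)) i

theorem aeval_detPol (x : (κ → GL (Fin 2) ℂ) × (J → ℂˣ)) (i : κ ⊕ J) :
    aeval (ent (blkGL x)) (detPol i) = (dets x i : ℂ) := by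
  rcases i with k | j
  · change aeval (ent (blkGL x)) (X _ * X _ - X _ * X _) = (x.1 k).1.det
    rw [map_sub, map_mul, map_mul, aeval_X, aeval_X, aeval_X, aeval_X, det_fin_two]
    simp only [ent, blkGL_val, blk_ll]
  · change aeval (ent (blkGL x)) (X _) = (x.2 j : ℂ)
    rw [aeval_X]
    simp only [ent, blkGL_val, blk_rr]

/-- the set of block diagonal matrices cut out by multiplicative relations -/
def relSet (c : (κ → GL (Fin 2) ℂ) × (J → ℂˣ)) : Set (GL (BIdx κ J) ℂ) :=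
  {g | ∃ x, blkGL x = g ∧ SameRel c x}

theorem isTorsor_relSet (c : (κ → GL (Fin 2) ℂ) × (J → ℂˣ)) : IsTorsor Qbar (relSet c) where
  closed := by
    refine ⟨{p | ∃ u v, ¬inB u v ∧ p = X (u, v)} ∪
      {p | ∃ (χ : κ ⊕ J → ℤ) (α : Qbar), (∏ i, (dets c i : ℂ) ^ χ i) = (α : ℂ) ∧
        p = ∏ i, detPol i ^ (χ i).toNat - C α * ∏ i, detPol i ^ (-χ i).toNat}, ?_⟩
    have key : ∀ (x : (κ → GL (Fin 2) ℂ) × (J → ℂˣ)) (χ : κ ⊕ J → ℤ) (α : Qbar),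
        aeval (ent (blkGL x)) (∏ i, detPol i ^ (χ i).toNat - C α * ∏ i, detPol i ^ (-χ i).toNat) = 0 ↔
        ∏ i, (dets x i : ℂ) ^ χ i = (α : ℂ) := by
      intro x χ α
      have h1 : (∏ i, (dets x i : ℂ) ^ χ i) = (∏ i, (dets x i : ℂ) ^ (χ i).toNat) *
          (∏ i, (dets x i : ℂ) ^ (-χ i).toNat)⁻¹ := by
        rw [← Finset.prod_inv_distrib, ← Finset.prod_mul_distrib]
        refine Finset.prod_congr rfl fun i _ => ?_
        rw [← inv_pow]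
        exact (TorSit.zpow_toNat' _ _).symm
      have h2 : (∏ i, (dets x i : ℂ) ^ (-χ i).toNat) ≠ 0 :=
        Finset.prod_ne_zero_iff.2 fun i _ => pow_ne_zero _ (dets x i).ne_zero
      rw [map_sub, map_mul, map_prod, map_prod, algHom_C]
      simp only [map_pow, aeval_detPol]
      change _ - (α : ℂ) * _ = 0 ↔ _
      rw [h1, sub_eq_zero, ← div_eq_mul_inv, div_eq_iff h2]
    ext g
    constructor
    · rintro ⟨x, rfl, hx⟩ r (⟨u, v, huv, rfl⟩ | ⟨χ, α, hα, rfl⟩)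
      · rw [aeval_X]
        exact blk_off _ _ huv
      · refine (key x χ α).2 ?_
        rw [hx χ (by rw [hα]; exact α.2), hα]
    · intro hg
      obtain ⟨x, hx⟩ := exists_blkGL (g := g) (fun u v huv => by
        have := hg _ (Or.inl ⟨u, v, huv, rfl⟩)
        rwa [aeval_X] at this)
      refine ⟨x, hx, fun χ hχ => ?_⟩
      have h1 := hg _ (Or.inr ⟨χ, ⟨_, hχ⟩, rfl, rfl⟩)
      rw [← hx] at h1
      exact (key x χ ⟨_, hχ⟩).1 h1
  nonempty := ⟨blkGL c, c, rfl, sameRel_self c⟩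
  heap := by
    rintro _ ⟨x, rfl, hx⟩ _ ⟨y, rfl, hy⟩ _ ⟨z, rfl, hz⟩
    exact ⟨x * y⁻¹ * z, by rw [map_mul, map_mul, map_inv], sameRel_heap hx hy hz⟩

/-- `Ω_M` for a direct sum of objects of rank at most two over `Qbar` -/
theorem exact (c : (κ → GL (Fin 2) ℂ) × (J → ℂˣ))
    (hirr : ∀ k, Irr (c.1 k).1) (hiso : ∀ i j, i ≠ j → NonTw (c.1 i).1 (c.1 j).1) :
    OmegaM Qbar (blkGL c) = relSet c := by
  apply Set.Subset.antisymm
  · intro f hf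
    exact hf _ (isTorsor_relSet c) ⟨c, rfl, sameRel_self c⟩
  · rintro _ ⟨x, rfl, hx⟩ T hT hcT
    exact core hT hcT hirr hiso hx

variable {ι : Type} [Fintype ι] [DecidableEq ι] {K : IntermediateField ℚ ℂ}

/-- the conjugates over `K` of the points `Φ x` -/
def conjSet (K : IntermediateField ℚ ℂ) (Φ : (κ → GL (Fin 2) ℂ) × (J → ℂˣ) → GL ι ℂ)
    (c : (κ → GL (Fin 2) ℂ) × (J → ℂˣ)) : Set (GL ι ℂ) :=
  {f | ∃ τ : ℂ ≃+* ℂ, FixesField K τ ∧ ∃ x, SameRel c x ∧ f = tw τ (Φ x)}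

theorem conjSet_subset (hK : K ≤ Qbar) {Φ : (κ → GL (Fin 2) ℂ) × (J → ℂˣ) → GL ι ℂ}
    (hΦ : IsMor Φ) {c : (κ → GL (Fin 2) ℂ) × (J → ℂˣ)} (hirr : ∀ k, Irr (c.1 k).1)
    (hiso : ∀ i j, i ≠ j → NonTw (c.1 i).1 (c.1 j).1) :
    conjSet K Φ c ⊆ OmegaM K (Φ c) := by
  rintro _ ⟨τ, hτ, x, hx, rfl⟩ T hT hcT
  exact hT.closed.tw_mem hτ (main hK hΦ hirr hiso hT hcT hx)

/-- if the classes in `S` cut out at most `conjSet`, everything is equal -/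
theorem equality (hK : K ≤ Qbar) {Φ : (κ → GL (Fin 2) ℂ) × (J → ℂˣ) → GL ι ℂ}
    (hΦ : IsMor Φ) {c : (κ → GL (Fin 2) ℂ) × (J → ℂˣ)} (hirr : ∀ k, Irr (c.1 k).1)
    (hiso : ∀ i j, i ≠ j → NonTw (c.1 i).1 (c.1 j).1) {S : Set (TPair K ι)}
    (hS : ∀ α ∈ S, Fixes (Φ c) α) (hsub : OmegaS S ⊆ conjSet K Φ c) :
    OmegaM K (Φ c) = OmegaDRB K (Φ c) ∧ OmegaDRB K (Φ c) = OmegaS S ∧
      OmegaS S = conjSet K Φ c := by
  have h1 := conjSet_subset hK hΦ hirr hiso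
  have h2 := OmegaM_subset_OmegaDRB K (Φ c)
  have h3 : OmegaDRB K (Φ c) ⊆ OmegaS S := drb_subset hS
  exact ⟨h2.antisymm (h3.trans (hsub.trans h1)), h3.antisymm (hsub.trans (h1.trans h2)),
    hsub.antisymm (h1.trans (h2.trans h3))⟩

end Pool.Agent.Lib.MPf11a48.GL2
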