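import Mathlib

/-! # Elementary facts on traceless two by two matrices -/

set_option autoImplicit false

namespace Pool.Agent.Lib.MPf11a48.GL2

open Matrix

section field

variable {k : Type*} [Field k]

/-- the standard matrices -/
def mE (k : Type*) [Field k] : Matrix (Fin 2) (Fin 2) k := !![0, 1; 0, 0]
/-- the standard matrices -/
def mF (k : Type*) [Field k] : Matrix (Fin 2) (Fin 2) k := !![0, 0; 1, 0]
/-- the standard matrices -/
def mH (k : Type*) [Field k] : Matrix (Fin 2) (Fin 2) k := !![1, 0; 0, -1]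

omit [Field k] in
theorem ext2 {A B : Matrix (Fin 2) (Fin 2) k} (h00 : A 0 0 = B 0 0) (h01 : A 0 1 = B 0 1)
    (h10 : A 1 0 = B 1 0) (h11 : A 1 1 = B 1 1) : A = B := by
  ext i j
  fin_cases i <;> fin_cases j <;> assumption

theorem E00 : mE k 0 0 = 0 := rfl
theorem E01 : mE k 0 1 = 1 := rfl
theorem E10 : mE k 1 0 = 0 := rfl
theorem E11 : mE k 1 1 = 0 := rfl
theorem F00 : mF k 0 0 = 0 := rfl
theorem F01 : mF k 0 1 = 0 := rfl
theorem F10 : mF k 1 0 = 1 := rfl
theorem F11 : mF k 1 1 = 0 := rfl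
theorem H00 : mH k 0 0 = 1 := rfl
theorem H01 : mH k 0 1 = 0 := rfl
theorem H10 : mH k 1 0 = 0 := rfl
theorem H11 : mH k 1 1 = -1 := rfl

theorem tr2 (A : Matrix (Fin 2) (Fin 2) k) : A.trace = A 0 0 + A 1 1 := Matrix.trace_fin_two A

theorem apply_one_one_of_trace {A : Matrix (Fin 2) (Fin 2) k} (h : A.trace = 0) :
    A 1 1 = -A 0 0 := by
  rw [tr2] at h
  linear_combination h

theorem mul2 (A B : Matrix (Fin 2) (Fin 2) k) (i j : Fin 2) :
    (A * B) i j = A i 0 * B 0 j + A i 1 * B 1 j := by
  rw [Matrix.mul_apply, Fin.sum_univ_two]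

theorem mulVec2 (A : Matrix (Fin 2) (Fin 2) k) (v : Fin 2 → k) (i : Fin 2) :
    (A *ᵥ v) i = A i 0 * v 0 + A i 1 * v 1 := by
  rw [Matrix.mulVec, dotProduct, Fin.sum_univ_two]

/-- vectors with vanishing determinant are proportional -/
theorem exists_smul_of_det {v w : Fin 2 → k} (hv : v ≠ 0) (h : v 0 * w 1 = v 1 * w 0) :
    ∃ t : k, w = t • v := by
  by_cases h0 : v 0 = 0
  · have h1 : v 1 ≠ 0 := by
      intro h1
      apply hv
      funext i
      fin_cases i
      · exact h0
      · exact h1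
    refine ⟨w 1 / v 1, ?_⟩
    funext i
    fin_cases i
    · have h2 : w 0 = 0 := by
        rw [h0, zero_mul] at h
        rcases mul_eq_zero.1 h.symm with h2 | h2
        · exact absurd h2 h1
        · exact h2
      simp [h2, h0]
    · simp [h1]
  · refine ⟨w 0 / v 0, ?_⟩
    funext i
    fin_cases i
    · simp [h0]
    · simp only [Fin.mk_one, Pi.smul_apply, smul_eq_mul]
      field_simp
      linear_combination h

/-- the kernel of a nonzero matrix has dimension at most one -/
theorem exists_smul_of_ker {A : Matrix (Fin 2) (Fin 2) k} (hA : A ≠ 0) {v w : Fin 2 → k}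
    (hv : v ≠ 0) (h1 : A *ᵥ v = 0) (h2 : A *ᵥ w = 0) : ∃ t : k, w = t • v := by
  refine exists_smul_of_det hv ?_
  by_contra hne
  apply hA
  have key : ∀ i, A i 0 = 0 ∧ A i 1 = 0 := by
    intro i
    have e1 := congrFun h1 i
    have e2 := congrFun h2 i
    rw [mulVec2] at e1 e2
    simp only [Pi.zero_apply] at e1 e2
    have hd : v 0 * w 1 - v 1 * w 0 ≠ 0 := sub_ne_zero.2 hne
    constructor
    · have : A i 0 * (v 0 * w 1 - v 1 * w 0) = 0 := by linear_combination w 1 * e1 - v 1 * e2
      exact (mul_eq_zero.1 this).resolve_right hd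
    · have : A i 1 * (v 0 * w 1 - v 1 * w 0) = 0 := by linear_combination v 0 * e2 - w 0 * e1
      exact (mul_eq_zero.1 this).resolve_right hd
  exact ext2 (key 0).1 (key 0).2 (key 1).1 (key 1).2

/-- the bracket of two traceless matrices vanishes only if they are proportional -/
theorem bracket_ne_zero [CharZero k] {A B : Matrix (Fin 2) (Fin 2) k} (hA : A.trace = 0)
    (hB : B.trace = 0) (hA0 : A ≠ 0) (h : ∀ t : k, B ≠ t • A) : A * B - B * A ≠ 0 := by
  intro h0
  have a3 := apply_one_one_of_trace hA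
  have b3 := apply_one_one_of_trace hB
  have e00 := congrFun (congrFun h0 0) 0
  have e01 := congrFun (congrFun h0 0) 1
  have e10 := congrFun (congrFun h0 1) 0
  simp only [Matrix.sub_apply, mul2, Matrix.zero_apply] at e00 e01 e10
  rw [a3, b3] at e01 e10
  have two : (2 : k) ≠ 0 := two_ne_zero
  -- the three two by two minors of (A, B) vanish
  have m1 : A 0 1 * B 1 0 = A 1 0 * B 0 1 := by linear_combination e00
  have m2 : A 0 0 * B 0 1 = A 0 1 * B 0 0 := by
    have : 2 * (A 0 0 * B 0 1 - A 0 1 * B 0 0) = 0 := by linear_combination e01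
    exact sub_eq_zero.1 ((mul_eq_zero.1 this).resolve_left two)
  have m3 : A 0 0 * B 1 0 = A 1 0 * B 0 0 := by
    have : 2 * (A 0 0 * B 1 0 - A 1 0 * B 0 0) = 0 := by linear_combination -e10
    exact sub_eq_zero.1 ((mul_eq_zero.1 this).resolve_left two)
  by_cases h1 : A 0 0 = 0
  · by_cases h2 : A 0 1 = 0
    · have h3 : A 1 0 ≠ 0 := by
        intro h3
        exact hA0 (ext2 h1 h2 h3 (by rw [a3, h1]; simp))
      refine h (B 1 0 / A 1 0) (ext2 ?_ ?_ ?_ ?_)
      · rw [Matrix.smul_apply, h1, smul_zero]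
        rw [h1, zero_mul] at m3
        exact (mul_eq_zero.1 m3.symm).resolve_left h3
      · rw [Matrix.smul_apply, h2, smul_zero]
        rw [h2, zero_mul] at m1
        exact (mul_eq_zero.1 m1.symm).resolve_left h3
      · rw [Matrix.smul_apply, smul_eq_mul, div_mul_cancel₀ _ h3]
      · rw [Matrix.smul_apply, a3, h1, b3, neg_zero, smul_zero]
        rw [h1, zero_mul] at m3
        rw [(mul_eq_zero.1 m3.symm).resolve_left h3, neg_zero]
    · refine h (B 0 1 / A 0 1) (ext2 ?_ ?_ ?_ ?_)
      · rw [Matrix.smul_apply, smul_eq_mul]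
        field_simp
        linear_combination -m2
      · rw [Matrix.smul_apply, smul_eq_mul, div_mul_cancel₀ _ h2]
      · rw [Matrix.smul_apply, smul_eq_mul]
        field_simp
        linear_combination m1
      · rw [Matrix.smul_apply, smul_eq_mul, a3, b3]
        field_simp
        linear_combination m2
  · refine h (B 0 0 / A 0 0) (ext2 ?_ ?_ ?_ ?_)
    · rw [Matrix.smul_apply, smul_eq_mul, div_mul_cancel₀ _ h1]
    · rw [Matrix.smul_apply, smul_eq_mul]
      field_simp
      linear_combination m2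
    · rw [Matrix.smul_apply, smul_eq_mul]
      field_simp
      linear_combination m3
    · rw [Matrix.smul_apply, smul_eq_mul, a3, b3]
      field_simp

/-- the orthogonal complement of a plane of traceless matrices is spanned by the bracket -/
theorem exists_smul_bracket [CharZero k] {A B W : Matrix (Fin 2) (Fin 2) k} (hA : A.trace = 0)
    (hB : B.trace = 0) (hW : W.trace = 0) (h0 : A * B - B * A ≠ 0) (h1 : (W * A).trace = 0)
    (h2 : (W * B).trace = 0) : ∃ t : k, W = t • (A * B - B * A) := by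
  have a3 := apply_one_one_of_trace hA
  have b3 := apply_one_one_of_trace hB
  have w3 := apply_one_one_of_trace hW
  rw [tr2, mul2, mul2] at h1 h2
  rw [a3, w3] at h1
  rw [b3, w3] at h2
  have c00 : (A * B - B * A) 0 0 = A 0 1 * B 1 0 - A 1 0 * B 0 1 := by
    simp only [Matrix.sub_apply, mul2]; ring
  have c01 : (A * B - B * A) 0 1 = 2 * (A 0 0 * B 0 1 - A 0 1 * B 0 0) := by
    simp only [Matrix.sub_apply, mul2, a3, b3]; ring
  have c10 : (A * B - B * A) 1 0 = 2 * (A 1 0 * B 0 0 - A 0 0 * B 1 0) := by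
    simp only [Matrix.sub_apply, mul2, a3, b3]; ring
  have c11 : (A * B - B * A) 1 1 = -(A 0 1 * B 1 0 - A 1 0 * B 0 1) := by
    simp only [Matrix.sub_apply, mul2, a3, b3]; ring
  have two : (2 : k) ≠ 0 := two_ne_zero
  set p := A 0 1 * B 1 0 - A 1 0 * B 0 1 with hp
  set q := A 0 0 * B 0 1 - A 0 1 * B 0 0 with hq
  set r := A 1 0 * B 0 0 - A 0 0 * B 1 0 with hr
  -- `(2 w00, w10, w01)` is orthogonal to `(a00, a01, a10)` and `(b00, b01, b10)`
  have k1 : 2 * W 0 0 * q = W 0 1 * p := by
    linear_combination (-B 0 1) * h1 * (-1) + A 0 1 * h2 * (-1)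
  have k2 : 2 * W 0 0 * r = W 1 0 * p := by
    linear_combination (-B 1 0) * h1 + A 1 0 * h2
  have k3 : W 0 1 * r = W 1 0 * q := by
    linear_combination B 0 0 * h1 - A 0 0 * h2
  by_cases hp0 : p = 0
  · by_cases hq0 : q = 0
    · have hr0 : r ≠ 0 := by
        intro hr0
        apply h0
        refine ext2 ?_ ?_ ?_ ?_
        · rw [c00, hp0]; rfl
        · rw [c01, hq0, mul_zero]; rfl
        · rw [c10, hr0, mul_zero]; rfl
        · rw [c11, hp0, neg_zero]; rfl
      refine ⟨W 1 0 / (2 * r), ext2 ?_ ?_ ?_ ?_⟩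
      · rw [Matrix.smul_apply, c00, hp0, smul_zero]
        rw [hp0, mul_zero] at k2
        have := (mul_eq_zero.1 k2).resolve_right hr0
        exact (mul_eq_zero.1 this).resolve_left two
      · rw [Matrix.smul_apply, c01, hq0, mul_zero, smul_zero]
        rw [hq0, mul_zero] at k3
        exact (mul_eq_zero.1 k3).resolve_right hr0
      · rw [Matrix.smul_apply, c10, smul_eq_mul]
        field_simp
      · rw [Matrix.smul_apply, c11, hp0, neg_zero, smul_zero, w3]
        rw [hp0, mul_zero] at k2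
        have := (mul_eq_zero.1 k2).resolve_right hr0
        rw [(mul_eq_zero.1 this).resolve_left two, neg_zero]
    · refine ⟨W 0 1 / (2 * q), ext2 ?_ ?_ ?_ ?_⟩
      · rw [Matrix.smul_apply, c00, hp0, smul_zero]
        rw [hp0, mul_zero] at k1
        have := (mul_eq_zero.1 k1).resolve_right hq0
        exact (mul_eq_zero.1 this).resolve_left two
      · rw [Matrix.smul_apply, c01, smul_eq_mul]
        field_simp
      · rw [Matrix.smul_apply, c10, smul_eq_mul]
        field_simp
        linear_combination -k3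
      · rw [Matrix.smul_apply, c11, hp0, neg_zero, smul_zero, w3]
        rw [hp0, mul_zero] at k1
        have := (mul_eq_zero.1 k1).resolve_right hq0
        rw [(mul_eq_zero.1 this).resolve_left two, neg_zero]
  · refine ⟨W 0 0 / p, ext2 ?_ ?_ ?_ ?_⟩
    · rw [Matrix.smul_apply, c00, smul_eq_mul, div_mul_cancel₀ _ hp0]
    · rw [Matrix.smul_apply, c01, smul_eq_mul]
      field_simp
      linear_combination -k1
    · rw [Matrix.smul_apply, c10, smul_eq_mul]
      field_simp
      linear_combination -k2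
    · rw [Matrix.smul_apply, c11, smul_eq_mul, w3]
      field_simp

/-- the matrix with columns `v`, `w` -/
def cols (v w : Fin 2 → k) : Matrix (Fin 2) (Fin 2) k := !![v 0, w 0; v 1, w 1]

theorem mul_cols (A : Matrix (Fin 2) (Fin 2) k) (v w : Fin 2 → k) :
    A * cols v w = cols (A *ᵥ v) (A *ᵥ w) := by
  refine ext2 ?_ ?_ ?_ ?_ <;> simp [mul2, cols, Matrix.mulVec, dotProduct, Fin.sum_univ_two]

theorem det_cols_ne_zero {v w : Fin 2 → k} (hv : v ≠ 0) (h : ∀ t : k, w ≠ t • v) :
    (cols v w).det ≠ 0 := by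
  intro h0
  rw [Matrix.det_fin_two] at h0
  simp only [cols, of_apply, cons_val', cons_val_zero, cons_val_one, cons_val_fin_one] at h0
  obtain ⟨t, ht⟩ := exists_smul_of_det hv (w := w) (by linear_combination h0)
  exact h t ht

/-- a triple of two by two matrices with the relations of `sl_2` is conjugate to the standard
one -/
theorem exists_conj_triple [CharZero k] {h e f : Matrix (Fin 2) (Fin 2) k} (he0 : e ≠ 0)
    (h1 : h * e - e * h = (2 : k) • e) (h2 : h * f - f * h = -((2 : k) • f))
    (h3 : e * f - f * e = h) : ∃ g : Matrix (Fin 2) (Fin 2) k, g.det ≠ 0 ∧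
      h * g = g * mH k ∧ e * g = g * mE k ∧ f * g = g * mF k := by
  have two : (2 : k) ≠ 0 := two_ne_zero
  have hte : e.trace = 0 := by
    have h4 := congrArg Matrix.trace h1
    rw [Matrix.trace_sub, Matrix.trace_mul_comm, sub_self, Matrix.trace_smul, smul_eq_mul] at h4
    exact (mul_eq_zero.1 h4.symm).resolve_left two
  have hth : h.trace = 0 := by
    rw [← h3, Matrix.trace_sub, Matrix.trace_mul_comm, sub_self]
  -- `e` is singular
  have hdet : e.det = 0 := by
    have e3 := apply_one_one_of_trace hte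
    have g3 := apply_one_one_of_trace hth
    have p00 := congrFun (congrFun h1 0) 0
    have p01 := congrFun (congrFun h1 0) 1
    have p10 := congrFun (congrFun h1 1) 0
    simp only [Matrix.sub_apply, mul2, Matrix.smul_apply, smul_eq_mul] at p00 p01 p10
    rw [e3, g3] at p01 p10
    rw [Matrix.det_fin_two, e3]
    have h5 : 2 * (e 0 0 * -e 0 0 - e 0 1 * e 1 0) = 0 := by
      linear_combination e 0 0 * p00 + (1/2) * e 1 0 * p01 + (1/2) * e 0 1 * p10
    exact (mul_eq_zero.1 h5).resolve_left two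
  obtain ⟨v, hv, hev⟩ := Matrix.exists_mulVec_eq_zero_iff.2 hdet
  -- `v` is an eigenvector of `h`
  have k1 : ∀ x : Fin 2 → k, h *ᵥ (e *ᵥ x) - e *ᵥ (h *ᵥ x) = (2 : k) • (e *ᵥ x) := by
    intro x
    have := congrArg (fun M : Matrix (Fin 2) (Fin 2) k => M *ᵥ x) h1
    simpa only [sub_mulVec, ← mulVec_mulVec, smul_mulVec] using this
  have k2 : ∀ x : Fin 2 → k, h *ᵥ (f *ᵥ x) - f *ᵥ (h *ᵥ x) = -((2 : k) • (f *ᵥ x)) := by
    intro x
    have := congrArg (fun M : Matrix (Fin 2) (Fin 2) k => M *ᵥ x) h2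
    simpa only [sub_mulVec, ← mulVec_mulVec, smul_mulVec, neg_mulVec] using this
  have k3 : ∀ x : Fin 2 → k, e *ᵥ (f *ᵥ x) - f *ᵥ (e *ᵥ x) = h *ᵥ x := by
    intro x
    have := congrArg (fun M : Matrix (Fin 2) (Fin 2) k => M *ᵥ x) h3
    simpa only [sub_mulVec, ← mulVec_mulVec] using this
  have hehv : e *ᵥ (h *ᵥ v) = 0 := by
    have := k1 v
    rw [hev, mulVec_zero, smul_zero, zero_sub] at this
    exact neg_eq_zero.1 this
  obtain ⟨μ, hμ⟩ := exists_smul_of_ker he0 hv hev hehv
  set w := f *ᵥ v with hw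
  have hew : e *ᵥ w = μ • v := by
    have := k3 v
    rwa [hev, mulVec_zero, sub_zero, hμ] at this
  have hhw : h *ᵥ w = (μ - 2) • w := by
    have := k2 v
    rw [hμ, mulVec_smul, ← hw] at this
    rw [sub_smul, sub_eq_iff_eq_add.1 this]
    module
  -- `μ ≠ 0`
  have hμ0 : μ ≠ 0 := by
    intro hμ0
    rw [hμ0, zero_smul] at hew hμ
    obtain ⟨t, ht⟩ := exists_smul_of_ker he0 hv hev hew
    have hw0 : w = 0 := by
      have h4 : h *ᵥ w = 0 := by rw [ht, mulVec_smul, hμ, smul_zero]
      rw [hhw, hμ0, zero_sub] at h4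
      exact (smul_eq_zero.1 h4).resolve_left (neg_ne_zero.2 two)
    -- `h` and `e` kill `v`; so they are proportional
    have h5 : ∃ x : Fin 2 → k, ∀ t : k, x ≠ t • v := by
      by_contra hcon
      push Not at hcon
      obtain ⟨s, hs⟩ := hcon ![1, 0]
      obtain ⟨s', hs'⟩ := hcon ![0, 1]
      have a0 := congrFun hs 0
      have a1 := congrFun hs 1
      have b0 := congrFun hs' 0
      have b1 := congrFun hs' 1
      simp at a0 a1 b0 b1
      rcases a1 with a1 | a1
      · rw [a1, zero_mul] at a0; exact one_ne_zero a0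
      · rw [a1, mul_zero] at b1; exact one_ne_zero b1
    obtain ⟨x, hx⟩ := h5
    have hd := det_cols_ne_zero hv hx
    -- any matrix of trace zero killing `v` maps `x` to a multiple of `v`
    have kill : ∀ A : Matrix (Fin 2) (Fin 2) k, A.trace = 0 → A *ᵥ v = 0 →
        ∃ t : k, A *ᵥ x = t • v := by
      intro A hA hAv
      refine exists_smul_of_det hv ?_
      have a3 := apply_one_one_of_trace hA
      have e0 := congrFun hAv 0
      have e1 := congrFun hAv 1
      rw [mulVec2, Pi.zero_apply] at e0 e1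
      rw [mulVec2, mulVec2]
      rw [a3] at e1 ⊢
      linear_combination (-x 1) * e0 + x 0 * e1
    obtain ⟨s, hs⟩ := kill h hth hμ
    obtain ⟨s', hs'⟩ := kill e hte hev
    have h6 := k1 x
    rw [hs, hs', mulVec_smul, mulVec_smul, hμ, hev, smul_zero, smul_zero, sub_zero] at h6
    have h7 : e *ᵥ x = 0 := by
      rw [hs']
      exact (smul_eq_zero.1 h6.symm).resolve_left two
    apply he0
    have h8 : e * cols v x = 0 := by
      rw [mul_cols, hev, h7]
      refine ext2 ?_ ?_ ?_ ?_ <;> simp [cols]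
    have h9 : IsUnit (cols v x) := by
      rw [Matrix.isUnit_iff_isUnit_det]
      exact isUnit_iff_ne_zero.2 hd
    obtain ⟨u, hu⟩ := h9
    calc e = e * cols v x * (↑u⁻¹ : Matrix (Fin 2) (Fin 2) k) := by rw [← hu, mul_assoc, Units.mul_inv, mul_one]
      _ = 0 := by rw [h8, zero_mul]
  have hwv : ∀ t : k, w ≠ t • v := by
    intro t ht
    rw [ht, mulVec_smul, hev, smul_zero] at hew
    rcases smul_eq_zero.1 hew.symm with h4 | h4
    · exact hμ0 h4
    · exact hv h4
  have hd := det_cols_ne_zero hv hwv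
  -- `μ = 1`
  have hμ1 : μ = 1 := by
    have h4 : h * cols v w = cols v w * !![μ, 0; 0, μ - 2] := by
      rw [mul_cols, hμ, hhw]
      refine ext2 ?_ ?_ ?_ ?_ <;> simp [cols, mul2, mul_comm]
    have hu : IsUnit (cols v w) := by
      rw [Matrix.isUnit_iff_isUnit_det]
      exact isUnit_iff_ne_zero.2 hd
    obtain ⟨u, hu⟩ := hu
    have h5 : h = cols v w * !![μ, 0; 0, μ - 2] * (↑u⁻¹ : Matrix (Fin 2) (Fin 2) k) := by
      rw [← h4, ← hu, mul_assoc, Units.mul_inv, mul_one]
    have h6 := congrArg Matrix.trace h5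
    rw [hth, Matrix.trace_mul_comm, ← mul_assoc, ← hu, Units.inv_mul, one_mul, tr2] at h6
    simp at h6
    have h7 : 2 * (μ - 1) = 0 := by linear_combination -h6
    exact sub_eq_zero.1 ((mul_eq_zero.1 h7).resolve_left two)
  -- `f w = 0`
  have hfw : f *ᵥ w = 0 := by
    have h4 : h *ᵥ (f *ᵥ w) = (-3 : k) • (f *ᵥ w) := by
      have := k2 w
      rw [hhw, hμ1, mulVec_smul] at this
      rw [sub_eq_iff_eq_add.1 this]
      module
    by_contra hne
    -- `h + 3` is invertible
    have h5 : (h + (3 : k) • 1).det = 0 := by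
      apply Matrix.exists_mulVec_eq_zero_iff.1
      refine ⟨f *ᵥ w, hne, ?_⟩
      rw [add_mulVec, h4, smul_mulVec, one_mulVec]
      module
    have h6 : (h + (3 : k) • 1) * cols v w = cols v w * !![4, 0; 0, 2] := by
      rw [add_mul, mul_cols, hμ, hhw, hμ1, smul_mul_assoc, one_mul]
      refine ext2 ?_ ?_ ?_ ?_ <;> simp [cols, mul2] <;> ring
    have h7 := congrArg Matrix.det h6
    rw [Matrix.det_mul, Matrix.det_mul, h5, zero_mul, Matrix.det_fin_two !![(4 : k), 0; 0, 2]] at h7
    simp at h7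
    exact hd h7
  refine ⟨cols v w, hd, ?_, ?_, ?_⟩
  · rw [mul_cols, hμ, hhw, hμ1]
    refine ext2 ?_ ?_ ?_ ?_ <;> simp [cols, mul2, mH] <;> ring
  · rw [mul_cols, hev, hew, hμ1]
    refine ext2 ?_ ?_ ?_ ?_ <;> simp [cols, mul2, mE]
  · rw [mul_cols, hfw, ← hw]
    refine ext2 ?_ ?_ ?_ ?_ <;> simp [cols, mul2, mF]

/-- a traceless matrix in terms of the standard basis -/
theorem eq_comb {A : Matrix (Fin 2) (Fin 2) k} (hA : A.trace = 0) :
    A = A 0 0 • mH k + A 0 1 • mE k + A 1 0 • mF k := by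
  have a3 := apply_one_one_of_trace hA
  refine ext2 ?_ ?_ ?_ ?_ <;> simp [mH, mE, mF, a3]

theorem bracket_EF : mE k * mF k - mF k * mE k = mH k := by
  refine ext2 ?_ ?_ ?_ ?_ <;> simp [mH, mE, mF]

theorem bracket_HE : mH k * mE k - mE k * mH k = (2 : k) • mE k := by
  refine ext2 ?_ ?_ ?_ ?_ <;> simp [mH, mE]
  ring

theorem bracket_HF : mH k * mF k - mF k * mH k = -((2 : k) • mF k) := by
  refine ext2 ?_ ?_ ?_ ?_ <;> simp [mH, mF]
  ring

theorem trace_mE : (mE k).trace = 0 := by simp [mE, Matrix.trace_fin_two]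
theorem trace_mF : (mF k).trace = 0 := by simp [mF, Matrix.trace_fin_two]
theorem trace_mH : (mH k).trace = 0 := by simp [mH, Matrix.trace_fin_two]

/-- every traceless matrix is a sum of brackets of traceless matrices -/
theorem sl2_induction [CharZero k] {P : Matrix (Fin 2) (Fin 2) k → Prop}
    (hadd : ∀ A B, P A → P B → P (A + B)) (hsmul : ∀ (t : k) A, P A → P (t • A))
    (hbr : ∀ A B, A.trace = 0 → B.trace = 0 → P (A * B - B * A)) {A : Matrix (Fin 2) (Fin 2) k}
    (hA : A.trace = 0) : P A := by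
  have two : (2 : k) ≠ 0 := two_ne_zero
  have hH : P (mH k) := bracket_EF (k := k) ▸ hbr _ _ trace_mE trace_mF
  have hE : P (mE k) := by
    have h1 := hsmul (1 / 2) _ (hbr _ _ (trace_mH (k := k)) trace_mE)
    rwa [bracket_HE, smul_smul, one_div_mul_cancel two, one_smul] at h1
  have hF : P (mF k) := by
    have h1 := hsmul (-(1 / 2)) _ (hbr _ _ (trace_mH (k := k)) trace_mF)
    rwa [bracket_HF, smul_neg, neg_smul, neg_neg, smul_smul, one_div_mul_cancel two, one_smul] at h1
  rw [eq_comb hA]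
  exact hadd _ _ (hadd _ _ (hsmul _ _ hH) (hsmul _ _ hE)) (hsmul _ _ hF)

/-- `sl_2` is simple -/
theorem sl2_simple [CharZero k] {N : Submodule k (Matrix (Fin 2) (Fin 2) k)}
    (hbr : ∀ A B : Matrix (Fin 2) (Fin 2) k, A.trace = 0 → B ∈ N → A * B - B * A ∈ N)
    {X : Matrix (Fin 2) (Fin 2) k} (hX : X ∈ N) (hX0 : X ≠ 0) (hXt : X.trace = 0)
    {A : Matrix (Fin 2) (Fin 2) k} (hA : A.trace = 0) : A ∈ N := by
  have two : (2 : k) ≠ 0 := two_ne_zero
  have x3 := apply_one_one_of_trace hXt
  have hcan : ∀ (t : k) (B : Matrix (Fin 2) (Fin 2) k), t ≠ 0 → t • B ∈ N → B ∈ N := by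
    intro t B ht hB
    have := N.smul_mem t⁻¹ hB
    rwa [smul_smul, inv_mul_cancel₀ ht, one_smul] at this
  -- if one of the basis vectors is in `N` then all are
  have hE_all : mE k ∈ N → A ∈ N := by
    intro hE
    have hH : mH k ∈ N := by
      have h1 := hbr (mF k) (mE k) trace_mF hE
      have h2 : mF k * mE k - mE k * mF k = (-1 : k) • mH k := by
        rw [← bracket_EF]; module
      rw [h2] at h1
      exact hcan (-1) _ (neg_ne_zero.2 one_ne_zero) h1
    have hF : mF k ∈ N := by
      have h1 := hbr (mF k) (mH k) trace_mF hH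
      have h2 : mF k * mH k - mH k * mF k = (2 : k) • mF k := by
        have := bracket_HF (k := k)
        rw [← neg_sub, this, neg_neg]
      rw [h2] at h1
      exact hcan 2 _ two h1
    rw [eq_comb hA]
    exact N.add_mem (N.add_mem (N.smul_mem _ hH) (N.smul_mem _ hE)) (N.smul_mem _ hF)
  by_cases hc : X 1 0 = 0
  · by_cases hb : X 0 1 = 0
    · have ha : X 0 0 ≠ 0 := by
        intro ha
        exact hX0 (ext2 ha hb hc (by rw [x3, ha]; simp))
      apply hE_all
      have h1 := hbr (mE k) X trace_mE hX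
      have h2 : mE k * X - X * mE k = (-(2 * X 0 0)) • mE k := by
        refine ext2 ?_ ?_ ?_ ?_ <;> simp only [Matrix.sub_apply, mul2, Matrix.smul_apply,
          smul_eq_mul, E00, E01, E10, E11, hc, x3] <;> ring
      rw [h2] at h1
      exact hcan _ _ (neg_ne_zero.2 (mul_ne_zero two ha)) h1
    · -- `[F, [F, X]] = -2 b F`
      have h1 := hbr (mF k) _ trace_mF (hbr (mF k) X trace_mF hX)
      have h2 : mF k * (mF k * X - X * mF k) - (mF k * X - X * mF k) * mF k =
          (-(2 * X 0 1)) • mF k := by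
        refine ext2 ?_ ?_ ?_ ?_ <;> simp only [Matrix.sub_apply, mul2, Matrix.smul_apply,
          smul_eq_mul, F00, F01, F10, F11] <;> ring
      rw [h2] at h1
      have hF := hcan _ _ (neg_ne_zero.2 (mul_ne_zero two hb)) h1
      apply hE_all
      have hH : mH k ∈ N := by
        have h1 := hbr (mE k) (mF k) trace_mE hF
        rwa [bracket_EF] at h1
      have h3 := hbr (mE k) (mH k) trace_mE hH
      have h4 : mE k * mH k - mH k * mE k = (-2 : k) • mE k := by
        have := bracket_HE (k := k)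
        rw [← neg_sub, this, neg_smul]
      rw [h4] at h3
      exact hcan _ _ (neg_ne_zero.2 two) h3
  · apply hE_all
    have h1 := hbr (mE k) _ trace_mE (hbr (mE k) X trace_mE hX)
    have h2 : mE k * (mE k * X - X * mE k) - (mE k * X - X * mE k) * mE k =
        (-(2 * X 1 0)) • mE k := by
      refine ext2 ?_ ?_ ?_ ?_ <;> simp only [Matrix.sub_apply, mul2, Matrix.smul_apply,
        smul_eq_mul, E00, E01, E10, E11] <;> ring
    rw [h2] at h1
    exact hcan _ _ (neg_ne_zero.2 (mul_ne_zero two hc)) h1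

end field

end Pool.Agent.Lib.MPf11a48.GL2
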