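import Pool.Agent.Lib.MP_f11a48_ag.helper92.Lie

/-! # Derivations of `ℂ` over `Qbar` -/

set_option autoImplicit false

namespace Pool.Agent.Lib.MPf11a48.GL2

open Pool.Agent.Lib.MPf11a48.CM

/-- dual numbers, without any algebra structure -/
def DN : Type := DualNumber ℂ

noncomputable instance : CommRing DN := inferInstanceAs (CommRing (DualNumber ℂ))

/-- the projection of the dual numbers -/
noncomputable def DN.fst : DN →+* ℂ := (TrivSqZeroExt.fstHom ℂ ℂ ℂ).toRingHom

/-- the coefficient of the dual numbers -/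
noncomputable def DN.snd : DN →+ ℂ where
  toFun x := TrivSqZeroExt.snd x
  map_zero' := rfl
  map_add' _ _ := rfl

theorem dual_snd_mul (x y : DualNumber ℂ) :
    TrivSqZeroExt.snd (x * y) = TrivSqZeroExt.fst x * TrivSqZeroExt.snd y +
      TrivSqZeroExt.fst y * TrivSqZeroExt.snd x := by
  rw [TrivSqZeroExt.snd_mul, smul_eq_mul, op_smul_eq_mul, mul_comm (TrivSqZeroExt.snd x)]

theorem DN.snd_mul (x y : DN) : DN.snd (x * y) = DN.fst x * DN.snd y + DN.fst y * DN.snd x :=
  dual_snd_mul x y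

theorem DN.ext {x y : DN} (h1 : DN.fst x = DN.fst y) (h2 : DN.snd x = DN.snd y) : x = y :=
  TrivSqZeroExt.ext h1 h2

/-- the inclusion in the dual numbers -/
noncomputable def DN.inl : ℂ →+* DN := TrivSqZeroExt.inlHom ℂ ℂ

theorem DN.fst_inl (z : ℂ) : DN.fst (DN.inl z) = z := rfl

theorem DN.snd_inl (z : ℂ) : DN.snd (DN.inl z) = 0 := rfl

/-- the dual number `x + ε` -/
noncomputable def DN.pt (x : ℂ) : DN := (TrivSqZeroExt.inl x + TrivSqZeroExt.inr 1 : DualNumber ℂ)

theorem DN.fst_pt (x : ℂ) : DN.fst (DN.pt x) = x := by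
  change x + 0 = x
  rw [add_zero]

theorem DN.snd_pt (x : ℂ) : DN.snd (DN.pt x) = 1 := by
  change (0 : ℂ) + 1 = 1
  rw [zero_add]

theorem transcendental_of_notMem {x : ℂ} (hx : x ∉ Qbar) : Transcendental Qbar x := by
  intro h
  have : Algebra.IsAlgebraic ℚ Qbar := inferInstance
  exact hx (mem_algebraicClosure_iff.2 (IsAlgebraic.restrictScalars ℚ h))

open scoped IntermediateField.algebraAdjoinAdjoin in
theorem formallySmooth_adjoin {v : Unit → ℂ} :
    Algebra.FormallySmooth (Algebra.adjoin Qbar (Set.range v)) ℂ := by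
  have h1 : Algebra.FormallySmooth (Algebra.adjoin Qbar (Set.range v))
      (IntermediateField.adjoin Qbar (Set.range v)) :=
    .of_isLocalization (nonZeroDivisors _)
  have h2 : Algebra.FormallySmooth (IntermediateField.adjoin Qbar (Set.range v)) ℂ := by
    obtain ⟨J, w, hw⟩ := exists_isTranscendenceBasis'
      (IntermediateField.adjoin Qbar (Set.range v)) ℂ
    have := hw.isAlgebraic_field
    exact .of_algebraicIndependent_of_isSeparable hw.1
  exact .comp _ (IntermediateField.adjoin Qbar (Set.range v)) _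

/-- A number which is not algebraic is not killed by some derivation. -/
theorem exists_derivation {x : ℂ} (hx : x ∉ Qbar) : ∃ D : Derivation Qbar ℂ ℂ, D x ≠ 0 := by
  let v : Unit → ℂ := fun _ => x
  have hv : AlgebraicIndependent Qbar v :=
    algebraicIndependent_unique_type_iff.2 (transcendental_of_notMem hx)
  have hsm := formallySmooth_adjoin (v := v)
  let A := Algebra.adjoin Qbar (Set.range v)
  let e : MvPolynomial Unit Qbar ≃ₐ[Qbar] A := hv.aevalEquiv
  let φ₀ : MvPolynomial Unit Qbar →+* DN :=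
    MvPolynomial.eval₂Hom (DN.inl.comp (algebraMap Qbar ℂ)) fun _ => DN.pt x
  let φ : A →+* DN := φ₀.comp e.symm.toRingEquiv.toRingHom
  let _ : Algebra A DN := φ.toAlgebra
  have hφC : ∀ a, φ₀ (MvPolynomial.C a) = DN.inl (a : ℂ) := fun a =>
    MvPolynomial.eval₂Hom_C _ _ _
  have hφX : ∀ i, φ₀ (MvPolynomial.X i) = DN.pt x := fun i =>
    MvPolynomial.eval₂Hom_X' _ _ _
  have heC : ∀ a : Qbar, ((e (MvPolynomial.C a) : A) : ℂ) = (a : ℂ) := by
    intro a
    have : e (MvPolynomial.C a) = algebraMap Qbar A a := e.commutes a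
    rw [this]
    rfl
  have heX : ∀ i, ((e (MvPolynomial.X i) : A) : ℂ) = x := by
    intro i
    change ((hv.aevalEquiv (MvPolynomial.X i) : A) : ℂ) = x
    simp [v]
  have hfst : ∀ p, DN.fst (φ₀ p) = ((e p : A) : ℂ) := by
    intro p
    have : DN.fst.comp φ₀ = (A.val.toRingHom).comp e.toRingEquiv.toRingHom := by
      apply MvPolynomial.ringHom_ext
      · intro a
        change DN.fst (φ₀ (MvPolynomial.C a)) = ((e (MvPolynomial.C a) : A) : ℂ)
        rw [hφC, DN.fst_inl, heC]
      · intro i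
        change DN.fst (φ₀ (MvPolynomial.X i)) = ((e (MvPolynomial.X i) : A) : ℂ)
        rw [hφX, DN.fst_pt, heX]
    exact RingHom.congr_fun this p
  let g : DN →ₐ[A] ℂ := { DN.fst with
    commutes' := by
      intro a
      change DN.fst (φ₀ (e.symm a)) = _
      rw [hfst, e.apply_symm_apply]
      rfl }
  have hg : Function.Surjective g := by
    intro z
    exact ⟨DN.inl z, rfl⟩
  have hker : IsNilpotent (RingHom.ker (g : DN →+* ℂ)) := by
    refine ⟨2, ?_⟩
    rw [pow_two, Ideal.zero_eq_bot, eq_bot_iff, Ideal.mul_le]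
    intro a ha b hb
    have ha' : DN.fst a = 0 := ha
    have hb' : DN.fst b = 0 := hb
    rw [Ideal.mem_bot]
    refine DN.ext ?_ ?_
    · rw [map_mul, ha', zero_mul, map_zero]
    · rw [DN.snd_mul, ha', hb', zero_mul, zero_mul, add_zero, map_zero]
  let ψ : ℂ →ₐ[A] DN := Algebra.FormallySmooth.liftOfSurjective (AlgHom.id A ℂ) g hg hker
  have hψ : ∀ z, DN.fst (ψ z) = z := fun z =>
    Algebra.FormallySmooth.liftOfSurjective_apply (AlgHom.id A ℂ) g hg hker z
  have hψQ : ∀ p, ψ ((e p : A) : ℂ) = φ₀ p := by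
    intro p
    have h1 : ψ (algebraMap A ℂ (e p)) = algebraMap A DN (e p) := ψ.commutes (e p)
    have h2 : algebraMap A DN (e p) = φ₀ (e.symm (e p)) := rfl
    rw [e.symm_apply_apply] at h2
    rw [← h2, ← h1]
    rfl
  have hQ2 : ∀ a : Qbar, DN.snd (ψ (a : ℂ)) = 0 := by
    intro a
    rw [← heC a, hψQ, hφC, DN.snd_inl]
  have hleib : ∀ z w, DN.snd (ψ (z * w)) = z * DN.snd (ψ w) + w * DN.snd (ψ z) := by
    intro z w
    rw [map_mul, DN.snd_mul, hψ, hψ]
  let L : ℂ →ₗ[Qbar] ℂ :=
    { toFun := fun z => DN.snd (ψ z)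
      map_add' := fun z w => by rw [map_add, map_add]
      map_smul' := fun a z => by
        rw [Algebra.smul_def, RingHom.id_apply, Algebra.smul_def]
        change DN.snd (ψ ((a : ℂ) * z)) = (a : ℂ) * _
        rw [hleib, hQ2, mul_zero, add_zero] }
  refine ⟨Derivation.mk' L fun z w => hleib z w, ?_⟩
  change DN.snd (ψ x) ≠ 0
  have h3 := hψQ (MvPolynomial.X ())
  rw [heX] at h3
  rw [h3, hφX, DN.snd_pt]
  exact one_ne_zero

open Matrix MvPolynomial Pool.Agent.Lib.MPf11a48.Tors

variable {n : Type} [Fintype n] [DecidableEq n]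

/-- chain rule for derivations of `ℂ` -/
theorem deriv_aeval (D : Derivation Qbar ℂ ℂ) (q : MvPolynomial (n × n) Qbar) (M : Matrix n n ℂ) :
    D (aeval (en M) q) = tang (map (algebraMap Qbar ℂ) q) M (M.map D) := by
  induction q using MvPolynomial.induction_on with
  | C a =>
    rw [map_C, tang_C, algHom_C, D.map_algebraMap]
  | add p q hp hq => rw [map_add, map_add, map_add, hp, hq, tang_add]
  | mul_X p v hp =>
    rw [map_mul (aeval (en M)), D.leibniz, map_mul (map (algebraMap Qbar ℂ)), tang_mul, hp, aeval_X,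
      map_X, tang_X, eval_X, eval_map_Qbar]
    simp only [smul_eq_mul, Matrix.map_apply, en]
    ring

/-- the logarithmic derivative of a point lies in the Lie algebra -/
theorem Geo.deriv_mem {T : Set (GL n ℂ)} (h : Geo T) {c : GL n ℂ} (hc : c ∈ T)
    (D : Derivation Qbar ℂ ℂ) : c.1.map D * c⁻¹.1 ∈ lie T := by
  rw [h.mem_lie_iff hc]
  intro p hp
  rw [Matrix.mul_assoc, glinv', mul_one]
  obtain ⟨m, β, l, hexp⟩ := exists_lp p
  rw [hexp, tang_sum]
  refine Finset.sum_eq_zero fun i _ => ?_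
  rw [tang_mul, tang_C, zero_mul, zero_add, ← deriv_aeval, ← eval_map_Qbar]
  have h1 := h.lp_mem (l i) hp c hc
  rw [h1, D.map_zero, mul_zero]

end Pool.Agent.Lib.MPf11a48.GL2
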