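import Pool.Agent.Lib.MP_f11a48_ag.helper4.Defs

/-!
# Objects of `GL_2`-type in coordinates

An object over `Qbar` (with both spaces over `Qbar`) with a basis indexed by `ι` is given by its
period matrix `c ∈ GL_ι(ℂ)`; another choice of bases replaces `c` by `g c g'` with
`g, g' ∈ GL_ι(Qbar)`.
-/

set_option autoImplicit false

namespace Pool.Agent.Lib.MPf11a48.GL2T

open Matrix MvPolynomial Pool.Agent.Lib.MPf11a48.CM

/-- The entries of the matrix are algebraic numbers. -/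
def IsAlg {μ ν : Type} (A : Matrix μ ν ℂ) : Prop := ∀ i j, A i j ∈ Qbar

/-- The object of rank two over `Qbar` with period matrix `c` has no sub-object of rank one: `c`
does not map an algebraic vector to a multiple of an algebraic vector. -/
def Irr (c : GL (Fin 2) ℂ) : Prop :=
  ∀ v v' : Fin 2 → ℂ, (∀ i, v i ∈ Qbar) → (∀ i, v' i ∈ Qbar) → v ≠ 0 → v' ≠ 0 →
    ∀ t : ℂ, c.1 *ᵥ v' ≠ t • v

/-- The objects of rank two over `Qbar` with period matrices `c` and `d` are not isomorphic, even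
after tensoring one of them with an object of rank one (with period `t`). -/
def NonTw (c d : GL (Fin 2) ℂ) : Prop :=
  ∀ g g' : GL (Fin 2) ℂ, IsAlg g.1 → IsAlg g'.1 → ∀ t : ℂ, c.1 * g'.1 ≠ t • (g.1 * d.1)

/-- The complex points of `GL_2^κ × G_m^J`; such a point is also the tuple of the period matrices
of a family of objects of rank two (indexed by `κ`) and of rank one (indexed by `J`). -/
abbrev Pt (κ J : Type) : Type := (κ → GL (Fin 2) ℂ) × (J → ℂˣ)

/-- Indices for the coordinates on `GL_2^κ × G_m^J`. -/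
abbrev Var (κ J : Type) : Type := (κ × Fin 2 × Fin 2) ⊕ κ ⊕ J ⊕ J

/-- The coordinates of a point: the entries and the inverse of the determinant of each matrix
`x_k`, and `y_j`, `1 / y_j`. -/
noncomputable def coord {κ J : Type} (x : Pt κ J) : Var κ J → ℂ :=
  Sum.elim (fun e => (x.1 e.1).1 e.2.1 e.2.2)
    (Sum.elim (fun k => ((x.1 k).1.det)⁻¹) (Sum.elim (fun j => (x.2 j : ℂ)) fun j => (x.2 j : ℂ)⁻¹))

/-- Regular functions over `Qbar` on `GL_2^κ × G_m^J`. -/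
def Regular {κ J : Type} (F : Pt κ J → ℂ) : Prop :=
  ∃ p : MvPolynomial (Var κ J) ℂ, (∀ m, p.coeff m ∈ Qbar) ∧ ∀ x, F x = eval (coord x) p

/-- The determinants of the `x_k`, and the `y_j`. -/
noncomputable def dets {κ J : Type} (x : Pt κ J) : κ ⊕ J → ℂ :=
  Sum.elim (fun k => (x.1 k).1.det) fun j => (x.2 j : ℂ)

/-- `x` satisfies all multiplicative relations with values in `Qbar` which hold between the
determinants (and the periods of rank one) of `c`. -/
def SameRel {κ J : Type} [Fintype κ] [Fintype J] (c x : Pt κ J) : Prop :=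
  ∀ χ : κ ⊕ J → ℤ, (∏ i, dets c i ^ χ i) ∈ Qbar → ∏ i, dets x i ^ χ i = ∏ i, dets c i ^ χ i

variable {K : IntermediateField ℚ ℂ} {κ J ι : Type}

/-- The class in `V ⊗ V^∨` of an endomorphism (with matrices `AdR`, `AB`). -/
def endPair (AdR : Matrix ι ι K) (AB : Matrix ι ι ℚ) : TPair K ι where
  n := 1
  m := 1
  dR J := AdR (J.1 0) (J.2 0)
  B J := AB (J.1 0) (J.2 0)

variable [Fintype ι] [DecidableEq ι]

/-- The class `ψ⁻¹ ⊗ ψ` in `V^{⊗ 2} ⊗ (V^∨)^{⊗ 2}` of a bilinear form with values in an object of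
rank one (with Gram matrices `ψdR`, `ψB`). -/
noncomputable def polPair (ψdR : Matrix ι ι K) (ψB : Matrix ι ι ℚ) : TPair K ι where
  n := 2
  m := 2
  dR J := ψdR⁻¹ (J.1 0) (J.1 1) * ψdR (J.2 0) (J.2 1)
  B J := ψB⁻¹ (J.1 0) (J.1 1) * ψB (J.2 0) (J.2 1)

/-- Regular functions over `Qbar` on `GL_ι`. -/
def RegularGL (F : GL ι ℂ → ℂ) : Prop :=
  ∃ p : MvPolynomial (ι × ι ⊕ ι × ι) ℂ, (∀ m, p.coeff m ∈ Qbar) ∧
    ∀ g, F g = eval (Sum.elim (fun e => g.1 e.1 e.2) fun e => g⁻¹.1 e.1 e.2) p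

/-- `Φ : GL_2^κ × G_m^J → GL_ι` is a morphism of torsors over `Qbar`. -/
structure IsMor (Φ : Pt κ J → GL ι ℂ) : Prop where
  regular : ∀ i j, Regular fun x => (Φ x).1 i j
  heap : ∀ x y z, Φ (x * y⁻¹ * z) = Φ x * (Φ y)⁻¹ * Φ z

/-- `Φ : GL_2^κ × G_m^J → GL_ι` is a closed immersion: the coordinates of `x` are regular functions
of `Φ x`. -/
def IsImm (Φ : Pt κ J → GL ι ℂ) : Prop :=
  ∀ e : Var κ J, ∃ F : GL ι ℂ → ℂ, RegularGL F ∧ ∀ x, coord x e = F (Φ x)

/-- `f'` is the conjugate of `f` by an automorphism of `ℂ` over `K`. -/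
def Conj (K : IntermediateField ℚ ℂ) (f f' : GL ι ℂ) : Prop :=
  ∃ τ : ℂ ≃+* ℂ, (∀ a ∈ K, τ a = a) ∧ ∀ i j, f'.1 i j = τ (f.1 i j)

/-- Over `Qbar`, the object with period matrix `c` is a direct sum of objects `d b` of rank two
without sub-object of rank one, with determinant the object of rank one with period
`(2 π i)^w`. -/
def SumOfRankTwo (w : ℤ) (c : GL ι ℂ) : Prop :=
  ∃ (n : ℕ) (e : Fin 2 × Fin n ≃ ι) (d : Fin n → GL (Fin 2) ℂ) (P Q : GL ι ℂ),
    IsAlg P.1 ∧ IsAlg Q.1 ∧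
    (∀ u v, (P.1 * c.1 * Q.1) (e u) (e v) = if u.2 = v.2 then (d u.2).1 u.1 v.1 else 0) ∧
    ∀ b, Irr (d b) ∧ ∃ α ∈ Qbar, (d b).1.det = (2 * Real.pi * Complex.I) ^ w * α

/-- `f` is compatible with all endomorphisms over `Qbar` of the object with period matrix `c`. -/
def EndCompat (c f : GL ι ℂ) : Prop :=
  ∀ A A' : Matrix ι ι ℂ, IsAlg A → IsAlg A' → c.1 * A' = A * c.1 → f.1 * A' = A * f.1

/-- `f` multiplies the bilinear form with Gram matrices `ψdR`, `ψB` by `μ`. -/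
def Mult (f : GL ι ℂ) (ψdR : Matrix ι ι K) (ψB : Matrix ι ι ℚ) (μ : ℂ) : Prop :=
  f.1ᵀ * ψB.map (fun a => (a : ℂ)) * f.1 = μ • ψdR.map (fun a => (a : ℂ))

/-- `M = (K^ι, ℚ^ι, c)` has a non-degenerate bilinear form with values in the object of rank one
with period `(2 π i)^w`. -/
def Polarised (w : ℤ) (c : GL ι ℂ) (ψdR : Matrix ι ι K) (ψB : Matrix ι ι ℚ) : Prop :=
  ψB.det ≠ 0 ∧ Mult c ψdR ψB ((2 * Real.pi * Complex.I) ^ w)

/-- The similitudes which are compatible with all endomorphisms over `Qbar`. -/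
def OmegaLef (c : GL ι ℂ) (ψdR : Matrix ι ι K) (ψB : Matrix ι ι ℚ) : Set (GL ι ℂ) :=
  {f | EndCompat c f ∧ ∃ μ, Mult f ψdR ψB μ}

/-- The endomorphisms over `Qbar` are linear combinations of endomorphisms with class in `S`. -/
def Spanned (c : GL ι ℂ) (S : Set (TPair K ι)) : Prop :=
  ∀ A A' : Matrix ι ι ℂ, IsAlg A → IsAlg A' → c.1 * A' = A * c.1 →
    ∃ (n : ℕ) (a : Fin n → ℂ) (AdR : Fin n → Matrix ι ι K) (AB : Fin n → Matrix ι ι ℚ),
      (∀ r, endPair (AdR r) (AB r) ∈ S) ∧ A = ∑ r, a r • (AB r).map (fun a => (a : ℂ)) ∧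
        A' = ∑ r, a r • (AdR r).map (fun a => (a : ℂ))

end Pool.Agent.Lib.MPf11a48.GL2T
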