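import Pool.Agent.Lib.MP_f11a48_ag.helper92.Final
import Pool.Agent.Lib.MP_f11a48_ag.helper92.Stmt

/-! # Translation of the statement, and closed immersions -/

set_option autoImplicit false
set_option linter.unusedSectionVars false

namespace Pool.Agent.Lib.MPf11a48.GL2T

open Matrix MvPolynomial Pool.Agent.Lib.MPf11a48.Tors
open Pool.Agent.Lib.MPf11a48.CM hiding OmegaM

/-! ## Polynomials -/

theorem polyQ {σ : Type} {p : MvPolynomial σ ℂ} (h : ∀ m, p.coeff m ∈ Qbar) :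
    ∃ q : MvPolynomial σ Qbar, ∀ z : σ → ℂ, aeval z q = eval z p := by
  refine ⟨∑ m ∈ p.support, monomial m ⟨p.coeff m, h m⟩, fun z => ?_⟩
  rw [map_sum, eval_eq]
  refine Finset.sum_congr rfl fun m _ => ?_
  rw [aeval_monomial]
  rfl

variable {κ J ι : Type} [Fintype κ] [DecidableEq κ] [Fintype J] [DecidableEq J] [Fintype ι]
  [DecidableEq ι]

theorem polyFn_coord (e : Var κ J) : GL2.PolyFn (fun x : Pt κ J => coord x e) := by
  rcases e with ⟨k, a, b⟩ | k | j | j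
  · exact GL2.PolyFn.entry k a b
  · refine ⟨X (Sum.inr (Sum.inl (0, k), Sum.inl (0, k))) * X (Sum.inr (Sum.inl (1, k), Sum.inl (1, k))) -
      X (Sum.inr (Sum.inl (0, k), Sum.inl (1, k))) *
        X (Sum.inr (Sum.inl (1, k), Sum.inl (0, k))), fun x => ?_⟩
    rw [map_sub, map_mul, map_mul, aeval_X, aeval_X, aeval_X, aeval_X]
    simp only [Sum.elim_inr]
    have e1 : ∀ a b, ent (GL2.blkGL x)⁻¹ (Sum.inl (a, k), Sum.inl (b, k)) = (x.1 k)⁻¹.1 a b :=
      fun a b => GL2.blk_ll _ _ a b k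
    rw [e1, e1, e1, e1, ← det_fin_two]
    change ((x.1 k).1.det)⁻¹ = _
    have h := congrArg Matrix.det (GL2.gl_mul_inv (x.1 k))
    rw [det_mul, det_one] at h
    exact (eq_inv_of_mul_eq_one_right h).symm
  · refine ⟨X (Sum.inl (Sum.inr j, Sum.inr j)), fun x => ?_⟩
    rw [aeval_X, Sum.elim_inl]
    have e1 : ent (GL2.blkGL x) (Sum.inr j, Sum.inr j) = (x.2 j : ℂ) :=
      GL2.blk_rr (fun k => (x.1 k).1) (fun j => (x.2 j : ℂ)) j
    rw [e1]
    rfl
  · refine ⟨X (Sum.inr (Sum.inr j, Sum.inr j)), fun x => ?_⟩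
    rw [aeval_X, Sum.elim_inr]
    have e1 : ent (GL2.blkGL x)⁻¹ (Sum.inr j, Sum.inr j) = (((x.2 j)⁻¹ : ℂˣ) : ℂ) :=
      GL2.blk_rr (fun k => (x.1 k)⁻¹.1) (fun j => (((x.2 j)⁻¹ : ℂˣ) : ℂ)) j
    rw [e1, Units.val_inv_eq_inv_val]
    rfl

theorem polyFn_of_regular {F : Pt κ J → ℂ} (h : Regular F) : GL2.PolyFn F := by
  obtain ⟨p, hp, hF⟩ := h
  obtain ⟨q, hq⟩ := polyQ hp
  choose r hr using fun e : Var κ J => polyFn_coord e
  refine ⟨aeval r q, fun x => ?_⟩
  rw [hF, ← hq, comp_aeval_apply]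
  congr 2
  funext e
  exact hr e x

theorem isMor_of {Φ : Pt κ J → GL ι ℂ} (h : IsMor Φ) : GL2.IsMor Φ where
  poly := by
    choose F hF using fun i j => polyFn_of_regular (h.regular i j)
    exact ⟨F, fun x i j => hF i j x⟩
  heap := h.heap

theorem dets_eq (x : Pt κ J) (i : κ ⊕ J) : dets x i = (GL2.dets x i : ℂ) := by
  rcases i with k | j <;> rfl

theorem sameRel_iff {c x : Pt κ J} : SameRel c x ↔ GL2.SameRel c x := by
  simp only [SameRel, GL2.SameRel, dets_eq]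

theorem irr_of {c : GL (Fin 2) ℂ} (h : Irr c) : GL2.Irr c.1 := by
  intro v v' hv hv' t
  refine h (fun i => (v i : ℂ)) (fun i => (v' i : ℂ)) (fun i => (v i).2) (fun i => (v' i).2) ?_ ?_ t
  · intro h0
    exact hv (funext fun i => Subtype.ext (congrFun h0 i))
  · intro h0
    exact hv' (funext fun i => Subtype.ext (congrFun h0 i))

theorem nonTw_of {c d : GL (Fin 2) ℂ} (h : NonTw c d) : GL2.NonTw c.1 d.1 := by
  intro g g' hg hg' t
  exact h (GL2.gC g hg) (GL2.gC g' hg') (fun i j => (g i j).2) (fun i j => (g' i j).2) t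

theorem conj_iff {K : IntermediateField ℚ ℂ} {f f' : GL ι ℂ} :
    Conj K f f' ↔ ∃ τ : ℂ ≃+* ℂ, FixesField K τ ∧ f' = tw τ f := by
  refine exists_congr fun τ => and_congr Iff.rfl ⟨fun h => ?_, fun h => ?_⟩
  · apply Units.ext
    exact Matrix.ext h
  · rw [h]
    exact fun i j => rfl

/-! ## Closed immersions -/

/-- zero sets of polynomials in the entries of `g` and of `g⁻¹` are closed -/
theorem closedOver_inv (S : Set (MvPolynomial ((ι × ι) ⊕ (ι × ι)) Qbar)) :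
    ClosedOver Qbar {g : GL ι ℂ | ∀ p ∈ S, aeval (Sum.elim (ent g) (ent g⁻¹)) p = 0} := by
  choose M q hq using fun p : MvPolynomial ((ι × ι) ⊕ (ι × ι)) Qbar => clear_inverse (ι := ι) p
  refine ⟨{r | ∃ p ∈ S, r = q p}, ?_⟩
  ext g
  have hdet : g.1.det ≠ 0 := by
    intro h0
    have h2 : g.1 * g⁻¹.1 = 1 := g.mul_inv
    have h3 := congrArg Matrix.det h2
    rw [det_mul, h0, zero_mul, det_one] at h3
    exact zero_ne_one h3
  constructor
  · rintro h _ ⟨p, hp, rfl⟩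
    have h1 := hq p g
    rw [h p hp, mul_zero] at h1
    exact h1
  · intro h p hp
    have h1 : aeval (ent g) (q p) = 0 := h _ ⟨p, hp, rfl⟩
    rw [hq] at h1
    exact (mul_eq_zero.1 h1).resolve_left (pow_ne_zero _ hdet)

/-- the equations of `GL_2^κ × G_m^J` in its coordinates -/
theorem exists_pt {z : Var κ J → ℂ}
    (h1 : ∀ k, z (Sum.inr (Sum.inl k)) * (z (Sum.inl (k, 0, 0)) * z (Sum.inl (k, 1, 1)) -
      z (Sum.inl (k, 0, 1)) * z (Sum.inl (k, 1, 0))) = 1)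
    (h2 : ∀ j, z (Sum.inr (Sum.inr (Sum.inl j))) * z (Sum.inr (Sum.inr (Sum.inr j))) = 1) :
    ∃ x : Pt κ J, coord x = z := by
  have hd : ∀ k, (Matrix.of fun a b => z (Sum.inl (k, a, b)) : GL2.M2 ℂ).det =
      z (Sum.inl (k, 0, 0)) * z (Sum.inl (k, 1, 1)) -
        z (Sum.inl (k, 0, 1)) * z (Sum.inl (k, 1, 0)) := by
    intro k
    rw [det_fin_two]
    rfl
  refine ⟨(fun k => Matrix.GeneralLinearGroup.mkOfDetNeZero
    (Matrix.of fun a b => z (Sum.inl (k, a, b))) ?_, fun j => ⟨_, _, h2 j, ?_⟩), ?_⟩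
  · rw [hd]
    exact right_ne_zero_of_mul_eq_one (h1 k)
  · rw [mul_comm]
    exact h2 j
  funext e
  rcases e with ⟨k, a, b⟩ | k | j | j
  · rfl
  · change ((Matrix.of fun a b => z (Sum.inl (k, a, b)) : GL2.M2 ℂ).det)⁻¹ = _
    rw [hd]
    exact (eq_inv_of_mul_eq_one_left (h1 k)).symm
  · rfl
  · exact (eq_inv_of_mul_eq_one_right (h2 j)).symm

/-- the determinants in terms of the coordinates -/
noncomputable def detVar (i : κ ⊕ J) : MvPolynomial (Var κ J) Qbar :=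
  Sum.elim (fun k => X (Sum.inl (k, 0, 0)) * X (Sum.inl (k, 1, 1)) -
    X (Sum.inl (k, 0, 1)) * X (Sum.inl (k, 1, 0))) (fun j => X (Sum.inr (Sum.inr (Sum.inl j)))) i

theorem aeval_detVar (x : Pt κ J) (i : κ ⊕ J) : aeval (coord x) (detVar i) = dets x i := by
  rcases i with k | j
  · change aeval (coord x) (X _ * X _ - X _ * X _) = (x.1 k).1.det
    rw [map_sub, map_mul, map_mul, aeval_X, aeval_X, aeval_X, aeval_X, det_fin_two]
    rfl
  · change aeval (coord x) (X _) = _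
    rw [aeval_X]
    rfl

/-- the equations of the set of all `x` with `SameRel c x` -/
theorem exists_relVar (c : Pt κ J) : ∃ R : Set (MvPolynomial (Var κ J) Qbar), ∀ x : Pt κ J,
    SameRel c x ↔ ∀ p ∈ R, aeval (coord x) p = 0 := by
  refine ⟨{p | ∃ (χ : κ ⊕ J → ℤ) (α : Qbar), (∏ i, dets c i ^ χ i) = (α : ℂ) ∧
    p = ∏ i, detVar i ^ (χ i).toNat - C α * ∏ i, detVar i ^ (-χ i).toNat}, fun x => ?_⟩
  have hne : ∀ i, dets x i ≠ 0 := by
    intro i
    rw [dets_eq]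
    exact (GL2.dets x i).ne_zero
  have key : ∀ (χ : κ ⊕ J → ℤ) (α : Qbar),
      aeval (coord x) (∏ i, detVar i ^ (χ i).toNat - C α * ∏ i, detVar i ^ (-χ i).toNat) = 0 ↔
      ∏ i, dets x i ^ χ i = (α : ℂ) := by
    intro χ α
    have h1 : (∏ i, dets x i ^ χ i) = (∏ i, dets x i ^ (χ i).toNat) *
        (∏ i, dets x i ^ (-χ i).toNat)⁻¹ := by
      rw [← Finset.prod_inv_distrib, ← Finset.prod_mul_distrib]
      refine Finset.prod_congr rfl fun i _ => ?_
      rw [← inv_pow, dets_eq]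
      exact (GL2.TorSit.zpow_toNat' _ _).symm
    have h2 : (∏ i, dets x i ^ (-χ i).toNat) ≠ 0 :=
      Finset.prod_ne_zero_iff.2 fun i _ => pow_ne_zero _ (hne i)
    rw [map_sub, map_mul, map_prod, map_prod, algHom_C]
    simp only [map_pow, aeval_detVar]
    change _ - (α : ℂ) * _ = 0 ↔ _
    rw [h1, sub_eq_zero, ← div_eq_mul_inv, div_eq_iff h2]
  constructor
  · rintro h _ ⟨χ, α, hα, rfl⟩
    rw [key, ← hα]
    exact h χ (by rw [hα]; exact α.2)
  · intro h χ hχ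
    exact (key χ ⟨_, hχ⟩).1 (h _ ⟨χ, ⟨_, hχ⟩, rfl, rfl⟩)

theorem isTorsor_image {Φ : Pt κ J → GL ι ℂ} (hΦ : IsMor Φ) (hI : IsImm Φ) (c : Pt κ J) :
    IsTorsor Qbar {f | ∃ x, SameRel c x ∧ f = Φ x} where
  closed := by
    -- the coordinates as polynomials in the entries
    have hI' : ∀ e : Var κ J, ∃ q : MvPolynomial ((ι × ι) ⊕ (ι × ι)) Qbar, ∀ x : Pt κ J,
        coord x e = aeval (Sum.elim (ent (Φ x)) (ent (Φ x)⁻¹)) q := by
      intro e
      obtain ⟨F, ⟨p, hp, hF⟩, hFx⟩ := hI e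
      obtain ⟨q, hq⟩ := polyQ hp
      refine ⟨q, fun x => ?_⟩
      rw [hFx, hF, ← hq]
      rfl
    choose q hq using hI'
    have hΦ' : ∀ i j, ∃ p : MvPolynomial (Var κ J) Qbar, ∀ x : Pt κ J,
        (Φ x).1 i j = aeval (coord x) p := by
      intro i j
      obtain ⟨p, hp, hF⟩ := hΦ.regular i j
      obtain ⟨r, hr⟩ := polyQ hp
      exact ⟨r, fun x => by rw [hr, ← hF]⟩
    choose P hP using hΦ'
    obtain ⟨R, hR⟩ := exists_relVar c
    let S : Set (MvPolynomial ((ι × ι) ⊕ (ι × ι)) Qbar) :=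
      {p | (∃ k, p = aeval q (X (Sum.inr (Sum.inl k)) * (X (Sum.inl (k, 0, 0)) *
        X (Sum.inl (k, 1, 1)) - X (Sum.inl (k, 0, 1)) * X (Sum.inl (k, 1, 0))) - 1 :
          MvPolynomial (Var κ J) Qbar)) ∨
        (∃ j, p = aeval q (X (Sum.inr (Sum.inr (Sum.inl j))) *
          X (Sum.inr (Sum.inr (Sum.inr j))) - 1 : MvPolynomial (Var κ J) Qbar)) ∨
        (∃ i j, p = X (Sum.inl (i, j)) - aeval q (P i j)) ∨ ∃ r ∈ R, p = aeval q r}
    have hS : {f | ∃ x, SameRel c x ∧ f = Φ x} =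
        {g : GL ι ℂ | ∀ p ∈ S, aeval (Sum.elim (ent g) (ent g⁻¹)) p = 0} := by
      ext g
      constructor
      · rintro ⟨x, hx, rfl⟩
        have hz : (fun e => aeval (Sum.elim (ent (Φ x)) (ent (Φ x)⁻¹)) (q e)) = coord x :=
          funext fun e => (hq e x).symm
        rintro p (⟨k, rfl⟩ | ⟨j, rfl⟩ | ⟨i, j, rfl⟩ | ⟨r, hr, rfl⟩)
        · rw [comp_aeval_apply, hz]
          rw [map_sub, map_one, map_mul, map_sub, map_mul, map_mul, aeval_X, aeval_X, aeval_X,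
            aeval_X, aeval_X, sub_eq_zero]
          change ((x.1 k).1.det)⁻¹ * ((x.1 k).1 0 0 * (x.1 k).1 1 1 -
            (x.1 k).1 0 1 * (x.1 k).1 1 0) = 1
          rw [← det_fin_two, inv_mul_cancel₀ (GL2.gl_det_ne (x.1 k))]
        · rw [comp_aeval_apply, hz]
          rw [map_sub, map_one, map_mul, aeval_X, aeval_X, sub_eq_zero]
          exact mul_inv_cancel₀ (x.2 j).ne_zero
        · rw [map_sub, aeval_X, Sum.elim_inl, comp_aeval_apply, hz, ← hP, sub_eq_zero]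
          rfl
        · rw [comp_aeval_apply, hz]
          exact (hR x).1 hx r hr
      · intro h
        set z : Var κ J → ℂ := fun e => aeval (Sum.elim (ent g) (ent g⁻¹)) (q e) with hz
        obtain ⟨x, hx⟩ := exists_pt (z := z) (fun k => by
          have h1 := h _ (Or.inl ⟨k, rfl⟩)
          rw [comp_aeval_apply] at h1
          rw [map_sub, map_one, map_mul, map_sub, map_mul, map_mul, aeval_X, aeval_X, aeval_X,
            aeval_X, aeval_X, sub_eq_zero] at h1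
          exact h1) (fun j => by
          have h1 := h _ (Or.inr (Or.inl ⟨j, rfl⟩))
          rw [comp_aeval_apply] at h1
          rw [map_sub, map_one, map_mul, aeval_X, aeval_X, sub_eq_zero] at h1
          exact h1)
        refine ⟨x, (hR x).2 fun r hr => ?_, ?_⟩
        · have h1 := h _ (Or.inr (Or.inr (Or.inr ⟨r, hr, rfl⟩)))
          rw [comp_aeval_apply] at h1
          rw [hx]
          exact h1
        · apply Units.ext
          refine Matrix.ext fun i j => ?_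
          have h1 := h _ (Or.inr (Or.inr (Or.inl ⟨i, j, rfl⟩)))
          rw [map_sub, aeval_X, Sum.elim_inl, comp_aeval_apply, sub_eq_zero] at h1
          rw [hP, hx]
          exact h1
    rw [hS]
    exact closedOver_inv S
  nonempty := ⟨Φ c, c, fun _ _ => rfl, rfl⟩
  heap := by
    rintro _ ⟨x, hx, rfl⟩ _ ⟨y, hy, rfl⟩ _ ⟨z, hz, rfl⟩
    exact ⟨x * y⁻¹ * z, sameRel_iff.2 (GL2.sameRel_heap (sameRel_iff.1 hx) (sameRel_iff.1 hy)
      (sameRel_iff.1 hz)), (hΦ.heap x y z).symm⟩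

end Pool.Agent.Lib.MPf11a48.GL2T
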