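import Pool.Agent.Lib.MP_f11a48_ag.helper92.Geo

/-! # The Lie algebra of a torsor over `Qbar` -/

set_option autoImplicit false
set_option linter.unusedSectionVars false

namespace Pool.Agent.Lib.MPf11a48.GL2

open Matrix MvPolynomial Pool.Agent.Lib.MPf11a48.CM Pool.Agent.Lib.MPf11a48.Tors

variable {n : Type} [Fintype n] [DecidableEq n] {R : Type} [CommRing R]

/-- derivative of `p` at `x` in the direction `z` -/
noncomputable def tang (p : MvPolynomial (n × n) R) (x z : Matrix n n R) : R :=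
  ∑ v, z v.1 v.2 * eval (en x) (pderiv v p)

theorem tang_add (p q : MvPolynomial (n × n) R) (x z : Matrix n n R) :
    tang (p + q) x z = tang p x z + tang q x z := by
  simp only [tang, map_add, mul_add, Finset.sum_add_distrib]

theorem tang_C (a : R) (x z : Matrix n n R) : tang (C a) x z = 0 := by
  simp [tang]

theorem tang_mul (p q : MvPolynomial (n × n) R) (x z : Matrix n n R) :
    tang (p * q) x z = tang p x z * eval (en x) q + eval (en x) p * tang q x z := by
  simp only [tang, pderiv_mul, map_add, map_mul, mul_add, Finset.sum_add_distrib, Finset.sum_mul,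
    Finset.mul_sum]
  congr 1
  · exact Finset.sum_congr rfl fun v _ => by ring
  · exact Finset.sum_congr rfl fun v _ => by ring

theorem tang_X (v : n × n) (x z : Matrix n n R) : tang (X v) x z = z v.1 v.2 := by
  rw [tang, Finset.sum_eq_single v]
  · simp
  · intro w _ hw
    rw [pderiv_X_of_ne (Ne.symm hw), map_zero, mul_zero]
  · intro h
    exact absurd (Finset.mem_univ v) h

theorem tang_sum {J : Type} (s : Finset J) (p : J → MvPolynomial (n × n) R) (x z : Matrix n n R) :
    tang (∑ j ∈ s, p j) x z = ∑ j ∈ s, tang (p j) x z := by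
  classical
  induction s using Finset.induction_on with
  | empty => simp [tang]
  | insert j s hj ih => rw [Finset.sum_insert hj, Finset.sum_insert hj, tang_add, ih]

theorem tang_add_right (p : MvPolynomial (n × n) R) (x z w : Matrix n n R) :
    tang p x (z + w) = tang p x z + tang p x w := by
  simp only [tang, Matrix.add_apply, add_mul, Finset.sum_add_distrib]

theorem tang_smul_right (p : MvPolynomial (n × n) R) (x z : Matrix n n R) (t : R) :
    tang p x (t • z) = t * tang p x z := by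
  simp only [tang, Matrix.smul_apply, smul_eq_mul, mul_assoc, Finset.mul_sum]

/-- the polynomial `x ↦ p (A x B)` -/
noncomputable def lr (A B : Matrix n n R) :
    MvPolynomial (n × n) R →ₐ[R] MvPolynomial (n × n) R :=
  aeval (fun v => ∑ i, ∑ j, C (A v.1 i * B j v.2) * X (i, j))

theorem eval_lr_var (A B x : Matrix n n R) (v : n × n) :
    ∑ i, ∑ j, (A v.1 i * B j v.2) * x i j = (A * x * B) v.1 v.2 := by
  rw [Matrix.mul_apply]
  simp only [Matrix.mul_apply, Finset.sum_mul]
  rw [Finset.sum_comm]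
  exact Finset.sum_congr rfl fun j _ => Finset.sum_congr rfl fun i _ => by ring

theorem eval_lr (A B x : Matrix n n R) (p : MvPolynomial (n × n) R) :
    eval (en x) (lr A B p) = eval (en (A * x * B)) p := by
  induction p using MvPolynomial.induction_on with
  | C a => rw [lr, algHom_C, algebraMap_eq, eval_C, eval_C]
  | add p q hp hq => rw [map_add, map_add, map_add, hp, hq]
  | mul_X p v hp =>
    rw [map_mul, map_mul, map_mul, hp, lr, aeval_X, eval_X]
    congr 1
    simp only [map_sum, map_mul, eval_C, eval_X]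
    exact eval_lr_var A B x v

theorem tang_lr (A B x z : Matrix n n R) (p : MvPolynomial (n × n) R) :
    tang (lr A B p) x z = tang p (A * x * B) (A * z * B) := by
  induction p using MvPolynomial.induction_on with
  | C a => rw [lr, algHom_C, algebraMap_eq, tang_C, tang_C]
  | add p q hp hq => rw [map_add, tang_add, tang_add, hp, hq]
  | mul_X p v hp =>
    have h1 : lr A B (p * X v) = lr A B p * lr A B (X v) := map_mul _ _ _
    have h2 : tang (lr A B (X v)) x z = (A * z * B) v.1 v.2 := by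
      rw [lr, aeval_X, tang_sum]
      simp only [tang_sum, tang_mul, tang_C, tang_X, zero_mul, zero_add, eval_C]
      exact eval_lr_var A B z v
    rw [h1, tang_mul, tang_mul, hp, eval_lr, eval_lr, h2, tang_X]

/-- the vector field `x ↦ X x` -/
noncomputable def vf (M : Matrix n n R) :
    Derivation R (MvPolynomial (n × n) R) (MvPolynomial (n × n) R) :=
  mkDerivation R fun v => ∑ i, C (M v.1 i) * X (i, v.2)

theorem vf_X (M : Matrix n n R) (v : n × n) : vf M (X v) = ∑ i, C (M v.1 i) * X (i, v.2) :=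
  mkDerivation_X _ _ _

theorem eval_vf_X (M x : Matrix n n R) (v : n × n) : eval (en x) (vf M (X v)) = (M * x) v.1 v.2 := by
  rw [vf_X, Matrix.mul_apply, map_sum]
  refine Finset.sum_congr rfl fun i _ => ?_
  rw [map_mul, eval_C, eval_X]
  rfl

theorem eval_vf (M x : Matrix n n R) (p : MvPolynomial (n × n) R) :
    eval (en x) (vf M p) = tang p x (M * x) := by
  induction p using MvPolynomial.induction_on with
  | C a => rw [derivation_C, map_zero, tang_C]
  | add p q hp hq => rw [map_add, map_add, hp, hq, tang_add]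
  | mul_X p v hp =>
    rw [Derivation.leibniz, map_add, smul_eq_mul, smul_eq_mul, map_mul, map_mul, hp, eval_vf_X,
      tang_mul, tang_X]
    ring

theorem vf_bracket (M N : Matrix n n R) (p : MvPolynomial (n × n) R) :
    vf M (vf N p) - vf N (vf M p) = vf (N * M - M * N) p := by
  have h : ⁅vf M, vf N⁆ = vf (N * M - M * N) := by
    refine derivation_ext fun v => ?_
    have key : ∀ A B : Matrix n n R, vf A (vf B (X v)) = ∑ j, C ((B * A) v.1 j) * X (j, v.2) := by
      intro A B
      have h1 : ∀ (a : R) (w : n × n), vf A (C a * X w) = C a * vf A (X w) := by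
        intro a w
        rw [Derivation.leibniz, derivation_C, smul_zero, add_zero, smul_eq_mul]
      rw [vf_X, map_sum]
      simp only [h1, vf_X, Finset.mul_sum, Matrix.mul_apply, map_sum, Finset.sum_mul, map_mul]
      rw [Finset.sum_comm]
      exact Finset.sum_congr rfl fun j _ => Finset.sum_congr rfl fun i _ => by ring
    rw [Derivation.commutator_apply, key, key, vf_X, ← Finset.sum_sub_distrib]
    refine Finset.sum_congr rfl fun j _ => ?_
    rw [Matrix.sub_apply, map_sub]
    ring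
  rw [← h, Derivation.commutator_apply]

/-! ### the Lie algebra -/

/-- the Lie algebra (of left translations) of a torsor -/
noncomputable def lie (T : Set (GL n ℂ)) : Submodule ℂ (Matrix n n ℂ) where
  carrier := {M | ∀ f ∈ T, ∀ p ∈ van T, tang p f.1 (M * f.1) = 0}
  add_mem' := by
    intro M N hM hN f hf p hp
    rw [add_mul, tang_add_right, hM f hf p hp, hN f hf p hp, add_zero]
  zero_mem' := by
    intro f hf p hp
    simp [tang]
  smul_mem' := by
    intro t M hM f hf p hp
    rw [smul_mul_assoc, tang_smul_right, hM f hf p hp, mul_zero]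

theorem mem_lie {T : Set (GL n ℂ)} {M : Matrix n n ℂ} :
    M ∈ lie T ↔ ∀ f ∈ T, ∀ p ∈ van T, tang p f.1 (M * f.1) = 0 := Iff.rfl

theorem vf_mem {T : Set (GL n ℂ)} {M : Matrix n n ℂ} (h : M ∈ lie T)
    {p : MvPolynomial (n × n) ℂ} (hp : p ∈ van T) : vf M p ∈ van T := by
  intro f hf
  rw [eval_vf]
  exact h f hf p hp

theorem lie_br {T : Set (GL n ℂ)} {M N : Matrix n n ℂ} (hM : M ∈ lie T) (hN : N ∈ lie T) :
    M * N - N * M ∈ lie T := by
  intro f hf p hp
  rw [← eval_vf, ← vf_bracket, map_sub, vf_mem hN (vf_mem hM hp) f hf,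
    vf_mem hM (vf_mem hN hp) f hf, sub_zero]

variable {T : Set (GL n ℂ)}

theorem glmul (a b : GL n ℂ) : (a * b).1 = a.1 * b.1 := rfl
theorem glinv (a : GL n ℂ) : a.1 * a⁻¹.1 = 1 := a.mul_inv
theorem glinv' (a : GL n ℂ) : a⁻¹.1 * a.1 = 1 := a.inv_mul

theorem Geo.mem_lie_of (h : Geo T) {f₀ : GL n ℂ} (hf₀ : f₀ ∈ T) {M : Matrix n n ℂ}
    (hM : ∀ p ∈ van T, tang p f₀.1 (M * f₀.1) = 0) : M ∈ lie T := by
  intro f hf p hp
  have hq : lr 1 (f₀⁻¹ * f).1 p ∈ van T := by
    intro g hg
    rw [eval_lr]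
    have := hp _ (h.heap g hg f₀ hf₀ f hf)
    rw [one_mul, ← glmul, ← mul_assoc]
    exact this
  have h1 := hM _ hq
  rw [tang_lr, one_mul, one_mul, ← glmul, mul_inv_cancel_left, Matrix.mul_assoc M, ← glmul,
    mul_inv_cancel_left] at h1
  exact h1

theorem Geo.right_of (h : Geo T) {f₀ : GL n ℂ} (hf₀ : f₀ ∈ T) {M : Matrix n n ℂ}
    (hM : ∀ p ∈ van T, tang p f₀.1 (f₀.1 * M) = 0) {f : GL n ℂ} (hf : f ∈ T)
    {p : MvPolynomial (n × n) ℂ} (hp : p ∈ van T) : tang p f.1 (f.1 * M) = 0 := by
  have hq : lr (f * f₀⁻¹).1 1 p ∈ van T := by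
    intro g hg
    rw [eval_lr]
    have := hp _ (h.heap f hf f₀ hf₀ g hg)
    rw [mul_one, ← glmul]
    exact this
  have h1 := hM _ hq
  rw [tang_lr, mul_one, mul_one, ← glmul, inv_mul_cancel_right, ← Matrix.mul_assoc, ← glmul,
    inv_mul_cancel_right] at h1
  exact h1

theorem Geo.mem_lie_iff (h : Geo T) {f₀ : GL n ℂ} (hf₀ : f₀ ∈ T) {M : Matrix n n ℂ} :
    M ∈ lie T ↔ ∀ p ∈ van T, tang p f₀.1 (M * f₀.1) = 0 :=
  ⟨fun hM => hM f₀ hf₀, fun hM => h.mem_lie_of hf₀ hM⟩

/-- `c M c⁻¹` lies in the Lie algebra iff `M` is tangent on the right -/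
theorem Geo.conj_mem_iff (h : Geo T) {c f₀ : GL n ℂ} (hc : c ∈ T) (hf₀ : f₀ ∈ T)
    {M : Matrix n n ℂ} :
    c.1 * M * c⁻¹.1 ∈ lie T ↔ ∀ p ∈ van T, tang p f₀.1 (f₀.1 * M) = 0 := by
  have e : c.1 * M * c⁻¹.1 * c.1 = c.1 * M := by
    rw [Matrix.mul_assoc, glinv', mul_one]
  rw [h.mem_lie_iff hc, e]
  exact ⟨fun hM p hp => h.right_of hc hM hf₀ hp, fun hM p hp => h.right_of hf₀ hM hc hp⟩

/-! ### rationality -/

theorem form_tang (l : Form) (p : MvPolynomial (n × n) ℂ) (x z : Matrix n n Qbar) :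
    l (tang p (toC x) (toC z)) = tang (lp l p) x z := by
  rw [tang, tang, map_sum]
  refine Finset.sum_congr rfl fun v _ => ?_
  change l (((z v.1 v.2 : Qbar) : ℂ) * _) = _
  rw [form_mul', pderiv_lp, eval_lp]
  rfl

theorem form_tang' (l : Form) (q : MvPolynomial (n × n) Qbar) (x : Matrix n n Qbar)
    (z : Matrix n n ℂ) :
    l (tang (map (algebraMap Qbar ℂ) q) (toC x) z) = tang q x (app1 l z) := by
  rw [tang, tang, map_sum]
  refine Finset.sum_congr rfl fun v _ => ?_
  have h : eval (en (toC x)) (pderiv v (map (algebraMap Qbar ℂ) q)) =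
      ((eval (en x) (pderiv v q) : Qbar) : ℂ) := by
    rw [pderiv_map, eval_map_Qbar]
    exact aeval_Qbar (en x) (pderiv v q)
  rw [h, form_mul]
  rfl

theorem Geo.tang_rat (h : Geo T) {x : GL n Qbar} {z : Matrix n n ℂ}
    (hz : ∀ p ∈ van T, tang p (toC x.1) z = 0) (l : Form) {p : MvPolynomial (n × n) ℂ}
    (hp : p ∈ van T) : tang p (toC x.1) (toC (app1 l z)) = 0 := by
  by_contra hne
  obtain ⟨l', hl'⟩ := exists_form hne
  apply hl'
  rw [form_tang, ← form_tang', hz _ (h.lp_mem l' hp), LinearMap.map_zero]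

theorem app1_mul (l : Form) (M : Matrix n n ℂ) (x : Matrix n n Qbar) :
    app1 l (M * toC x) = app1 l M * x := by
  refine Matrix.ext fun i j => ?_
  simp only [app1, Matrix.mul_apply, map_sum]
  exact Finset.sum_congr rfl fun k _ => form_mul l _ _

theorem app1_mul' (l : Form) (M : Matrix n n ℂ) (x : Matrix n n Qbar) :
    app1 l (toC x * M) = x * app1 l M := by
  refine Matrix.ext fun i j => ?_
  simp only [app1, Matrix.mul_apply, map_sum]
  exact Finset.sum_congr rfl fun k _ => form_mul' l _ _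

theorem Geo.lie_rat (h : Geo T) (l : Form) {M : Matrix n n ℂ} (hM : M ∈ lie T) :
    toC (app1 l M) ∈ lie T := by
  obtain ⟨x, hx⟩ := h.exists_pt
  rw [h.mem_lie_iff hx]
  intro p hp
  change tang p (toC x.1) (toC (app1 l M) * toC x.1) = 0
  rw [← toC_mul, ← app1_mul]
  exact h.tang_rat (fun q hq => hM _ hx q hq) l hp

theorem Geo.conj_rat (h : Geo T) {c : GL n ℂ} (hc : c ∈ T) (l : Form) {M : Matrix n n ℂ}
    (hM : c.1 * M * c⁻¹.1 ∈ lie T) : c.1 * toC (app1 l M) * c⁻¹.1 ∈ lie T := by
  obtain ⟨x, hx⟩ := h.exists_pt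
  rw [h.conj_mem_iff hc hx] at hM ⊢
  intro p hp
  change tang p (toC x.1) (toC x.1 * toC (app1 l M)) = 0
  rw [← toC_mul, ← app1_mul']
  exact h.tang_rat (fun q hq => hM q hq) l hp

end Pool.Agent.Lib.MPf11a48.GL2
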