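import Pool.Agent.Lib.MP_f11a48_ag.helper92.LA

/-! # The structure theorem for Lie algebras of families of two by two matrices -/

set_option autoImplicit false

namespace Pool.Agent.Lib.MPf11a48.GL2

open Matrix Pool.Agent.Lib.MPf11a48.CM

variable {κ : Type}

/-- complex Lie algebras of families of matrices which are defined over `Qbar` -/
structure RatLie (N : Submodule ℂ (κ → M2 ℂ)) : Prop where
  br : ∀ X ∈ N, ∀ Y ∈ N, X * Y - Y * X ∈ N
  rat : ∀ l : Form, ∀ X ∈ N, app l X ∈ N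

/-- conjugation by `c` -/
noncomputable def cj (c : κ → GL (Fin 2) ℂ) : (κ → M2 ℂ) →ₗ[ℂ] (κ → M2 ℂ) where
  toFun X := fun k => (c k).1 * X k * (c k)⁻¹.1
  map_add' X Y := by
    funext k
    simp only [Pi.add_apply, mul_add, add_mul]
  map_smul' t X := by
    funext k
    simp only [Pi.smul_apply, RingHom.id_apply, mul_smul_comm, smul_mul_assoc]

theorem cj_apply (c : κ → GL (Fin 2) ℂ) (X : κ → M2 ℂ) (k : κ) :
    cj c X k = (c k).1 * X k * (c k)⁻¹.1 := rfl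

theorem cj_inv (c : κ → GL (Fin 2) ℂ) (X : κ → M2 ℂ) :
    cj c (fun k => (c k)⁻¹.1 * X k * (c k).1) = X := by
  funext k
  rw [cj_apply]
  calc (c k).1 * ((c k)⁻¹.1 * X k * (c k).1) * (c k)⁻¹.1
      = ((c k).1 * (c k)⁻¹.1) * X k * ((c k).1 * (c k)⁻¹.1) := by simp only [mul_assoc]
    _ = X k := by rw [gl_mul_inv, one_mul, mul_one]

theorem cj_mul (c : κ → GL (Fin 2) ℂ) (X Y : κ → M2 ℂ) : cj c (X * Y) = cj c X * cj c Y := by
  funext k
  rw [Pi.mul_apply, cj_apply, cj_apply, cj_apply, Pi.mul_apply]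
  calc (c k).1 * (X k * Y k) * (c k)⁻¹.1
      = (c k).1 * X k * 1 * Y k * (c k)⁻¹.1 := by simp only [mul_assoc, one_mul]
    _ = (c k).1 * X k * ((c k)⁻¹.1 * (c k).1) * Y k * (c k)⁻¹.1 := by rw [gl_inv_mul]
    _ = _ := by simp only [mul_assoc]

theorem RatLie.comap {N : Submodule ℂ (κ → M2 ℂ)} (h : RatLie N) {c : κ → GL (Fin 2) ℂ}
    (hr : ∀ l : Form, ∀ X ∈ N.comap (cj c), app l X ∈ N.comap (cj c)) : RatLie (N.comap (cj c)) := by
  refine ⟨fun X hX Y hY => ?_, hr⟩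
  rw [Submodule.mem_comap] at hX hY ⊢
  rw [map_sub, cj_mul, cj_mul]
  exact h.br _ hX _ hY

theorem surj {N : Submodule ℂ (κ → M2 ℂ)} (h : RatLie N) {c : κ → GL (Fin 2) ℂ}
    (h' : ∀ l : Form, ∀ X ∈ N.comap (cj c), app l X ∈ N.comap (cj c)) {k : κ}
    (hirr : Irr (c k).1) (hns : ∃ X ∈ N, ∀ t : ℂ, X k ≠ t • 1) {A : M2 ℂ} (hA : A.trace = 0) :
    ∃ X ∈ N, tf (X k) = A := by
  obtain ⟨X₀, hX₀, hX₀t⟩ := hns
  have key : A ∈ N.map (tf ∘ₗ (LinearMap.proj k : (κ → M2 ℂ) →ₗ[ℂ] M2 ℂ)) := by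
    refine full_of_irr hirr ?_ ?_ ?_ (M₀ := tf (X₀ k))
      (Submodule.mem_map.2 ⟨X₀, hX₀, rfl⟩) ?_ hA
    · rintro M ⟨X, -, rfl⟩
      exact trace_tf (X k)
    · rintro l M ⟨X, hX, rfl⟩
      refine ⟨app l X, h.rat l X hX, ?_⟩
      exact tf_app1 l (X k)
    · rintro l M ⟨X, hX, rfl⟩
      have h1 : (fun k => (c k)⁻¹.1 * X k * (c k).1) ∈ N.comap (cj c) := by
        rw [Submodule.mem_comap, cj_inv]
        exact hX
      refine ⟨cj c (app l (fun k => (c k)⁻¹.1 * X k * (c k).1)), h' l _ h1, ?_⟩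
      change tf ((c k).1 * toC (app1 l ((c k)⁻¹.1 * X k * (c k).1)) * (c k)⁻¹.1) = _
      rw [tf_conj, tf_app1, tf_conj']
      rfl
    · intro h0
      rw [tf_apply, sub_eq_zero] at h0
      exact hX₀t _ h0
  obtain ⟨X, hX, hXA⟩ := key
  exact ⟨X, hX, hXA⟩

/-- the traceless part of a Lie algebra -/
def sl (N : Submodule ℂ (κ → M2 ℂ)) : Submodule ℂ (κ → M2 ℂ) where
  carrier := {X | X ∈ N ∧ ∀ k, (X k).trace = 0}
  add_mem' := by
    rintro X Y ⟨h1, h2⟩ ⟨h3, h4⟩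
    exact ⟨N.add_mem h1 h3, fun k => by rw [Pi.add_apply, trace_add, h2, h4, add_zero]⟩
  zero_mem' := ⟨N.zero_mem, fun k => by simp⟩
  smul_mem' := by
    rintro t X ⟨h1, h2⟩
    exact ⟨N.smul_mem t h1, fun k => by rw [Pi.smul_apply, trace_smul, h2, smul_zero]⟩

theorem mem_sl {N : Submodule ℂ (κ → M2 ℂ)} {X : κ → M2 ℂ} :
    X ∈ sl N ↔ X ∈ N ∧ ∀ k, (X k).trace = 0 := Iff.rfl

theorem trace_app (l : Form) (M : M2 ℂ) : (toC (app1 l M)).trace = ((l M.trace : Qbar) : ℂ) := by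
  rw [toC_trace, tr2, tr2, map_add]
  rfl

theorem ratLie_sl {N : Submodule ℂ (κ → M2 ℂ)} (h : RatLie N) : RatLie (sl N) := by
  refine ⟨fun X hX Y hY => ⟨h.br X hX.1 Y hY.1, fun k => ?_⟩, fun l X hX => ⟨h.rat l X hX.1, ?_⟩⟩
  · rw [Pi.sub_apply, Pi.mul_apply, Pi.mul_apply, trace_sub, trace_mul_comm, sub_self]
  · intro k
    have := trace_app l (X k)
    rw [hX.2 k, map_zero] at this
    exact this

theorem rat_sl_comap {N : Submodule ℂ (κ → M2 ℂ)} {c : κ → GL (Fin 2) ℂ}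
    (h' : ∀ l : Form, ∀ X ∈ N.comap (cj c), app l X ∈ N.comap (cj c)) (l : Form) (X : κ → M2 ℂ)
    (hX : X ∈ (sl N).comap (cj c)) : app l X ∈ (sl N).comap (cj c) := by
  have trc : ∀ (k : κ) (Y : M2 ℂ), ((c k).1 * Y * (c k)⁻¹.1).trace = Y.trace := by
    intro k Y
    rw [trace_mul_comm, ← mul_assoc, gl_inv_mul, one_mul]
  refine ⟨h' l X hX.1, fun k => ?_⟩
  rw [cj_apply, trc]
  have h1 := hX.2 k
  rw [cj_apply, trc] at h1
  have := trace_app l (X k)
  rw [h1, map_zero] at this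
  exact this

theorem surj_sl {N : Submodule ℂ (κ → M2 ℂ)} (h : RatLie N) {k : κ}
    (hs : ∀ A : M2 ℂ, A.trace = 0 → ∃ X ∈ N, tf (X k) = A) {A : M2 ℂ} (hA : A.trace = 0) :
    ∃ X ∈ sl N, X k = A := by
  refine sl2_induction (P := fun A => ∃ X ∈ sl N, X k = A) ?_ ?_ ?_ hA
  · rintro A B ⟨X, hX, rfl⟩ ⟨Y, hY, rfl⟩
    exact ⟨X + Y, (sl N).add_mem hX hY, rfl⟩
  · rintro t A ⟨X, hX, rfl⟩
    exact ⟨t • X, (sl N).smul_mem t hX, rfl⟩
  · intro A B hA hB
    obtain ⟨X, hX, hXA⟩ := hs A hA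
    obtain ⟨Y, hY, hYB⟩ := hs B hB
    refine ⟨X * Y - Y * X, ⟨h.br X hX Y hY, fun k => ?_⟩, ?_⟩
    · rw [Pi.sub_apply, Pi.mul_apply, Pi.mul_apply, trace_sub, trace_mul_comm, sub_self]
    · rw [Pi.sub_apply, Pi.mul_apply, Pi.mul_apply]
      rw [tf_apply, sub_eq_iff_eq_add] at hXA hYB
      rw [hXA, hYB]
      simp only [add_mul, mul_add, smul_mul_assoc, mul_smul_comm, mul_one, one_mul]
      module

theorem two_coe : ((2 : Qbar) : ℂ) = 2 := map_ofNat (algebraMap Qbar ℂ) 2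

/-- if the components `i` and `j` of a Lie algebra of traceless matrices determine each other, they
are related by a matrix over `Qbar` -/
theorem exists_intertwiner {N : Submodule ℂ (κ → M2 ℂ)} (h : RatLie N)
    (htr : ∀ X ∈ N, ∀ k, (X k).trace = 0) {i j : κ}
    (hsi : ∀ A : M2 ℂ, A.trace = 0 → ∃ X ∈ N, X i = A)
    (hsj : ∀ A : M2 ℂ, A.trace = 0 → ∃ X ∈ N, X j = A)
    (hij : ∀ X ∈ N, X j = 0 → X i = 0) :
    ∃ g : M2 Qbar, g.det ≠ 0 ∧ ∀ X ∈ N, X i * toC g = toC g * X j := by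
  obtain ⟨l, hl⟩ := exists_form_one
  -- rational lifts
  have lift : ∀ A : M2 Qbar, A.trace = 0 → ∃ a : M2 Qbar, ∃ X ∈ N, X j = toC A ∧ X i = toC a := by
    intro A hA
    obtain ⟨X, hX, hXj⟩ := hsj (toC A) (by rw [toC_trace, hA]; simp)
    refine ⟨app1 l (X i), app l X, h.rat l X hX, ?_, rfl⟩
    refine Matrix.ext fun p q => ?_
    change ((l (X j p q) : Qbar) : ℂ) = _
    rw [hXj]
    change ((l ((A p q : Qbar) : ℂ) : Qbar) : ℂ) = ((A p q : Qbar) : ℂ)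
    rw [hl]
  obtain ⟨e, XE, hXE, hEj, hEi⟩ := lift (mE Qbar) trace_mE
  obtain ⟨f, XF, hXF, hFj, hFi⟩ := lift (mF Qbar) trace_mF
  obtain ⟨w, XH, hXH, hHj, hHi⟩ := lift (mH Qbar) trace_mH
  have tE : toC (mE Qbar) = mE ℂ := by
    refine ext2 ?_ ?_ ?_ ?_ <;> simp [mE]
  have tF : toC (mF Qbar) = mF ℂ := by
    refine ext2 ?_ ?_ ?_ ?_ <;> simp [mF]
  have tH : toC (mH Qbar) = mH ℂ := by
    refine ext2 ?_ ?_ ?_ ?_ <;> simp [mH]
  rw [tE] at hEj
  rw [tF] at hFj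
  rw [tH] at hHj
  -- every element is determined by its component `j`
  have det : ∀ X ∈ N, X i = X j 0 0 • toC w + X j 0 1 • toC e + X j 1 0 • toC f := by
    intro X hX
    have h1 := hij (X - (X j 0 0 • XH + X j 0 1 • XE + X j 1 0 • XF))
      (N.sub_mem hX (N.add_mem (N.add_mem (N.smul_mem _ hXH) (N.smul_mem _ hXE))
        (N.smul_mem _ hXF))) (by
        simp only [Pi.sub_apply, Pi.add_apply, Pi.smul_apply]
        rw [hHj, hEj, hFj, ← eq_comb (htr X hX j), sub_self])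
    simp only [Pi.sub_apply, Pi.add_apply, Pi.smul_apply] at h1
    rw [hHi, hEi, hFi] at h1
    exact sub_eq_zero.1 h1
  -- relations
  have inj : ∀ {A B : M2 Qbar}, toC A = toC B → A = B := fun {A B} hAB =>
    Matrix.ext fun p q => (algebraMap Qbar ℂ).injective (congrFun (congrFun hAB p) q)
  have csub : ∀ A B : M2 Qbar, toC (A - B) = toC A - toC B := fun A B =>
    Matrix.map_sub _ (map_sub (algebraMap Qbar ℂ)) _ _
  have r1 : w * e - e * w = (2 : Qbar) • e := by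
    apply inj
    have h1 := det _ (h.br _ hXH _ hXE)
    simp only [Pi.sub_apply, Pi.mul_apply] at h1
    rw [hHj, hEj, hHi, hEi, bracket_HE] at h1
    rw [csub, toC_mul, toC_mul, h1]
    refine Matrix.ext fun p q => ?_
    simp [mE, two_coe]
  have r2 : w * f - f * w = -((2 : Qbar) • f) := by
    apply inj
    have h1 := det _ (h.br _ hXH _ hXF)
    simp only [Pi.sub_apply, Pi.mul_apply] at h1
    rw [hHj, hFj, hHi, hFi, bracket_HF] at h1
    rw [csub, toC_mul, toC_mul, h1]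
    refine Matrix.ext fun p q => ?_
    simp [mF, two_coe]
  have r3 : e * f - f * e = w := by
    apply inj
    have h1 := det _ (h.br _ hXE _ hXF)
    simp only [Pi.sub_apply, Pi.mul_apply] at h1
    rw [hEj, hFj, hEi, hFi, bracket_EF] at h1
    rw [csub, toC_mul, toC_mul, h1]
    refine Matrix.ext fun p q => ?_
    simp [mH]
  have he0 : e ≠ 0 := by
    intro he0
    have hw0 : w = 0 := by rw [← r3, he0, zero_mul, mul_zero, sub_zero]
    have hf0 : f = 0 := by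
      rw [hw0, zero_mul, mul_zero, sub_zero] at r2
      have := neg_eq_zero.1 r2.symm
      exact (smul_eq_zero.1 this).resolve_left two_ne_zero
    obtain ⟨X, hX, hXi⟩ := hsi (mE ℂ) trace_mE
    have h1 := det X hX
    rw [hXi, he0, hw0, hf0] at h1
    have h2 := congrFun (congrFun h1 0) 1
    simp [mE] at h2
  obtain ⟨g, hg, g1, g2, g3⟩ := exists_conj_triple he0 r1 r2 r3
  refine ⟨g, hg, fun X hX => ?_⟩
  have c1 := congrArg toC g1
  have c2 := congrArg toC g2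
  have c3 := congrArg toC g3
  rw [toC_mul, toC_mul, tH] at c1
  rw [toC_mul, toC_mul, tE] at c2
  rw [toC_mul, toC_mul, tF] at c3
  rw [det X hX, add_mul, add_mul, smul_mul_assoc, smul_mul_assoc, smul_mul_assoc, c1, c2, c3]
  conv_rhs => rw [eq_comb (htr X hX j), mul_add, mul_add, mul_smul_comm, mul_smul_comm, mul_smul_comm]

/-- matrices commuting with all traceless matrices are scalar -/
theorem exists_scalar {m : M2 ℂ} (h : ∀ A : M2 ℂ, A.trace = 0 → A * m = m * A) :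
    ∃ t : ℂ, m = t • 1 := by
  have h1 := h (mE ℂ) trace_mE
  have h2 := h (mF ℂ) trace_mF
  have e1 := congrFun (congrFun h1 0) 0
  have e2 := congrFun (congrFun h1 0) 1
  have e3 := congrFun (congrFun h2 0) 0
  rw [mul2, mul2, E00, E01, E10] at e1
  rw [mul2, mul2, E00, E01, E11] at e2
  rw [mul2, mul2, F00, F01, F10] at e3
  refine ⟨m 0 0, ext2 ?_ ?_ ?_ ?_⟩
  · simp
  · simp
    linear_combination -e3
  · simp
    linear_combination e1
  · simp
    linear_combination e2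

/-- the objects defined by `c` and `d` are not isomorphic over `Qbar`, even after tensoring one of
them with an object of rank one -/
def NonTw (c d : M2 ℂ) : Prop :=
  ∀ g g' : M2 Qbar, g.det ≠ 0 → g'.det ≠ 0 → ∀ t : ℂ, c * toC g' ≠ t • (toC g * d)

theorem nonTw_of_noniso {c d : GL (Fin 2) ℂ} (hiso : Noniso c.1 d.1)
    (hdet : ∃ a : Qbar, c.1.det = (a : ℂ) * d.1.det) : NonTw c.1 d.1 := by
  intro g g' hg hg' t hmain
  obtain ⟨a, ha⟩ := hdet
  have hdd := congrArg Matrix.det hmain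
  rw [det_mul, det_smul, det_mul, Fintype.card_fin, toC_det, toC_det, ha] at hdd
  have hcj := gl_det_ne d
  have hgC : ((g.det : Qbar) : ℂ) ≠ 0 := fun h0 => hg ((map_eq_zero (algebraMap Qbar ℂ)).1 h0)
  have ht2 : t ^ 2 = ((a * g'.det / g.det : Qbar) : ℂ) := by
    push_cast
    rw [eq_div_iff hgC]
    have : d.1.det * (t ^ 2 * ((g.det : Qbar) : ℂ) - (a : ℂ) * ((g'.det : Qbar) : ℂ)) = 0 := by
      linear_combination -hdd
    exact sub_eq_zero.1 ((mul_eq_zero.1 this).resolve_left hcj)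
  obtain ⟨s, hs⟩ := mem_Qbar_of_sq ht2
  have hs0 : s ≠ 0 := by
    rintro rfl
    have ht0 : t = 0 := by rw [← hs]; simp
    rw [ht0, zero_smul] at hmain
    have h1 := congrArg Matrix.det hmain
    rw [det_mul, toC_det, det_zero] at h1
    rcases mul_eq_zero.1 h1 with h2 | h2
    · exact gl_det_ne c h2
    · exact hg' ((map_eq_zero (algebraMap Qbar ℂ)).1 h2)
  refine hiso (s • g) g' ?_ hg' ?_
  · rw [det_smul, Fintype.card_fin]
    exact mul_ne_zero (pow_ne_zero 2 hs0) hg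
  · rw [hmain]
    have : toC (s • g) = (s : ℂ) • toC g := by
      refine Matrix.ext fun p q => ?_
      simp
    rw [this, hs, smul_mul_assoc]

/-- pairs of components are independent -/
theorem exists_pair {N : Submodule ℂ (κ → M2 ℂ)} (h : RatLie N) {c : κ → GL (Fin 2) ℂ}
    (h' : ∀ l : Form, ∀ X ∈ N.comap (cj c), app l X ∈ N.comap (cj c))
    (htr : ∀ X ∈ N, ∀ k, (X k).trace = 0) {i j : κ}
    (hsi : ∀ A : M2 ℂ, A.trace = 0 → ∃ X ∈ N, X i = A)
    (hsj : ∀ A : M2 ℂ, A.trace = 0 → ∃ X ∈ N, X j = A) (hiso : NonTw (c i).1 (c j).1) :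
    ∃ X ∈ N, X j = 0 ∧ X i ≠ 0 := by
  by_contra hcon
  push Not at hcon
  obtain ⟨g, hg, hgN⟩ := exists_intertwiner h htr hsi hsj (fun X hX h0 => hcon X hX h0)
  have trc : ∀ (k : κ) (Y : M2 ℂ), ((c k).1 * Y * (c k)⁻¹.1).trace = Y.trace := by
    intro k Y
    rw [trace_mul_comm, ← mul_assoc, gl_inv_mul, one_mul]
  have trc' : ∀ (k : κ) (Y : M2 ℂ), ((c k)⁻¹.1 * Y * (c k).1).trace = Y.trace := by
    intro k Y
    rw [trace_mul_comm, ← mul_assoc, gl_mul_inv, one_mul]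
  have hback : ∀ (k : κ) (Y : M2 ℂ), (c k)⁻¹.1 * ((c k).1 * Y * (c k)⁻¹.1) * (c k).1 = Y := by
    intro k Y
    calc (c k)⁻¹.1 * ((c k).1 * Y * (c k)⁻¹.1) * (c k).1
        = ((c k)⁻¹.1 * (c k).1) * Y * ((c k)⁻¹.1 * (c k).1) := by simp only [mul_assoc]
      _ = Y := by rw [gl_inv_mul, one_mul, mul_one]
  have hs' : ∀ k : κ, (∀ A : M2 ℂ, A.trace = 0 → ∃ X ∈ N, X k = A) →
      ∀ A : M2 ℂ, A.trace = 0 → ∃ X ∈ N.comap (cj c), X k = A := by
    intro k hk A hA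
    obtain ⟨X, hX, hXk⟩ := hk ((c k).1 * A * (c k)⁻¹.1) (by rw [trc, hA])
    refine ⟨fun k => (c k)⁻¹.1 * X k * (c k).1, ?_, ?_⟩
    · rw [Submodule.mem_comap, cj_inv]
      exact hX
    · simp only
      rw [hXk, hback]
  obtain ⟨g', hg', hgN'⟩ := exists_intertwiner (N := N.comap (cj c)) (i := i) (j := j)
    (h.comap h') (fun X hX k => by
      have := htr _ hX k
      rwa [cj_apply, trc] at this) (hs' i hsi) (hs' j hsj) (fun X hX h0 => by
      have h1 := hcon _ hX (by rw [cj_apply, h0, mul_zero, zero_mul])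
      rw [cj_apply] at h1
      rw [← hback i (X i), h1, mul_zero, zero_mul])
  -- inverse of `toC g`
  have hgu : IsUnit (toC g).det := by
    rw [toC_det]
    exact isUnit_iff_ne_zero.2 fun h0 => hg ((map_eq_zero (algebraMap Qbar ℂ)).1 h0)
  set G := toC g with hG
  set G' := toC g' with hG'
  have hGi : G⁻¹ * G = 1 := Matrix.nonsing_inv_mul G hgu
  have hGi' : G * G⁻¹ = 1 := Matrix.mul_nonsing_inv G hgu
  have key : ∀ A : M2 ℂ, A.trace = 0 →
      A * (G⁻¹ * (c i).1 * G' * (c j)⁻¹.1) = (G⁻¹ * (c i).1 * G' * (c j)⁻¹.1) * A := by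
    intro A hA
    obtain ⟨X, hX, hXj⟩ := hsj A hA
    have e1 := hgN X hX
    rw [hXj] at e1
    have e2 := hgN' (fun k => (c k)⁻¹.1 * X k * (c k).1) (by
      rw [Submodule.mem_comap, cj_inv]
      exact hX)
    rw [hXj] at e2
    have e3 : X i = G * A * G⁻¹ := by
      rw [← e1, mul_assoc, hGi', mul_one]
    rw [e3] at e2
    calc A * (G⁻¹ * (c i).1 * G' * (c j)⁻¹.1)
        = (G⁻¹ * G) * A * (G⁻¹ * (c i).1 * G' * (c j)⁻¹.1) := by rw [hGi, one_mul]
      _ = G⁻¹ * 1 * (G * A * G⁻¹) * (c i).1 * G' * (c j)⁻¹.1 := by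
          simp only [mul_assoc, one_mul]
      _ = G⁻¹ * ((c i).1 * (c i)⁻¹.1) * (G * A * G⁻¹) * (c i).1 * G' * (c j)⁻¹.1 := by
          rw [gl_mul_inv]
      _ = G⁻¹ * (c i).1 * ((c i)⁻¹.1 * (G * A * G⁻¹) * (c i).1 * G') * (c j)⁻¹.1 := by
          simp only [mul_assoc]
      _ = G⁻¹ * (c i).1 * (G' * ((c j)⁻¹.1 * A * (c j).1)) * (c j)⁻¹.1 := by rw [e2]
      _ = (G⁻¹ * (c i).1 * G' * (c j)⁻¹.1) * A * ((c j).1 * (c j)⁻¹.1) := by
          simp only [mul_assoc]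
      _ = _ := by rw [gl_mul_inv, mul_one]
  obtain ⟨t, ht⟩ := exists_scalar key
  have hmain : (c i).1 * G' = t • (G * (c j).1) := by
    calc (c i).1 * G' = (G * G⁻¹) * ((c i).1 * G') * ((c j)⁻¹.1 * (c j).1) := by
          rw [hGi', one_mul, gl_inv_mul, mul_one]
      _ = G * (G⁻¹ * (c i).1 * G' * (c j)⁻¹.1) * (c j).1 := by simp only [mul_assoc]
      _ = _ := by rw [ht, mul_smul_comm, mul_one, smul_mul_assoc]
  exact hiso g g' hg hg' t hmain

/-- The structure theorem. -/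
theorem full {N : Submodule ℂ (κ → M2 ℂ)} [Finite κ] (h : RatLie N) {c : κ → GL (Fin 2) ℂ}
    (h' : ∀ l : Form, ∀ X ∈ N.comap (cj c), app l X ∈ N.comap (cj c))
    (hirr : ∀ k, Irr (c k).1) (hns : ∀ k, ∃ X ∈ N, ∀ t : ℂ, X k ≠ t • 1)
    (hiso : ∀ i j, i ≠ j → NonTw (c i).1 (c j).1)
    {A : κ → M2 ℂ} (hA : ∀ k, (A k).trace = 0) : A ∈ N := by
  classical
  cases nonempty_fintype κ
  have hsl := ratLie_sl h
  have hsl' := rat_sl_comap h'
  have hs : ∀ k, ∀ A : M2 ℂ, A.trace = 0 → ∃ X ∈ sl N, X k = A := fun k A hA =>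
    surj_sl h (fun B hB => surj h h' (hirr k) (hns k) hB) hA
  have htr : ∀ X ∈ sl N, ∀ k, (X k).trace = 0 := fun X hX => hX.2
  -- two components
  have hpair : ∀ i j, i ≠ j → ∀ A : M2 ℂ, A.trace = 0 → ∃ X ∈ sl N, X i = A ∧ X j = 0 := by
    intro i j hij A hA
    obtain ⟨X, hX, hXj, hXi⟩ := exists_pair hsl hsl' htr (hs i) (hs j) (hiso i j hij)
    let Q : Submodule ℂ (M2 ℂ) :=
      (sl N ⊓ LinearMap.ker (LinearMap.proj j : (κ → M2 ℂ) →ₗ[ℂ] M2 ℂ)).map (LinearMap.proj i)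
    have h1 : A ∈ Q := by
      refine sl2_simple (N := Q) ?_ (X := X i) ⟨X, ⟨hX, LinearMap.mem_ker.2 hXj⟩, rfl⟩ hXi
        (htr X hX i) hA
      rintro B C hB ⟨Y, ⟨hY, hYj⟩, rfl⟩
      obtain ⟨Z, hZ, hZi⟩ := hs i B hB
      have hYj' : Y j = 0 := LinearMap.mem_ker.1 hYj
      refine ⟨Z * Y - Y * Z, ⟨hsl.br Z hZ Y hY, ?_⟩, ?_⟩
      · refine LinearMap.mem_ker.2 ?_
        change Z j * Y j - Y j * Z j = 0
        rw [hYj', mul_zero, zero_mul, sub_zero]
      · change Z i * Y i - Y i * Z i = B * Y i - Y i * B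
        rw [hZi]
    obtain ⟨Y, ⟨hY, hYj⟩, hYi⟩ := h1
    exact ⟨Y, hY, hYi, LinearMap.mem_ker.1 hYj⟩
  -- all components
  have hmany : ∀ (i : κ) (J : Finset κ), i ∉ J → ∀ A : M2 ℂ, A.trace = 0 →
      ∃ X ∈ sl N, X i = A ∧ ∀ j ∈ J, X j = 0 := by
    intro i J
    induction J using Finset.induction_on with
    | empty =>
      intro _ A hA
      obtain ⟨X, hX, hXi⟩ := hs i A hA
      exact ⟨X, hX, hXi, fun j hj => absurd hj (Finset.notMem_empty j)⟩
    | insert j J hj ih =>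
      intro hi A hA
      have hij : i ≠ j := fun e => hi (e ▸ Finset.mem_insert_self j J)
      have hiJ : i ∉ J := fun e => hi (Finset.mem_insert_of_mem e)
      refine sl2_induction (P := fun A => ∃ X ∈ sl N, X i = A ∧ ∀ j' ∈ insert j J, X j' = 0)
        ?_ ?_ ?_ hA
      · rintro B C ⟨X, hX, rfl, hX0⟩ ⟨Y, hY, rfl, hY0⟩
        exact ⟨X + Y, (sl N).add_mem hX hY, rfl, fun j' hj' => by
          rw [Pi.add_apply, hX0 j' hj', hY0 j' hj', add_zero]⟩
      · rintro t B ⟨X, hX, rfl, hX0⟩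
        exact ⟨t • X, (sl N).smul_mem t hX, rfl, fun j' hj' => by
          rw [Pi.smul_apply, hX0 j' hj', smul_zero]⟩
      · intro B C hB hC
        obtain ⟨X, hX, hXi, hX0⟩ := ih hiJ B hB
        obtain ⟨Y, hY, hYi, hY0⟩ := hpair i j hij C hC
        refine ⟨X * Y - Y * X, hsl.br X hX Y hY, ?_, fun j' hj' => ?_⟩
        · rw [Pi.sub_apply, Pi.mul_apply, Pi.mul_apply, hXi, hYi]
        · rw [Pi.sub_apply, Pi.mul_apply, Pi.mul_apply]
          rcases Finset.mem_insert.1 hj' with rfl | hj''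
          · rw [hY0, mul_zero, zero_mul, sub_zero]
          · rw [hX0 j' hj'', mul_zero, zero_mul, sub_zero]
  -- conclusion
  have hsingle : ∀ i, (Pi.single i (A i) : κ → M2 ℂ) ∈ N := by
    intro i
    obtain ⟨X, hX, hXi, hX0⟩ := hmany i (Finset.univ.erase i) (Finset.notMem_erase i _) (A i) (hA i)
    have : X = Pi.single i (A i) := by
      funext j
      by_cases hj : j = i
      · subst hj
        rw [hXi, Pi.single_eq_same]
      · rw [hX0 j (Finset.mem_erase.2 ⟨hj, Finset.mem_univ j⟩), Pi.single_eq_of_ne hj]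
    rw [← this]
    exact hX.1
  rw [← Finset.univ_sum_single A]
  exact N.sum_mem fun i _ => hsingle i

end Pool.Agent.Lib.MPf11a48.GL2
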