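import Mathlib

/-! # Block diagonal matrices with blocks of size two and one -/

set_option autoImplicit false
set_option linter.unusedSectionVars false

namespace Pool.Agent.Lib.MPf11a48.GL2

open Matrix

/-- Indices of the rows of a block diagonal matrix with blocks of size two indexed by `κ` and blocks
of size one indexed by `J`. -/
abbrev BIdx (κ J : Type) : Type := (Fin 2 × κ) ⊕ J

variable {κ J R : Type} [DecidableEq κ] [DecidableEq J]

/-- The block diagonal matrix with blocks `f k` and `y j`. -/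
def blk [Zero R] (f : κ → Matrix (Fin 2) (Fin 2) R) (y : J → R) :
    Matrix (BIdx κ J) (BIdx κ J) R :=
  fromBlocks (blockDiagonal f) 0 0 (diagonal y)

section Entries

variable [Zero R] (f : κ → Matrix (Fin 2) (Fin 2) R) (y : J → R)

theorem blk_ll (a b : Fin 2) (k : κ) : blk f y (Sum.inl (a, k)) (Sum.inl (b, k)) = f k a b := by
  rw [blk, fromBlocks_apply₁₁, blockDiagonal_apply_eq]

theorem blk_ll_ne (a b : Fin 2) {k k' : κ} (h : k ≠ k') :
    blk f y (Sum.inl (a, k)) (Sum.inl (b, k')) = 0 := by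
  rw [blk, fromBlocks_apply₁₁, blockDiagonal_apply_ne _ _ _ h]

theorem blk_lr (u : Fin 2 × κ) (j : J) : blk f y (Sum.inl u) (Sum.inr j) = 0 := rfl

theorem blk_rl (u : Fin 2 × κ) (j : J) : blk f y (Sum.inr j) (Sum.inl u) = 0 := rfl

theorem blk_rr (j : J) : blk f y (Sum.inr j) (Sum.inr j) = y j := by
  rw [blk, fromBlocks_apply₂₂, diagonal_apply_eq]

theorem blk_rr_ne {j j' : J} (h : j ≠ j') : blk f y (Sum.inr j) (Sum.inr j') = 0 := by
  rw [blk, fromBlocks_apply₂₂, diagonal_apply_ne _ h]

end Entries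

/-- the positions in the blocks -/
def inB : BIdx κ J → BIdx κ J → Prop
  | Sum.inl u, Sum.inl v => u.2 = v.2
  | Sum.inr j, Sum.inr j' => j = j'
  | _, _ => False

theorem blk_off [Zero R] (f : κ → Matrix (Fin 2) (Fin 2) R) (y : J → R) {u v : BIdx κ J}
    (h : ¬inB u v) : blk f y u v = 0 := by
  rcases u with ⟨a, k⟩ | j <;> rcases v with ⟨b, k'⟩ | j'
  · exact blk_ll_ne f y a b h
  · rfl
  · rfl
  · exact blk_rr_ne f y h

/-- the blocks of a matrix -/
def b2 (M : Matrix (BIdx κ J) (BIdx κ J) R) : κ → Matrix (Fin 2) (Fin 2) R :=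
  fun k => Matrix.of fun a b => M (Sum.inl (a, k)) (Sum.inl (b, k))

/-- the blocks of size one of a matrix -/
def b1 (M : Matrix (BIdx κ J) (BIdx κ J) R) : J → R := fun j => M (Sum.inr j) (Sum.inr j)

theorem b2_blk [Zero R] (f : κ → Matrix (Fin 2) (Fin 2) R) (y : J → R) : b2 (blk f y) = f := by
  funext k
  exact Matrix.ext fun a b => blk_ll f y a b k

theorem b1_blk [Zero R] (f : κ → Matrix (Fin 2) (Fin 2) R) (y : J → R) : b1 (blk f y) = y :=
  funext fun j => blk_rr f y j

theorem eq_blk [Zero R] {M : Matrix (BIdx κ J) (BIdx κ J) R} (h : ∀ u v, ¬inB u v → M u v = 0) :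
    M = blk (b2 M) (b1 M) := by
  refine Matrix.ext fun u v => ?_
  by_cases huv : inB u v
  · rcases u with ⟨a, k⟩ | j <;> rcases v with ⟨b, k'⟩ | j'
    · obtain rfl : k = k' := huv
      rw [blk_ll]
      rfl
    · exact huv.elim
    · exact huv.elim
    · obtain rfl : j = j' := huv
      rw [blk_rr]
      rfl
  · rw [h u v huv, blk_off _ _ huv]

theorem blk_injective [Zero R] {f g : κ → Matrix (Fin 2) (Fin 2) R} {y z : J → R}
    (h : blk f y = blk g z) : f = g ∧ y = z :=
  ⟨by rw [← b2_blk f y, h, b2_blk], by rw [← b1_blk f y, h, b1_blk]⟩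

variable [Fintype κ] [Fintype J]

theorem blk_mul [CommRing R] (f g : κ → Matrix (Fin 2) (Fin 2) R) (y z : J → R) :
    blk f y * blk g z = blk (f * g) (y * z) := by
  rw [blk, blk, fromBlocks_multiply, ← blockDiagonal_mul, diagonal_mul_diagonal]
  simp only [Matrix.mul_zero, Matrix.zero_mul, add_zero, zero_add]
  rfl

theorem blk_one [CommRing R] : blk (1 : κ → Matrix (Fin 2) (Fin 2) R) (1 : J → R) = 1 := by
  rw [blk, blockDiagonal_one, ← fromBlocks_one]
  congr 1

theorem blk_sub [CommRing R] (f g : κ → Matrix (Fin 2) (Fin 2) R) (y z : J → R) :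
    blk f y - blk g z = blk (f - g) (y - z) := by
  have h := eq_blk (M := blk f y - blk g z) (fun u v huv => by
    rw [Matrix.sub_apply, blk_off _ _ huv, blk_off _ _ huv, sub_zero])
  rw [h]
  congr 1
  · funext k
    refine Matrix.ext fun a b => ?_
    simp only [b2, Matrix.of_apply, Matrix.sub_apply, blk_ll, Pi.sub_apply]
  · funext j
    simp only [b1, Matrix.sub_apply, blk_rr, Pi.sub_apply]

theorem blk_add [CommRing R] (f g : κ → Matrix (Fin 2) (Fin 2) R) (y z : J → R) :
    blk f y + blk g z = blk (f + g) (y + z) := by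
  have h := eq_blk (M := blk f y + blk g z) (fun u v huv => by
    rw [Matrix.add_apply, blk_off _ _ huv, blk_off _ _ huv, add_zero])
  rw [h]
  congr 1
  · funext k
    refine Matrix.ext fun a b => ?_
    simp only [b2, Matrix.of_apply, Matrix.add_apply, blk_ll, Pi.add_apply]
  · funext j
    simp only [b1, Matrix.add_apply, blk_rr, Pi.add_apply]

theorem blk_smul [CommRing R] (t : R) (f : κ → Matrix (Fin 2) (Fin 2) R) (y : J → R) :
    t • blk f y = blk (t • f) (t • y) := by
  have h := eq_blk (M := t • blk f y) (fun u v huv => by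
    rw [Matrix.smul_apply, blk_off _ _ huv, smul_zero])
  rw [h]
  congr 1
  · funext k
    refine Matrix.ext fun a b => ?_
    simp only [b2, Matrix.of_apply, Matrix.smul_apply, blk_ll, Pi.smul_apply]
  · funext j
    simp only [b1, Matrix.smul_apply, blk_rr, Pi.smul_apply]

theorem blk_map {R' : Type} [CommRing R] [CommRing R'] (φ : R → R') (h0 : φ 0 = 0)
    (f : κ → Matrix (Fin 2) (Fin 2) R)
    (y : J → R) : (blk f y).map φ = blk (fun k => (f k).map φ) (fun j => φ (y j)) := by
  have h := eq_blk (M := (blk f y).map φ) (fun u v huv => by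
    rw [Matrix.map_apply, blk_off _ _ huv, h0])
  rw [h]
  congr 1
  · funext k
    refine Matrix.ext fun a b => ?_
    simp only [b2, Matrix.of_apply, Matrix.map_apply, blk_ll]
  · funext j
    simp only [b1, Matrix.map_apply, blk_rr]

theorem det_blk [CommRing R] (f : κ → Matrix (Fin 2) (Fin 2) R) (y : J → R) :
    (blk f y).det = (∏ k, (f k).det) * ∏ j, y j := by
  rw [blk, det_fromBlocks_zero₂₁, det_blockDiagonal, det_diagonal]

/-- invertible block diagonal matrices -/
def blkGL [CommRing R] : (κ → GL (Fin 2) R) × (J → Rˣ) →* GL (BIdx κ J) R where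
  toFun x :=
    { val := blk (fun k => (x.1 k).1) (fun j => (x.2 j : R))
      inv := blk (fun k => (x.1 k)⁻¹.1) (fun j => ((x.2 j)⁻¹ : Rˣ))
      val_inv := by
        rw [blk_mul, ← blk_one]
        congr 1
        · funext k
          exact (x.1 k).mul_inv
        · funext j
          exact (x.2 j).mul_inv
      inv_val := by
        rw [blk_mul, ← blk_one]
        congr 1
        · funext k
          exact (x.1 k).inv_mul
        · funext j
          exact (x.2 j).inv_mul }
  map_one' := Units.ext blk_one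
  map_mul' x y := by
    apply Units.ext
    exact (blk_mul (fun k => (x.1 k).1) (fun k => (y.1 k).1) (fun j => (x.2 j : R))
      (fun j => (y.2 j : R))).symm

theorem blkGL_val [CommRing R] (x : (κ → GL (Fin 2) R) × (J → Rˣ)) :
    (blkGL x).1 = blk (fun k => (x.1 k).1) (fun j => (x.2 j : R)) := rfl

theorem blkGL_injective [CommRing R] {x y : (κ → GL (Fin 2) R) × (J → Rˣ)}
    (h : blkGL x = blkGL y) : x = y := by
  have h1 : blk (fun k => (x.1 k).1) (fun j => (x.2 j : R)) =
      blk (fun k => (y.1 k).1) (fun j => (y.2 j : R)) := congrArg Units.val h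
  obtain ⟨h2, h3⟩ := blk_injective h1
  refine Prod.ext (funext fun k => Units.ext (congrFun h2 k))
    (funext fun j => Units.ext (congrFun h3 j))

/-- an invertible matrix which vanishes outside the blocks is block diagonal -/
theorem exists_blkGL {F : Type} [Field F] {g : GL (BIdx κ J) F}
    (h : ∀ u v, ¬inB u v → g.1 u v = 0) : ∃ x : (κ → GL (Fin 2) F) × (J → Fˣ), blkGL x = g := by
  have h1 := eq_blk h
  have hdet : g.1.det ≠ 0 := by
    intro h0
    have h2 : g.1 * g⁻¹.1 = 1 := g.mul_inv
    have h3 := congrArg Matrix.det h2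
    rw [det_mul, h0, zero_mul, det_one] at h3
    exact zero_ne_one h3
  rw [h1, det_blk] at hdet
  have hd2 : ∀ k, (b2 g.1 k).det ≠ 0 := fun k =>
    Finset.prod_ne_zero_iff.1 (left_ne_zero_of_mul hdet) k (Finset.mem_univ k)
  have hd1 : ∀ j, b1 g.1 j ≠ 0 := fun j =>
    Finset.prod_ne_zero_iff.1 (right_ne_zero_of_mul hdet) j (Finset.mem_univ j)
  refine ⟨(fun k => Matrix.GeneralLinearGroup.mkOfDetNeZero (b2 g.1 k) (hd2 k),
    fun j => Units.mk0 (b1 g.1 j) (hd1 j)), Units.ext ?_⟩
  rw [blkGL_val]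
  exact h1.symm

end Pool.Agent.Lib.MPf11a48.GL2
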