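import Pool.Agent.Lib.MP_f11a48_ag.helper92.Rat

/-! # Closed subtorsors of a split torus over `Qbar` -/

set_option autoImplicit false
set_option linter.unusedSectionVars false

namespace Pool.Agent.Lib.MPf11a48.GL2

open Pool.Agent.Lib.MPf11a48.CM

variable {m : Type} [Fintype m]

/-- a torsor over `Qbar` in a split torus, containing the point `s` -/
structure TorSit (m : Type) [Fintype m] where
  T : Set (m → ℂˣ)
  P : Set (MvPolynomial m Qbar)
  hT : ∀ s : m → ℂˣ, s ∈ T ↔ ∀ p ∈ P, MvPolynomial.aeval (fun i => (s i : ℂ)) p = 0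
  heap : ∀ a ∈ T, ∀ b ∈ T, ∀ d ∈ T, a * b⁻¹ * d ∈ T
  s : m → ℂˣ
  mem : s ∈ T

/-- extension of scalars -/
noncomputable def toCu : (m → Qbarˣ) →* (m → ℂˣ) where
  toFun u i := Units.map (algebraMap Qbar ℂ).toMonoidHom (u i)
  map_one' := funext fun _ => map_one _
  map_mul' _ _ := funext fun _ => map_mul _ _ _

theorem toCu_val (u : m → Qbarˣ) (i : m) : ((toCu u i : ℂˣ) : ℂ) = (((u i : Qbar)) : ℂ) := rfl

namespace TorSit

variable (S : TorSit m)

theorem mem_iff (u : m → Qbarˣ) : toCu u ∈ S.T ↔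
    ∀ p ∈ S.P, MvPolynomial.aeval (fun i => (u i : Qbar)) p = 0 := by
  rw [S.hT]
  refine forall₂_congr fun p _ => ?_
  have h1 : MvPolynomial.aeval (fun i => ((toCu u i : ℂˣ) : ℂ)) p =
      algebraMap Qbar ℂ (MvPolynomial.aeval (fun i => (u i : Qbar)) p) :=
    aeval_Qbar (fun i => (u i : Qbar)) p
  rw [h1]
  exact map_eq_zero_iff _ (algebraMap Qbar ℂ).injective

/-- Nullstellensatz -/
theorem nullT (g : MvPolynomial (m ⊕ m) Qbar)
    (hg : ∀ u : m → Qbarˣ, toCu u ∈ S.T →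
      MvPolynomial.aeval (Sum.elim (fun i => (u i : Qbar)) (fun i => (u i : Qbar)⁻¹)) g = 0) :
    MvPolynomial.aeval (Sum.elim (fun i => (S.s i : ℂ)) (fun i => (S.s i : ℂ)⁻¹)) g = 0 := by
  refine null ({g | ∃ p ∈ S.P, g = MvPolynomial.rename Sum.inl p} ∪
    {g | ∃ i : m, g = MvPolynomial.X (Sum.inl i) * MvPolynomial.X (Sum.inr i) - 1}) _ ?_ g ?_
  · rintro _ (⟨p, hp, rfl⟩ | ⟨i, rfl⟩)
    · rw [MvPolynomial.aeval_rename]
      exact (S.hT S.s).1 S.mem p hp
    · simp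
  · intro x hx
    have hx1 : ∀ i, x (Sum.inl i) * x (Sum.inr i) = 1 := by
      intro i
      have := hx _ (Or.inr ⟨i, rfl⟩)
      simp only [map_sub, map_mul, MvPolynomial.aeval_X, map_one] at this
      exact sub_eq_zero.1 this
    let u : m → Qbarˣ := fun i => ⟨x (Sum.inl i), x (Sum.inr i), hx1 i,
      by rw [mul_comm]; exact hx1 i⟩
    have hu : toCu u ∈ S.T := by
      rw [S.mem_iff]
      intro p hp
      have := hx _ (Or.inl ⟨p, hp, rfl⟩)
      rw [MvPolynomial.aeval_rename] at this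
      exact this
    have h3 := hg u hu
    have e : Sum.elim (fun i => (u i : Qbar)) (fun i => (u i : Qbar)⁻¹) = x := by
      funext y
      cases y with
      | inl i => rfl
      | inr i => exact inv_eq_of_mul_eq_one_right (hx1 i)
    rwa [e] at h3

theorem exists_pt : ∃ u : m → Qbarˣ, toCu u ∈ S.T := by
  by_contra hcon
  push Not at hcon
  have := S.nullT 1 (fun u hu => absurd hu (hcon u))
  rw [map_one] at this
  exact one_ne_zero this

/-- differences of algebraic points -/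
noncomputable def Γ (b0 : m → Qbarˣ) (hb0 : toCu b0 ∈ S.T) : Subgroup (m → Qbarˣ) where
  carrier := {u | toCu (u * b0) ∈ S.T}
  one_mem' := by
    change toCu (1 * b0) ∈ S.T
    rwa [one_mul]
  mul_mem' := by
    intro u v hu hv
    change toCu (u * v * b0) ∈ S.T
    have h := S.heap _ hu _ hb0 _ hv
    rw [← map_inv, ← map_mul, ← map_mul] at h
    have e : u * b0 * b0⁻¹ * (v * b0) = u * v * b0 := by
      rw [mul_inv_cancel_right, mul_assoc]
    rwa [e] at h
  inv_mem' := by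
    intro u hu
    change toCu (u⁻¹ * b0) ∈ S.T
    have h := S.heap _ hb0 _ hu _ hb0
    rw [← map_inv, ← map_mul, ← map_mul] at h
    have e : b0 * (u * b0)⁻¹ * b0 = u⁻¹ * b0 := by
      rw [mul_inv_rev, mul_inv_cancel_left]
    rwa [e] at h

/-- characters that are trivial on `Γ` -/
def Triv (b0 : m → Qbarˣ) (hb0 : toCu b0 ∈ S.T) (χ : m → ℤ) : Prop :=
  ∀ u ∈ S.Γ b0 hb0, ∏ i, (u i : Qbar) ^ χ i = 1

theorem zpow_toNat' {k : Type} [Field k] (z : k) (n : ℤ) :
    z ^ n.toNat * z⁻¹ ^ (-n).toNat = z ^ n := by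
  rcases le_total 0 n with h | h
  · obtain ⟨a, rfl⟩ := Int.eq_ofNat_of_zero_le h
    simp
  · obtain ⟨a, ha⟩ := Int.eq_ofNat_of_zero_le (neg_nonneg.2 h)
    have : n = -(a : ℤ) := by omega
    subst this
    simp

theorem triv_eq {b0 : m → Qbarˣ} {hb0 : toCu b0 ∈ S.T} {χ : m → ℤ} (hχ : S.Triv b0 hb0 χ) :
    ∏ i, (S.s i : ℂ) ^ χ i = algebraMap Qbar ℂ (∏ i, (b0 i : Qbar) ^ χ i) := by
  have key : ∀ {A : Type} [Field A] [Algebra Qbar A] (z : m → A),
      MvPolynomial.aeval (Sum.elim z (fun i => (z i)⁻¹))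
        ((∏ i, (MvPolynomial.X (Sum.inl i) ^ (χ i).toNat *
          MvPolynomial.X (Sum.inr i) ^ (-χ i).toNat) : MvPolynomial (m ⊕ m) Qbar) -
          MvPolynomial.C (∏ i, (b0 i : Qbar) ^ χ i)) =
        (∏ i, z i ^ χ i) - algebraMap Qbar A (∏ i, (b0 i : Qbar) ^ χ i) := by
    intro A _ _ z
    rw [map_sub, map_prod]
    congr 1
    · refine Finset.prod_congr rfl fun i _ => ?_
      rw [map_mul, map_pow, map_pow, MvPolynomial.aeval_X, MvPolynomial.aeval_X]
      exact zpow_toNat' _ _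
    · exact MvPolynomial.algHom_C _ _
  have h := S.nullT _ (fun u hu => by
    rw [key (fun i => (u i : Qbar))]
    have hu' : u * b0⁻¹ ∈ S.Γ b0 hb0 := by
      change toCu (u * b0⁻¹ * b0) ∈ S.T
      rwa [inv_mul_cancel_right]
    have h3 := hχ _ hu'
    have h4 : (∏ i, (((u * b0⁻¹) i : Qbarˣ) : Qbar) ^ χ i) =
        (∏ i, (u i : Qbar) ^ χ i) * (∏ i, (b0 i : Qbar) ^ χ i)⁻¹ := by
      rw [← Finset.prod_inv_distrib, ← Finset.prod_mul_distrib]
      refine Finset.prod_congr rfl fun i _ => ?_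
      simp [mul_zpow]
    rw [h4] at h3
    have h5 : (∏ i, (b0 i : Qbar) ^ χ i) ≠ 0 :=
      Finset.prod_ne_zero_iff.2 fun i _ => zpow_ne_zero _ (b0 i).ne_zero
    have h6 : (∏ i, (u i : Qbar) ^ χ i) = ∏ i, (b0 i : Qbar) ^ χ i := by
      rw [mul_inv_eq_one₀ h5] at h3
      exact h3
    rw [h6]
    simp)
  rw [key (fun i => (S.s i : ℂ))] at h
  exact sub_eq_zero.1 h

/-- the character of `Γ` attached to a monomial -/
noncomputable def φ (b0 : m → Qbarˣ) (hb0 : toCu b0 ∈ S.T) (d : m →₀ ℕ) :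
    S.Γ b0 hb0 →* Qbar where
  toFun u := ∏ i, ((u.1 i : Qbarˣ) : Qbar) ^ d i
  map_one' := by simp
  map_mul' u v := by
    rw [← Finset.prod_mul_distrib]
    refine Finset.prod_congr rfl fun i _ => ?_
    simp [mul_pow]

theorem dedekind (b0 : m → Qbarˣ) (hb0 : toCu b0 ∈ S.T) (t : m → ℂˣ)
    (ht : ∀ χ, S.Triv b0 hb0 χ → ∏ i, (t i : ℂ) ^ χ i = 1)
    {p : MvPolynomial m Qbar} (hp : p ∈ S.P) :
    MvPolynomial.aeval (fun i => (t i : ℂ) * ((b0 i : Qbar) : ℂ)) p = 0 := by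
  classical
  let a : (m →₀ ℕ) → Qbar := fun d => p.coeff d * ∏ i, (b0 i : Qbar) ^ d i
  -- the relation between characters
  have hrel : ∀ u : S.Γ b0 hb0, ∑ d ∈ p.support, a d * S.φ b0 hb0 d u = 0 := by
    intro u
    have h1 := (S.mem_iff (u.1 * b0)).1 u.2 p hp
    rw [MvPolynomial.aeval_def, MvPolynomial.eval₂_eq'] at h1
    rw [← h1]
    refine Finset.sum_congr rfl fun d _ => ?_
    have h2 : (∏ i, (((u.1 * b0) i : Qbarˣ) : Qbar) ^ d i) =
        (∏ i, ((u.1 i : Qbarˣ) : Qbar) ^ d i) * ∏ i, (b0 i : Qbar) ^ d i := by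
      rw [← Finset.prod_mul_distrib]
      refine Finset.prod_congr rfl fun i _ => ?_
      simp [mul_pow]
    rw [h2]
    change p.coeff d * (∏ i, (b0 i : Qbar) ^ d i) * (∏ i, ((u.1 i : Qbarˣ) : Qbar) ^ d i) =
      algebraMap Qbar Qbar (p.coeff d) * _
    simp only [Algebra.algebraMap_self, RingHom.id_apply]
    ring
  -- independence of characters
  have hfib : ∀ f ∈ p.support.image (S.φ b0 hb0),
      ∑ d ∈ p.support with S.φ b0 hb0 d = f, a d = 0 := by
    have hli := linearIndependent_monoidHom (S.Γ b0 hb0) Qbar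
    rw [linearIndependent_iff'] at hli
    refine hli (p.support.image (S.φ b0 hb0))
      (fun f => ∑ d ∈ p.support with S.φ b0 hb0 d = f, a d) ?_
    funext u
    rw [Finset.sum_apply]
    have h1 := hrel u
    rw [← Finset.sum_fiberwise_of_maps_to (g := S.φ b0 hb0) (t := p.support.image (S.φ b0 hb0))
      (fun d hd => Finset.mem_image_of_mem _ hd)] at h1
    rw [Pi.zero_apply, ← h1]
    refine Finset.sum_congr rfl fun f _ => ?_
    rw [Pi.smul_apply, smul_eq_mul, Finset.sum_mul]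
    refine Finset.sum_congr rfl fun d hd => ?_
    rw [(Finset.mem_filter.1 hd).2]
  -- the value of the monomials at `t` only depends on the character
  have hconst : ∀ d d' : m →₀ ℕ, S.φ b0 hb0 d = S.φ b0 hb0 d' →
      (∏ i, (t i : ℂ) ^ d i) = ∏ i, (t i : ℂ) ^ d' i := by
    intro d d' hdd
    have h1 : S.Triv b0 hb0 (fun i => (d i : ℤ) - (d' i : ℤ)) := by
      intro u hu
      have h2 : (∏ i, ((u i : Qbarˣ) : Qbar) ^ d i) = ∏ i, ((u i : Qbarˣ) : Qbar) ^ d' i :=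
        DFunLike.congr_fun hdd (⟨u, hu⟩ : S.Γ b0 hb0)
      have h3 : (∏ i, ((u i : Qbarˣ) : Qbar) ^ ((d i : ℤ) - (d' i : ℤ))) =
          (∏ i, ((u i : Qbarˣ) : Qbar) ^ d i) / ∏ i, ((u i : Qbarˣ) : Qbar) ^ d' i := by
        rw [← Finset.prod_div_distrib]
        refine Finset.prod_congr rfl fun i _ => ?_
        rw [zpow_sub₀ (u i).ne_zero, zpow_natCast, zpow_natCast]
      rw [h3, h2, div_self]
      exact Finset.prod_ne_zero_iff.2 fun i _ => pow_ne_zero _ (u i).ne_zero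
    have h2 := ht _ h1
    have h3 : (∏ i, (t i : ℂ) ^ ((d i : ℤ) - (d' i : ℤ))) =
        (∏ i, (t i : ℂ) ^ d i) / ∏ i, (t i : ℂ) ^ d' i := by
      rw [← Finset.prod_div_distrib]
      refine Finset.prod_congr rfl fun i _ => ?_
      rw [zpow_sub₀ (t i).ne_zero, zpow_natCast, zpow_natCast]
    rw [h3] at h2
    exact (div_eq_one_iff_eq (Finset.prod_ne_zero_iff.2 fun i _ =>
      pow_ne_zero _ (t i).ne_zero)).1 h2
  -- conclusion
  rw [MvPolynomial.aeval_def, MvPolynomial.eval₂_eq']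
  have h4 : ∀ d ∈ p.support, algebraMap Qbar ℂ (p.coeff d) *
      (∏ i, ((t i : ℂ) * ((b0 i : Qbar) : ℂ)) ^ d i) =
        algebraMap Qbar ℂ (a d) * ∏ i, (t i : ℂ) ^ d i := by
    intro d _
    simp only [mul_pow, Finset.prod_mul_distrib, a, map_mul, map_prod, map_pow]
    change _ * (_ * ∏ i, ((b0 i : Qbar) : ℂ) ^ d i) =
      _ * (∏ i, ((b0 i : Qbar) : ℂ) ^ d i) * _
    ring
  rw [Finset.sum_congr rfl h4]
  rw [← Finset.sum_fiberwise_of_maps_to (g := S.φ b0 hb0) (t := p.support.image (S.φ b0 hb0))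
    (fun d hd => Finset.mem_image_of_mem _ hd)]
  refine Finset.sum_eq_zero fun f hf => ?_
  obtain ⟨d0, _, hd0⟩ := Finset.mem_image.1 hf
  have h5 : ∀ d ∈ p.support.filter (fun d => S.φ b0 hb0 d = f),
      algebraMap Qbar ℂ (a d) * (∏ i, (t i : ℂ) ^ d i) =
        algebraMap Qbar ℂ (a d) * ∏ i, (t i : ℂ) ^ d0 i := by
    intro d hd
    rw [hconst d d0 ((Finset.mem_filter.1 hd).2.trans hd0.symm)]
  rw [Finset.sum_congr rfl h5, ← Finset.sum_mul, ← map_sum, hfib f hf, map_zero, zero_mul]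

/-- A torsor over `Qbar` in a split torus which contains `s` contains every point which satisfies
the multiplicative relations of `s` with algebraic value. -/
theorem mem_of_relations (t : m → ℂˣ)
    (ht : ∀ χ : m → ℤ, (∏ i, (S.s i : ℂ) ^ χ i) ∈ Qbar →
      ∏ i, (t i : ℂ) ^ χ i = ∏ i, (S.s i : ℂ) ^ χ i) : t ∈ S.T := by
  obtain ⟨b0, hb0⟩ := S.exists_pt
  have h1 := fun {p : MvPolynomial m Qbar} (hp : p ∈ S.P) =>
    S.dedekind b0 hb0 (t * (toCu b0)⁻¹) (fun χ hχ => by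
      have h2 := S.triv_eq hχ
      have h3 := ht χ (by rw [h2]; exact (∏ i, (b0 i : Qbar) ^ χ i).2)
      have h4 : (∏ i, (((t * (toCu b0)⁻¹) i : ℂˣ) : ℂ) ^ χ i) =
          (∏ i, (t i : ℂ) ^ χ i) * (∏ i, ((b0 i : Qbar) : ℂ) ^ χ i)⁻¹ := by
        rw [← Finset.prod_inv_distrib, ← Finset.prod_mul_distrib]
        refine Finset.prod_congr rfl fun i _ => ?_
        simp [mul_zpow, toCu_val]
      have h5 : algebraMap Qbar ℂ (∏ i, (b0 i : Qbar) ^ χ i) = ∏ i, ((b0 i : Qbar) : ℂ) ^ χ i := by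
        rw [map_prod]
        refine Finset.prod_congr rfl fun i _ => ?_
        rw [map_zpow₀]
        rfl
      rw [h4, h3, h2, h5]
      refine mul_inv_cancel₀ (Finset.prod_ne_zero_iff.2 fun i _ => zpow_ne_zero _ ?_)
      exact fun h0 => (b0 i).ne_zero (Subtype.ext h0)) hp
  rw [S.hT]
  intro p hp
  have h2 := h1 hp
  have h3 : (fun i => (((t * (toCu b0)⁻¹) i : ℂˣ) : ℂ) * ((b0 i : Qbar) : ℂ)) =
      fun i => (t i : ℂ) := by
    funext i
    have h0 : ((b0 i : Qbar) : ℂ) ≠ 0 := fun h0 => (b0 i).ne_zero (Subtype.ext h0)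
    simp only [Pi.mul_apply, Pi.inv_apply, Units.val_mul, Units.val_inv_eq_inv_val, toCu_val]
    rw [inv_mul_cancel_right₀ h0]
  rwa [h3] at h2

end TorSit

end Pool.Agent.Lib.MPf11a48.GL2
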