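import Pool.Agent.Lib.MP_f11a48_ag.helper92.Grp
import Pool.Agent.Lib.MP_f11a48_ag.helper92.Tor

/-! # Torsors containing a sum of objects of rank at most two -/

set_option autoImplicit false
set_option linter.unusedSectionVars false

namespace Pool.Agent.Lib.MPf11a48.GL2

open Matrix MvPolynomial Pool.Agent.Lib.MPf11a48.CM Pool.Agent.Lib.MPf11a48.Tors

variable {κ J : Type} [Fintype κ] [Fintype J] [DecidableEq κ] [DecidableEq J]

/-- `diag(t, 1)` -/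
noncomputable def d2 : ℂˣ →* GL (Fin 2) ℂ where
  toFun t :=
    { val := !![(t : ℂ), 0; 0, 1]
      inv := !![((t⁻¹ : ℂˣ) : ℂ), 0; 0, 1]
      val_inv := by
        refine ext2 ?_ ?_ ?_ ?_ <;> simp [Matrix.mul_apply, Fin.sum_univ_two]
      inv_val := by
        refine ext2 ?_ ?_ ?_ ?_ <;> simp [Matrix.mul_apply, Fin.sum_univ_two] }
  map_one' := by
    apply Units.ext
    change !![((1 : ℂˣ) : ℂ), 0; 0, 1] = (1 : Matrix (Fin 2) (Fin 2) ℂ)
    refine ext2 ?_ ?_ ?_ ?_ <;> simp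
  map_mul' s t := by
    apply Units.ext
    change !![((s * t : ℂˣ) : ℂ), 0; 0, 1] = !![(s : ℂ), 0; 0, 1] * !![(t : ℂ), 0; 0, 1]
    refine ext2 ?_ ?_ ?_ ?_ <;> simp [Matrix.mul_apply, Fin.sum_univ_two]

theorem d2_val (t : ℂˣ) : (d2 t).1 = !![(t : ℂ), 0; 0, 1] := rfl

theorem det_d2 (t : ℂˣ) : (d2 t).1.det = t := by
  rw [d2_val, det_fin_two_of]
  ring

/-- the block diagonal matrix with blocks `diag(s k, 1)` and `s j` -/
def dm {R : Type} [CommRing R] (s : κ ⊕ J → R) : Matrix (BIdx κ J) (BIdx κ J) R :=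
  blk (fun k => !![s (Sum.inl k), 0; 0, 1]) (fun j => s (Sum.inr j))

theorem dm_map {R R' : Type} [CommRing R] [CommRing R'] (φ : R →+* R') (s : κ ⊕ J → R) :
    (dm s).map φ = dm (fun i => φ (s i)) := by
  rw [dm, blk_map φ (map_zero φ)]
  congr 1
  funext k
  refine Matrix.ext fun a b => ?_
  fin_cases a <;> fin_cases b <;> simp

/-- the invertible block diagonal matrix with blocks `diag(s k, 1)` and `s j` -/
noncomputable def dmG : (κ ⊕ J → ℂˣ) →* GL (BIdx κ J) ℂ :=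
  (blkGL (κ := κ) (J := J) (R := ℂ)).comp
    { toFun := fun s => (fun k => d2 (s (Sum.inl k)), fun j => s (Sum.inr j))
      map_one' := Prod.ext (funext fun _ => map_one _) rfl
      map_mul' := fun _ _ => Prod.ext (funext fun _ => map_mul _ _ _) rfl }

theorem dmG_apply (s : κ ⊕ J → ℂˣ) :
    dmG s = blkGL (fun k => d2 (s (Sum.inl k)), fun j => s (Sum.inr j)) := rfl

theorem dmG_val (s : κ ⊕ J → ℂˣ) : (dmG s).1 = dm (fun i => (s i : ℂ)) := rfl

/-- the torus part of a torsor -/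
noncomputable def torSit {T : Set (GL (BIdx κ J) ℂ)} (S : Set (MvPolynomial (BIdx κ J × BIdx κ J) Qbar))
    (hS : T = {g | ∀ p ∈ S, aeval (fun ij : BIdx κ J × BIdx κ J => g.1 ij.1 ij.2) p = 0})
    (hheap : ∀ a ∈ T, ∀ b ∈ T, ∀ d ∈ T, a * b⁻¹ * d ∈ T) (s : κ ⊕ J → ℂˣ) (hs : dmG s ∈ T) :
    TorSit (κ ⊕ J) where
  T := {s | dmG s ∈ T}
  P := {q | ∃ p ∈ S, q = aeval (en (dm (fun i => (X i : MvPolynomial (κ ⊕ J) Qbar)))) p}
  hT s := by
    have key : ∀ p : MvPolynomial (BIdx κ J × BIdx κ J) Qbar,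
        aeval (fun i => (s i : ℂ)) (aeval (en (dm (fun i => (X i : MvPolynomial (κ ⊕ J) Qbar)))) p) =
        aeval (fun ij : BIdx κ J × BIdx κ J => (dmG s).1 ij.1 ij.2) p := by
      intro p
      rw [comp_aeval_apply]
      congr 2
      funext ij
      have h1 := congrFun (congrFun (dm_map
        ((aeval (fun i => (s i : ℂ)) : MvPolynomial (κ ⊕ J) Qbar →ₐ[Qbar] ℂ) :
          MvPolynomial (κ ⊕ J) Qbar →+* ℂ) (fun i => (X i : MvPolynomial (κ ⊕ J) Qbar))) ij.1) ij.2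
      rw [dmG_val]
      change _ = dm (fun i => (s i : ℂ)) ij.1 ij.2
      have h2 : (fun i => ((aeval (fun i => (s i : ℂ)) : MvPolynomial (κ ⊕ J) Qbar →ₐ[Qbar] ℂ) :
          MvPolynomial (κ ⊕ J) Qbar →+* ℂ) (X i)) = fun i => (s i : ℂ) := by
        funext i
        exact aeval_X _ _
      rw [h2] at h1
      exact h1
    constructor
    · rintro h _ ⟨p, hp, rfl⟩
      rw [key]
      change dmG s ∈ T at h
      rw [hS] at h
      exact h p hp
    · intro h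
      change dmG s ∈ T
      rw [hS]
      intro p hp
      have := h _ ⟨p, hp, rfl⟩
      rwa [key] at this
  heap a ha b hb d hd := by
    change dmG (a * b⁻¹ * d) ∈ T
    rw [map_mul, map_mul, map_inv]
    exact hheap _ ha _ hb _ hd
  s := s
  mem := hs

/-- the determinants of an element of `GL_2^κ × G_m^J`, and its components of rank one -/
noncomputable def dets (x : (κ → GL (Fin 2) ℂ) × (J → ℂˣ)) : κ ⊕ J → ℂˣ :=
  Sum.elim (fun k => Matrix.GeneralLinearGroup.det (x.1 k)) x.2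

/-- A torsor over `Qbar` containing a sum of irreducible, pairwise not twist-equivalent
objects of rank two and of objects of rank one. -/
theorem core {T : Set (GL (BIdx κ J) ℂ)} (hT : IsTorsor Qbar T)
    {c : (κ → GL (Fin 2) ℂ) × (J → ℂˣ)} (hc : blkGL c ∈ T)
    (hirr : ∀ k, Irr (c.1 k).1) (hiso : ∀ i j, i ≠ j → NonTw (c.1 i).1 (c.1 j).1)
    {x : (κ → GL (Fin 2) ℂ) × (J → ℂˣ)}
    (hx : ∀ χ : κ ⊕ J → ℤ, (∏ i, (dets c i : ℂ) ^ χ i) ∈ Qbar →
      ∏ i, (dets x i : ℂ) ^ χ i = ∏ i, (dets c i : ℂ) ^ χ i) : blkGL x ∈ T := by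
  have hgeo := geo_of_torsor hT
  obtain ⟨S, hS⟩ := hT.closed
  have h1 : dmG (dets c) ∈ T := by
    rw [dmG_apply]
    refine det_mem hgeo (y := c.2) hc hirr hiso (fun k => ?_) hc
    rw [det_d2]
    rfl
  have h2 := (torSit S hS hT.heap (dets c) h1).mem_of_relations (dets x) hx
  have h3 : dmG (dets x) ∈ T := h2
  rw [dmG_apply] at h3
  refine det_mem hgeo (y := x.2) hc hirr hiso (fun k => ?_) h3
  rw [det_d2]
  rfl

variable {ι : Type} [Fintype ι] [DecidableEq ι]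

/-- `Φ` is a morphism of torsors over `Qbar` from `GL_2^κ × G_m^J` to `GL_ι`: the entries of
`Φ x` are polynomials over `Qbar` in the entries of `x` and of `x⁻¹` (as block diagonal matrices),
and `Φ (x y⁻¹ z) = Φ x (Φ y)⁻¹ (Φ z)`. -/
structure IsMor (Φ : (κ → GL (Fin 2) ℂ) × (J → ℂˣ) → GL ι ℂ) : Prop where
  poly : ∃ F : ι → ι → MvPolynomial ((BIdx κ J × BIdx κ J) ⊕ (BIdx κ J × BIdx κ J)) Qbar,
    ∀ x i j, (Φ x).1 i j = aeval (Sum.elim (ent (blkGL x)) (ent (blkGL x)⁻¹)) (F i j)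
  heap : ∀ x y z, Φ (x * y⁻¹ * z) = Φ x * (Φ y)⁻¹ * Φ z

theorem isTorsor_pull {Φ : (κ → GL (Fin 2) ℂ) × (J → ℂˣ) → GL ι ℂ} (hΦ : IsMor Φ)
    {T₀ : Set (GL ι ℂ)} (hT₀ : IsTorsor Qbar T₀) {c : (κ → GL (Fin 2) ℂ) × (J → ℂˣ)}
    (hc : Φ c ∈ T₀) : IsTorsor Qbar {g : GL (BIdx κ J) ℂ | ∃ x, blkGL x = g ∧ Φ x ∈ T₀} where
  closed := by
    obtain ⟨S₀, hS₀⟩ := hT₀.closed
    obtain ⟨F, hF⟩ := hΦ.poly
    have hcl := fun p : MvPolynomial (ι × ι) Qbar =>
      clear_inverse (ι := BIdx κ J) (aeval (fun ij : ι × ι => F ij.1 ij.2) p)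
    choose M q hq using hcl
    have key : ∀ (p : MvPolynomial (ι × ι) Qbar) (x : (κ → GL (Fin 2) ℂ) × (J → ℂˣ)),
        aeval (ent (blkGL x)) (q p) = (blkGL x).1.det ^ M p *
          aeval (fun ij : ι × ι => (Φ x).1 ij.1 ij.2) p := by
      intro p x
      rw [hq, comp_aeval_apply]
      congr 3
      funext ij
      exact (hF x ij.1 ij.2).symm
    have hdet : ∀ g : GL (BIdx κ J) ℂ, g.1.det ≠ 0 := by
      intro g h0
      have h2 : g.1 * g⁻¹.1 = 1 := g.mul_inv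
      have h3 := congrArg Matrix.det h2
      rw [det_mul, h0, zero_mul, det_one] at h3
      exact zero_ne_one h3
    refine ⟨{p | ∃ u v, ¬inB u v ∧ p = X (u, v)} ∪ {r | ∃ p ∈ S₀, r = q p}, ?_⟩
    ext g
    constructor
    · rintro ⟨x, rfl, hx⟩ r (⟨u, v, huv, rfl⟩ | ⟨p, hp, rfl⟩)
      · rw [aeval_X]
        exact blk_off _ _ huv
      · have h1 := key p x
        rw [hS₀] at hx
        rw [hx p hp, mul_zero] at h1
        exact h1
    · intro hg
      obtain ⟨x, hx⟩ := exists_blkGL (g := g) (fun u v huv => by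
        have := hg _ (Or.inl ⟨u, v, huv, rfl⟩)
        rwa [aeval_X] at this)
      refine ⟨x, hx, ?_⟩
      rw [hS₀]
      intro p hp
      have h1 := hg _ (Or.inr ⟨p, hp, rfl⟩)
      have h2 := key p x
      rw [hx] at h2
      have h3 := h2.symm.trans h1
      exact (mul_eq_zero.1 h3).resolve_left (pow_ne_zero _ (hdet g))
  nonempty := ⟨blkGL c, c, rfl, hc⟩
  heap := by
    rintro _ ⟨x, rfl, hx⟩ _ ⟨y, rfl, hy⟩ _ ⟨z, rfl, hz⟩
    refine ⟨x * y⁻¹ * z, ?_, ?_⟩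
    · rw [map_mul, map_mul, map_inv]
    · rw [hΦ.heap]
      exact hT₀.heap _ hx _ hy _ hz

/-- `c` and `x` have the same image in the largest torus quotient, as far as the relations over
`Qbar` can tell -/
def SameRel (c x : (κ → GL (Fin 2) ℂ) × (J → ℂˣ)) : Prop :=
  ∀ χ : κ ⊕ J → ℤ, (∏ i, (dets c i : ℂ) ^ χ i) ∈ Qbar →
      ∏ i, (dets x i : ℂ) ^ χ i = ∏ i, (dets c i : ℂ) ^ χ i

theorem main {K : IntermediateField ℚ ℂ} (hK : K ≤ Qbar)
    {Φ : (κ → GL (Fin 2) ℂ) × (J → ℂˣ) → GL ι ℂ} (hΦ : IsMor Φ)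
    {c : (κ → GL (Fin 2) ℂ) × (J → ℂˣ)}
    (hirr : ∀ k, Irr (c.1 k).1) (hiso : ∀ i j, i ≠ j → NonTw (c.1 i).1 (c.1 j).1)
    {T : Set (GL ι ℂ)} (hT : IsTorsor K T) (hc : Φ c ∈ T)
    {x : (κ → GL (Fin 2) ℂ) × (J → ℂˣ)} (hx : SameRel c x) : Φ x ∈ T := by
  have hT' : IsTorsor Qbar T := ⟨closedOver_mono hK hT.closed, hT.nonempty, hT.heap⟩
  have h1 := core (isTorsor_pull hΦ hT' hc) (c := c) ⟨c, rfl, hc⟩ hirr hiso hx
  obtain ⟨x', hx', hx''⟩ := h1
  rwa [blkGL_injective hx'] at hx''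

end Pool.Agent.Lib.MPf11a48.GL2
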