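import Pool.Agent.Lib.MP_f11a48_ag.helper92.Lef3

/-! # Sums of objects of rank two: the torsors of periods -/

set_option autoImplicit false
set_option linter.unusedSectionVars false

namespace Pool.Agent.Lib.MPf11a48.GL2

open Matrix Module Pool.Agent.Lib.MPf11a48.Tors
open Pool.Agent.Lib.MPf11a48.CM hiding OmegaM

variable {ι : Type} [Fintype ι] [DecidableEq ι] {K : IntermediateField ℚ ℂ}

/-- `M = (K^ι, ℚ^ι, c)` is polarised of weight `w`: `(ψdR, ψB)` is a non-degenerate bilinear form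
on `M` with values in the object of rank one with period `(2 π i)^w`. -/
structure Polarised (K : IntermediateField ℚ ℂ) (w : ℤ) (c : GL ι ℂ) (ψdR : Matrix ι ι K)
    (ψB : Matrix ι ι ℚ) : Prop where
  det_ne : ψB.det ≠ 0
  pol : c.1ᵀ * ψB.map (algebraMap ℚ ℂ) * c.1 =
    (2 * Real.pi * Complex.I : ℂ) ^ w • ψdR.map (algebraMap K ℂ)

/-- Over `Qbar` (for both structures), the object with period isomorphism `c` is a direct sum of
objects `d b` of rank two which have no sub-object of rank one, and with determinant the object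
of rank one with period `(2 π i)^w`. -/
def SumOfRankTwo (w : ℤ) (c : GL ι ℂ) : Prop :=
  ∃ (B : Type) (_ : Fintype B) (_ : DecidableEq B) (d : B → GL (Fin 2) ℂ),
    Nonempty (SumData c d) ∧ (∀ b, Irr (d b).1) ∧
      ∀ b, ∃ α : Qbar, (d b).1.det = (2 * Real.pi * Complex.I : ℂ) ^ w * (α : ℂ)

/-- The pairs of matrices of the endomorphisms whose classes are in `S`. -/
def endsOf (hK : K ≤ Qbar) (S : Set (TPair K ι)) : Set (Matrix ι ι Qbar × Matrix ι ι Qbar) :=
  {p | ∃ (AdR : Matrix ι ι K) (AB : Matrix ι ι ℚ), endPair AdR AB ∈ S ∧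
    p = (AB.map (algebraMap ℚ Qbar), upQ hK AdR)}

/-- The endomorphisms over `Qbar` are spanned by the endomorphisms with classes in `S`. -/
def Spanned (hK : K ≤ Qbar) (c : GL ι ℂ) (S : Set (TPair K ι)) : Prop :=
  ∀ A A' : Matrix ι ι Qbar, c.1 * toC A' = toC A * c.1 →
    (A, A') ∈ Submodule.span Qbar (endsOf hK S)

theorem endCompat_of_spanned {hK : K ≤ Qbar} {c : GL ι ℂ} {S : Set (TPair K ι)}
    (h : Spanned hK c S) {f : GL ι ℂ} (hf : f ∈ OmegaS S) : EndCompat c f := by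
  intro A A' hA
  have key : ∀ p ∈ Submodule.span Qbar (endsOf hK S), f.1 * toC p.2 = toC p.1 * f.1 := by
    intro p hp
    induction hp using Submodule.span_induction with
    | mem p hp =>
      obtain ⟨AdR, AB, hAS, rfl⟩ := hp
      have h1 := comm_iff_fixes.1 (hf _ hAS)
      rw [toC_ratM, toC_upQ]
      exact h1
    | zero =>
      have hz : toC (0 : Matrix ι ι Qbar) = 0 := by
        refine Matrix.ext fun i j => ?_
        simp
      rw [Prod.fst_zero, Prod.snd_zero, hz, Matrix.mul_zero, Matrix.zero_mul]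
    | add p q _ _ hp hq =>
      have ha : ∀ M N : Matrix ι ι Qbar, toC (M + N) = toC M + toC N := by
        intro M N
        refine Matrix.ext fun i j => ?_
        simp
      rw [Prod.fst_add, Prod.snd_add, ha, ha, Matrix.mul_add, Matrix.add_mul, hp, hq]
    | smul a p _ hp =>
      have ha : ∀ M : Matrix ι ι Qbar, toC (a • M) = ((a : Qbar) : ℂ) • toC M := by
        intro M
        refine Matrix.ext fun i j => ?_
        simp
      rw [Prod.smul_fst, Prod.smul_snd, ha, ha, Matrix.mul_smul, Matrix.smul_mul, hp]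
  exact key _ (h A A' hA)

theorem tw_val (τ : ℂ ≃+* ℂ) (g : GL ι ℂ) : (tw τ g).1 = g.1.map τ := rfl

theorem tw_sim {τ : ℂ ≃+* ℂ} (hτ : FixesField K τ) {ψB : Matrix ι ι ℚ} {ψdR : Matrix ι ι K}
    {f : GL ι ℂ} {μ : ℂ}
    (h : f.1ᵀ * ψB.map (algebraMap ℚ ℂ) * f.1 = μ • ψdR.map (algebraMap K ℂ)) :
    (tw τ f).1ᵀ * ψB.map (algebraMap ℚ ℂ) * (tw τ f).1 = τ μ • ψdR.map (algebraMap K ℂ) := by
  have e1 : (ψB.map (algebraMap ℚ ℂ)).map τ = ψB.map (algebraMap ℚ ℂ) := by
    refine Matrix.ext fun i j => ?_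
    simp
  have e2 : (μ • ψdR.map (algebraMap K ℂ)).map τ = τ μ • ψdR.map (algebraMap K ℂ) := by
    refine Matrix.ext fun i j => ?_
    simp only [map_apply, Matrix.smul_apply, smul_eq_mul, map_mul]
    congr 1
    exact hτ _ (ψdR i j).2
  have h1 := congrArg (fun N : Matrix ι ι ℂ => N.map τ) h
  simp only [Matrix.map_mul] at h1
  rw [e1, e2] at h1
  rw [tw_val, ← h1, transpose_map]

/-- the main theorem on sums of objects of rank two -/
theorem mainB (hK : K ≤ Qbar) {w : ℤ} (hw : w ≠ 0) {c : GL ι ℂ} {ψdR : Matrix ι ι K}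
    {ψB : Matrix ι ι ℚ} (hpol : Polarised K w c ψdR ψB) (hsum : SumOfRankTwo w c) :
    (∀ f ∈ OmegaLef c ψB ψdR, ∀ τ, FixesField K τ → tw τ f ∈ OmegaM K c) ∧
    ∀ S : Set (TPair K ι), (∀ α ∈ S, Fixes c α) → polPair ψdR ψB ∈ S →
      ((∀ f ∈ OmegaS S, ∃ τ, FixesField K τ ∧ EndCompat c (tw τ f)) →
        OmegaM K c = OmegaS S ∧ OmegaDRB K c = OmegaS S) ∧
      (Spanned hK c S → OmegaM K c = OmegaS S ∧ OmegaDRB K c = OmegaS S ∧
        OmegaS S = OmegaLef c ψB ψdR) := by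
  obtain ⟨B, _, _, d, ⟨D⟩, hirr, hα⟩ := hsum
  have h1 : OmegaLef c ψB ψdR ⊆ OmegaM K c :=
    omegaLef_subset hK hpol.det_ne hw hpol.pol D hirr hα
  have h2 : ∀ f ∈ OmegaM K c, ∀ τ, FixesField K τ → tw τ f ∈ OmegaM K c :=
    fun f hf τ hτ T hT hcT => hT.closed.tw_mem hτ (hf T hT hcT)
  refine ⟨fun f hf τ hτ => h2 f (h1 hf) τ hτ, ?_⟩
  intro S hS hP
  have h3 := OmegaM_subset_OmegaDRB K c
  have h4 : OmegaDRB K c ⊆ OmegaS S := drb_subset hS
  have main : (∀ f ∈ OmegaS S, ∃ τ, FixesField K τ ∧ EndCompat c (tw τ f)) →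
      OmegaM K c = OmegaS S ∧ OmegaDRB K c = OmegaS S := by
    intro hE
    have h5 : OmegaS S ⊆ OmegaM K c := by
      intro f hf
      obtain ⟨τ, hτ, hτf⟩ := hE f hf
      obtain ⟨μ, hμ⟩ := sim_of_fixes hpol.det_ne (hf _ hP)
      have h6 := h2 _ (h1 ⟨hτf, τ μ, tw_sim hτ hμ⟩) τ.symm hτ.symm
      rwa [tw_symm_tw] at h6
    exact ⟨(h3.trans h4).antisymm h5, h4.antisymm (h5.trans h3)⟩
  refine ⟨main, fun hsp => ?_⟩
  have hE : ∀ f ∈ OmegaS S, EndCompat c f := fun f hf => endCompat_of_spanned hsp hf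
  have hone : ∀ f : GL ι ℂ, tw (RingEquiv.refl ℂ) f = f := by
    intro f
    apply Units.ext
    rfl
  obtain ⟨h5, h6⟩ := main fun f hf => ⟨RingEquiv.refl ℂ, fun y _ => rfl, by
    rw [hone]
    exact hE f hf⟩
  refine ⟨h5, h6, Set.Subset.antisymm (fun f hf => ⟨hE f hf, sim_of_fixes hpol.det_ne (hf _ hP)⟩)
    ?_⟩
  rw [← h5]
  exact h1

end Pool.Agent.Lib.MPf11a48.GL2
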