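import Pool.Agent.Lib.MP_f11a48_ag.helper92.Rat
import Pool.Agent.Lib.MP_f11a48_ag.helper4.Main

/-! # Closed subsets of `GL_n(ℂ)` over `Qbar`: polynomials, forms, points over `Qbar` -/

set_option autoImplicit false

namespace Pool.Agent.Lib.MPf11a48.GL2

open Matrix MvPolynomial Pool.Agent.Lib.MPf11a48.CM Pool.Agent.Lib.MPf11a48.Tors

variable {n : Type} [Fintype n] [DecidableEq n]

/-- the entries of a matrix as an assignment of variables -/
def en {R : Type} (M : Matrix n n R) : n × n → R := fun v => M v.1 v.2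

theorem en_ent (g : GL n ℂ) : en g.1 = ent g := rfl

/-- the complex polynomials vanishing on `T` -/
def van (T : Set (GL n ℂ)) : Set (MvPolynomial (n × n) ℂ) := {p | ∀ f ∈ T, eval (en f.1) p = 0}

/-- coefficientwise application of a form -/
noncomputable def lp {V : Type} (l : Form) (p : MvPolynomial V ℂ) : MvPolynomial V Qbar :=
  ∑ m ∈ p.support, monomial m (l (coeff m p))

theorem coeff_lp {V : Type} (l : Form) (p : MvPolynomial V ℂ) (m : V →₀ ℕ) :
    coeff m (lp l p) = l (coeff m p) := by
  classical
  rw [lp, coeff_sum]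
  simp only [coeff_monomial]
  by_cases h : m ∈ p.support
  · rw [Finset.sum_eq_single m]
    · rw [if_pos rfl]
    · intro b _ hb
      rw [if_neg hb]
    · intro h'
      exact absurd h h'
  · rw [Finset.sum_eq_zero]
    · rw [MvPolynomial.notMem_support_iff.1 h, map_zero]
    · intro b hb
      rw [if_neg]
      rintro rfl
      exact h hb

theorem pderiv_lp {V : Type} (l : Form) (p : MvPolynomial V ℂ) (v : V) :
    pderiv v (lp l p) = lp l (pderiv v p) := by
  refine MvPolynomial.ext _ _ fun m => ?_
  rw [coeff_pderiv, coeff_lp, coeff_lp, coeff_pderiv]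
  have h : ((m v : ℂ) + 1) = (((m v : Qbar) + 1 : Qbar) : ℂ) := by push_cast; rfl
  rw [h, form_mul]

theorem eval_lp {V : Type} (l : Form) (p : MvPolynomial V ℂ) (x : V → Qbar) :
    eval x (lp l p) = l (eval (fun v => ((x v : Qbar) : ℂ)) p) := by
  rw [lp, map_sum, eval_eq, map_sum]
  refine Finset.sum_congr rfl fun m _ => ?_
  rw [eval_monomial]
  have h : (∏ i ∈ m.support, ((x i : Qbar) : ℂ) ^ m i) =
      (((m.prod fun i e => x i ^ e : Qbar)) : ℂ) := by
    rw [Finsupp.prod]
    change _ = algebraMap Qbar ℂ _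
    rw [map_prod]
    refine Finset.prod_congr rfl fun i _ => ?_
    rw [map_pow]
    rfl
  rw [h, form_mul]

/-- a complex polynomial is a combination of the polynomials `lp l p` -/
theorem exists_lp {V : Type} (p : MvPolynomial V ℂ) :
    ∃ (m : ℕ) (β : Fin m → ℂ) (l : Fin m → Form),
      p = ∑ i, C (β i) * map (algebraMap Qbar ℂ) (lp (l i) p) := by
  obtain ⟨m, β, l, h⟩ := exists_expansion (J := {s // s ∈ p.support}) (fun s => coeff s.1 p)
  refine ⟨m, β, l, MvPolynomial.ext _ _ fun s => ?_⟩
  rw [coeff_sum]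
  simp only [coeff_C_mul, coeff_map, coeff_lp]
  by_cases hs : s ∈ p.support
  · exact h ⟨s, hs⟩
  · rw [MvPolynomial.notMem_support_iff.1 hs]
    simp

theorem eval_map_Qbar {V : Type} (q : MvPolynomial V Qbar) (z : V → ℂ) :
    eval z (map (algebraMap Qbar ℂ) q) = aeval z q := by
  rw [eval_map]
  rfl

/-- the properties of a torsor over `Qbar` that are used -/
structure Geo (T : Set (GL n ℂ)) : Prop where
  nonempty : T.Nonempty
  heap : ∀ a ∈ T, ∀ b ∈ T, ∀ d ∈ T, a * b⁻¹ * d ∈ T
  closed : ∀ f : GL n ℂ, (∀ p ∈ van T, eval (en f.1) p = 0) → f ∈ T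
  dense : ∀ q : MvPolynomial (n × n) ℂ,
    (∀ x : GL n Qbar, glC x ∈ T → eval (en (toC x.1)) q = 0) → q ∈ van T

theorem closedOver_mono {K L : IntermediateField ℚ ℂ} (h : K ≤ L) {T : Set (GL n ℂ)}
    (hT : ClosedOver K T) : ClosedOver L T :=
  closedOver_of_stable L hT.closedC fun _ hτ _ hg => hT.tw_mem (fun z hz => hτ z (h hz)) hg

theorem geo_of_torsor {T : Set (GL n ℂ)} (hT : IsTorsor Qbar T) : Geo T := by
  obtain ⟨S, hS⟩ := hT.closed
  refine ⟨hT.nonempty, hT.heap, fun f hf => ?_, fun q hq f hf => ?_⟩
  · rw [hS]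
    intro p hp
    have h1 := hf (map (algebraMap Qbar ℂ) p) (by
      intro g hg
      rw [eval_map_Qbar]
      rw [hS] at hg
      exact hg p hp)
    rw [eval_map_Qbar] at h1
    exact h1
  · -- every `lp l q` vanishes at `f`
    have key : ∀ l : Form, aeval (en f.1) (lp l q) = 0 := by
      intro l
      have hdet : ∀ {A : Type} [CommRing A] [Algebra Qbar A] (M : Matrix n n A),
          aeval (en M) (Matrix.mvPolynomialX n n Qbar).det = M.det := by
        intro A _ _ M
        rw [AlgHom.map_det]
        congr 1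
        refine Matrix.ext fun i j => ?_
        simp [Matrix.mvPolynomialX, en]
      have h1 := null S (en f.1) (by
        intro p hp
        rw [hS] at hf
        exact hf p hp) (lp l q * (Matrix.mvPolynomialX n n Qbar).det) (by
        intro x hx
        rw [map_mul]
        by_cases hd : aeval x (Matrix.mvPolynomialX n n Qbar).det = (0 : Qbar)
        · rw [hd, mul_zero]
        · let M : Matrix n n Qbar := Matrix.of fun i j => x (i, j)
          have hM : en M = x := rfl
          have hMd : M.det ≠ 0 := by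
            rw [← hdet M, hM]
            exact hd
          let g : GL n Qbar := Matrix.GeneralLinearGroup.mkOfDetNeZero M hMd
          have hg : glC g ∈ T := by
            rw [hS]
            intro p hp
            have h2 := hx p hp
            have h3 : aeval (fun ij : n × n => ((M ij.1 ij.2 : Qbar) : ℂ)) p =
                algebraMap Qbar ℂ (aeval x p) := aeval_Qbar x p
            rw [h2, map_zero] at h3
            exact h3
          have h4 := hq g hg
          have h5 : aeval x (lp l q) = l (eval (fun v => ((x v : Qbar) : ℂ)) q) := eval_lp l q x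
          have h6 : (fun v => ((x v : Qbar) : ℂ)) = en (toC g.1) := rfl
          rw [h5, h6, h4, map_zero, zero_mul])
      rw [map_mul, hdet] at h1
      refine (mul_eq_zero.1 h1).resolve_right ?_
      intro h0
      have h2 : f.1 * f⁻¹.1 = 1 := f.mul_inv
      have h3 := congrArg Matrix.det h2
      rw [det_mul, h0, zero_mul, det_one] at h3
      exact zero_ne_one h3
    obtain ⟨m, β, l, h⟩ := exists_lp q
    rw [h, map_sum]
    refine Finset.sum_eq_zero fun i _ => ?_
    rw [map_mul, eval_map_Qbar, key, mul_zero]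

variable {T : Set (GL n ℂ)}

theorem Geo.exists_pt (h : Geo T) : ∃ x : GL n Qbar, glC x ∈ T := by
  by_contra hcon
  push Not at hcon
  obtain ⟨f, hf⟩ := h.nonempty
  have h1 := h.dense 1 (fun x hx => absurd hx (hcon x)) f hf
  rw [map_one] at h1
  exact one_ne_zero h1

theorem Geo.lp_mem (h : Geo T) (l : Form) {p : MvPolynomial (n × n) ℂ} (hp : p ∈ van T) :
    map (algebraMap Qbar ℂ) (lp l p) ∈ van T := by
  refine h.dense _ fun x hx => ?_
  have h1 : eval (en (toC x.1)) (map (algebraMap Qbar ℂ) (lp l p)) =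
      algebraMap Qbar ℂ (eval (en x.1) (lp l p)) := by
    rw [eval_map_Qbar]
    exact aeval_Qbar (en x.1) (lp l p)
  have h2 : eval (en x.1) (lp l p) = l (eval (en (toC x.1)) p) := eval_lp l p (en x.1)
  have h3 : eval (en (toC x.1)) p = 0 := hp (glC x) hx
  rw [h1, h2, h3, LinearMap.map_zero, RingHom.map_zero]

end Pool.Agent.Lib.MPf11a48.GL2
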