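import Pool.Agent.Lib.MP_f11a48_ag.helper92.Semi

/-! # Products of `SL_2` act on a torsor of block diagonal matrices -/

set_option autoImplicit false
set_option linter.unusedSectionVars false

namespace Pool.Agent.Lib.MPf11a48.GL2

open Matrix Pool.Agent.Lib.MPf11a48.CM Pool.Agent.Lib.MPf11a48.Tors

/-- the matrix `[1, s; 0, 1]` -/
noncomputable def up (s : ℂ) : GL (Fin 2) ℂ :=
  Matrix.GeneralLinearGroup.mkOfDetNeZero !![1, s; 0, 1] (by simp)

/-- the matrix `[1, 0; s, 1]` -/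
noncomputable def lo (s : ℂ) : GL (Fin 2) ℂ :=
  Matrix.GeneralLinearGroup.mkOfDetNeZero !![1, 0; s, 1] (by simp)

theorem up_val (s : ℂ) : (up s).1 = !![1, s; 0, 1] := rfl
theorem lo_val (s : ℂ) : (lo s).1 = !![1, 0; s, 1] := rfl

/-- a set closed under multiplication by elementary matrices contains `SL_2(ℂ)` -/
theorem sl2_gen {S : Set (GL (Fin 2) ℂ)} (hmul : ∀ a ∈ S, ∀ b ∈ S, a * b ∈ S)
    (hup : ∀ s, up s ∈ S) (hlo : ∀ s, lo s ∈ S) {g : GL (Fin 2) ℂ} (hg : g.1.det = 1) : g ∈ S := by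
  have key : ∀ g : GL (Fin 2) ℂ, g.1.det = 1 → g.1 1 0 ≠ 0 → g ∈ S := by
    intro g hg hc
    have hd := hg
    rw [det_fin_two] at hd
    have e : g = up ((g.1 0 0 - 1) / g.1 1 0) * lo (g.1 1 0) * up ((g.1 1 1 - 1) / g.1 1 0) := by
      apply Units.ext
      change g.1 = (up _).1 * (lo _).1 * (up _).1
      rw [up_val, up_val, lo_val]
      refine ext2 ?_ ?_ ?_ ?_
      · simp [Matrix.mul_apply, Fin.sum_univ_two]
        field_simp
        ring
      · simp [Matrix.mul_apply, Fin.sum_univ_two]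
        field_simp
        linear_combination -hd
      · simp [Matrix.mul_apply, Fin.sum_univ_two]
      · simp [Matrix.mul_apply, Fin.sum_univ_two]
        field_simp
        ring
    rw [e]
    exact hmul _ (hmul _ (hup _) _ (hlo _)) _ (hup _)
  by_cases hc : g.1 1 0 = 0
  · have hd := hg
    rw [det_fin_two, hc, mul_zero, sub_zero] at hd
    have h00 : g.1 0 0 ≠ 0 := left_ne_zero_of_mul_eq_one hd
    have h1 : (lo 1 * g).1 1 0 ≠ 0 := by
      change ((lo 1).1 * g.1) 1 0 ≠ 0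
      rw [lo_val]
      simp [Matrix.mul_apply, Fin.sum_univ_two, hc, h00]
    have h2 : (lo 1 * g).1.det = 1 := by
      change ((lo 1).1 * g.1).det = 1
      rw [det_mul, hg, lo_val]
      simp
    have h3 := key _ h2 h1
    have h4 : g = lo (-1) * (lo 1 * g) := by
      have : lo (-1) * lo 1 = 1 := by
        apply Units.ext
        change (lo (-1)).1 * (lo 1).1 = 1
        rw [lo_val, lo_val]
        refine ext2 ?_ ?_ ?_ ?_ <;> simp [Matrix.mul_apply, Fin.sum_univ_two]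
      rw [← mul_assoc, this, one_mul]
    rw [h4]
    exact hmul _ (hlo _) _ h3
  · exact key g hg hc

variable {κ J : Type} [Fintype κ] [Fintype J] [DecidableEq κ] [DecidableEq J]
  {T : Set (GL (BIdx κ J) ℂ)}

theorem unip_mem (h : Geo T) {c : (κ → GL (Fin 2) ℂ) × (J → ℂˣ)} (hc : blkGL c ∈ T)
    (hirr : ∀ k, Irr (c.1 k).1) (hiso : ∀ i j, i ≠ j → NonTw (c.1 i).1 (c.1 j).1)
    (k : κ) {a : M2 ℂ} (ha : a.trace = 0) (ha2 : a * a = 0) {u : GL (Fin 2) ℂ}
    (hu : u.1 = 1 + a) {f : GL (BIdx κ J) ℂ} (hf : f ∈ T) :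
    blkGL (Pi.mulSingle k u, (1 : J → ℂˣ)) * f ∈ T := by
  have hM := single_mem_lie h hc hirr hiso k ha
  refine h.one_add_mul_mem ?_ hM hf ?_
  · rw [blk_mul, single_mul_single, ha2, Pi.single_zero, zero_mul]
    have := blk_smul (0 : ℂ) (0 : κ → M2 ℂ) (0 : J → ℂ)
    rw [zero_smul, smul_zero, smul_zero] at this
    exact this.symm
  · rw [blkGL_val, ← blk_one, blk_add]
    congr 1
    · funext k'
      change ((Pi.mulSingle k u : κ → GL (Fin 2) ℂ) k').1 = _
      by_cases hk : k' = k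
      · subst hk
        rw [Pi.mulSingle_eq_same, Pi.add_apply, Pi.single_eq_same, hu]
        rfl
      · rw [Pi.mulSingle_eq_of_ne hk, Pi.add_apply, Pi.single_eq_of_ne hk, add_zero]
        rfl
    · rw [add_zero]
      rfl

theorem sl2_single_mem (h : Geo T) {c : (κ → GL (Fin 2) ℂ) × (J → ℂˣ)} (hc : blkGL c ∈ T)
    (hirr : ∀ k, Irr (c.1 k).1) (hiso : ∀ i j, i ≠ j → NonTw (c.1 i).1 (c.1 j).1)
    (k : κ) {u : GL (Fin 2) ℂ} (hu : u.1.det = 1) {f : GL (BIdx κ J) ℂ} (hf : f ∈ T) :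
    blkGL (Pi.mulSingle k u, (1 : J → ℂˣ)) * f ∈ T := by
  have key : u ∈ {u : GL (Fin 2) ℂ | ∀ f ∈ T, blkGL (Pi.mulSingle k u, (1 : J → ℂˣ)) * f ∈ T} := by
    refine sl2_gen ?_ ?_ ?_ hu
    · intro a ha b hb f hf
      have h1 : ((Pi.mulSingle k (a * b) : κ → GL (Fin 2) ℂ), (1 : J → ℂˣ)) =
          ((Pi.mulSingle k a : κ → GL (Fin 2) ℂ), (1 : J → ℂˣ)) *
          ((Pi.mulSingle k b : κ → GL (Fin 2) ℂ), (1 : J → ℂˣ)) := by
        rw [Prod.mk_mul_mk, Pi.mulSingle_mul, one_mul]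
      rw [h1, map_mul, mul_assoc]
      exact ha _ (hb _ hf)
    · intro s f hf
      refine unip_mem h hc hirr hiso k (a := s • mE ℂ) ?_ ?_ ?_ hf
      · rw [trace_smul, trace_mE, smul_zero]
      · refine ext2 ?_ ?_ ?_ ?_ <;> simp [mE, Matrix.mul_apply, Fin.sum_univ_two]
      · rw [up_val]
        refine ext2 ?_ ?_ ?_ ?_ <;> simp [mE]
    · intro s f hf
      refine unip_mem h hc hirr hiso k (a := s • mF ℂ) ?_ ?_ ?_ hf
      · rw [trace_smul, trace_mF, smul_zero]
      · refine ext2 ?_ ?_ ?_ ?_ <;> simp [mF, Matrix.mul_apply, Fin.sum_univ_two]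
      · rw [lo_val]
        refine ext2 ?_ ?_ ?_ ?_ <;> simp [mF]
  exact key f hf

theorem sl2_prod_mem (h : Geo T) {c : (κ → GL (Fin 2) ℂ) × (J → ℂˣ)} (hc : blkGL c ∈ T)
    (hirr : ∀ k, Irr (c.1 k).1) (hiso : ∀ i j, i ≠ j → NonTw (c.1 i).1 (c.1 j).1)
    {u : κ → GL (Fin 2) ℂ} (hu : ∀ k, (u k).1.det = 1) {f : GL (BIdx κ J) ℂ} (hf : f ∈ T) :
    blkGL (u, (1 : J → ℂˣ)) * f ∈ T := by
  have key : ∀ s : Finset κ, ∀ u : κ → GL (Fin 2) ℂ, (∀ k, (u k).1.det = 1) →
      (∀ k, k ∉ s → u k = 1) → blkGL (u, (1 : J → ℂˣ)) * f ∈ T := by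
    intro s
    induction s using Finset.induction_on with
    | empty =>
      intro u _ hu
      have h1 : (u, (1 : J → ℂˣ)) = 1 :=
        Prod.ext (funext fun k => hu k (Finset.notMem_empty k)) rfl
      rw [h1, map_one, one_mul]
      exact hf
    | insert k s hk ih =>
      intro u hu hu1
      have h1 : (u, (1 : J → ℂˣ)) = ((Pi.mulSingle k (u k) : κ → GL (Fin 2) ℂ), (1 : J → ℂˣ)) *
          (Function.update u k 1, (1 : J → ℂˣ)) := by
        rw [Prod.mk_mul_mk, one_mul]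
        congr 1
        funext k'
        rw [Pi.mul_apply]
        by_cases hk' : k' = k
        · subst hk'
          rw [Pi.mulSingle_eq_same, Function.update_self, mul_one]
        · rw [Pi.mulSingle_eq_of_ne hk', Function.update_of_ne hk', one_mul]
      rw [h1, map_mul, mul_assoc]
      refine sl2_single_mem h hc hirr hiso k (hu k) (ih _ ?_ ?_)
      · intro k'
        by_cases hk' : k' = k
        · subst hk'
          rw [Function.update_self]
          exact det_one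
        · rw [Function.update_of_ne hk']
          exact hu k'
      · intro k' hk'
        by_cases hkk : k' = k
        · subst hkk
          rw [Function.update_self]
        · rw [Function.update_of_ne hkk]
          exact hu1 k' fun hmem => (Finset.mem_insert.1 hmem).elim hkk hk'
  exact key Finset.univ u hu fun k hk => absurd (Finset.mem_univ k) hk

/-- the torsor only depends on the determinants -/
theorem det_mem (h : Geo T) {c : (κ → GL (Fin 2) ℂ) × (J → ℂˣ)} (hc : blkGL c ∈ T)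
    (hirr : ∀ k, Irr (c.1 k).1) (hiso : ∀ i j, i ≠ j → NonTw (c.1 i).1 (c.1 j).1)
    {f g : κ → GL (Fin 2) ℂ} {y : J → ℂˣ} (hfg : ∀ k, (f k).1.det = (g k).1.det)
    (hf : blkGL (f, y) ∈ T) : blkGL (g, y) ∈ T := by
  have h1 : (g, y) = (fun k => g k * (f k)⁻¹, (1 : J → ℂˣ)) * (f, y) := by
    rw [Prod.mk_mul_mk, one_mul]
    congr 1
    funext k
    rw [Pi.mul_apply, inv_mul_cancel_right]
  rw [h1, map_mul]
  refine sl2_prod_mem h hc hirr hiso (fun k => ?_) hf
  change ((g k).1 * (f k)⁻¹.1).det = 1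
  have h2 := congrArg Matrix.det (gl_mul_inv (f k))
  rw [det_mul, det_one] at h2
  rw [det_mul, ← hfg, h2]

end Pool.Agent.Lib.MPf11a48.GL2
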