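import Pool.Agent.Lib.MP_f11a48_ag.helper92.Rat

/-! # Lie algebras of families of two by two matrices with two rational structures -/

set_option autoImplicit false

namespace Pool.Agent.Lib.MPf11a48.GL2

open Matrix Pool.Agent.Lib.MPf11a48.CM

/-- `2 × 2` matrices -/
abbrev M2 (k : Type) : Type := Matrix (Fin 2) (Fin 2) k

/-- no line over `Qbar` is mapped to a line over `Qbar` -/
def Irr (c : M2 ℂ) : Prop :=
  ∀ v v' : Fin 2 → Qbar, v ≠ 0 → v' ≠ 0 → ∀ μ : ℂ,
    c *ᵥ (fun i => ((v' i : Qbar) : ℂ)) ≠ μ • (fun i => ((v i : Qbar) : ℂ))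

/-- the objects defined by `c` and `d` are not isomorphic over `Qbar` -/
def Noniso (c d : M2 ℂ) : Prop :=
  ∀ g g' : M2 Qbar, g.det ≠ 0 → g'.det ≠ 0 → c * toC g' ≠ toC g * d

/-- the traceless part -/
noncomputable def tf : M2 ℂ →ₗ[ℂ] M2 ℂ where
  toFun M := M - (M.trace / 2) • 1
  map_add' A B := by rw [trace_add, add_div, add_smul]; abel
  map_smul' t A := by
    rw [trace_smul, RingHom.id_apply, smul_sub, smul_smul, smul_eq_mul, mul_div_assoc]

theorem tf_apply (M : M2 ℂ) : tf M = M - (M.trace / 2) • 1 := rfl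

theorem trace_tf (M : M2 ℂ) : (tf M).trace = 0 := by
  rw [tf_apply, trace_sub, trace_smul, trace_one, Fintype.card_fin, smul_eq_mul]
  push_cast
  ring

theorem tf_of_trace {M : M2 ℂ} (h : M.trace = 0) : tf M = M := by
  rw [tf_apply, h, zero_div, zero_smul, sub_zero]

theorem form_half (l : Form) (z : ℂ) : l (z / 2) = l z / 2 := by
  have h1 : l z = l (z / 2) + l (z / 2) := by rw [← map_add, add_halves]
  rw [h1]
  ring

theorem tf_app1 (l : Form) (M : M2 ℂ) : tf (toC (app1 l M)) = toC (app1 l (tf M)) := by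
  have e : ∀ A : M2 ℂ, ∀ i j, (tf A) i j = A i j - (A 0 0 + A 1 1) / 2 * (1 : M2 ℂ) i j := by
    intro A i j
    rw [tf_apply, Matrix.sub_apply, Matrix.smul_apply, tr2, smul_eq_mul]
  have key : ∀ i j, (l ((tf M) i j) : Qbar) = l (M i j) - (l (M 0 0) + l (M 1 1)) / 2 *
      (1 : M2 Qbar) i j := by
    intro i j
    rw [e, map_sub]
    congr 1
    by_cases h : i = j
    · subst h
      rw [Matrix.one_apply_eq, Matrix.one_apply_eq, mul_one, mul_one, form_half, map_add]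
    · rw [Matrix.one_apply_ne h, Matrix.one_apply_ne h, mul_zero, mul_zero, map_zero]
  refine Matrix.ext fun i j => ?_
  rw [e]
  change ((l (M i j) : Qbar) : ℂ) - (((l (M 0 0) : Qbar) : ℂ) + ((l (M 1 1) : Qbar) : ℂ)) / 2 *
    (1 : M2 ℂ) i j = ((l ((tf M) i j) : Qbar) : ℂ)
  rw [key]
  push_cast
  congr 2
  by_cases h : i = j
  · subst h
    simp
  · simp [Matrix.one_apply_ne h]

theorem gl_mul_inv (c : GL (Fin 2) ℂ) : c.1 * c⁻¹.1 = 1 := c.mul_inv
theorem gl_inv_mul (c : GL (Fin 2) ℂ) : c⁻¹.1 * c.1 = 1 := c.inv_mul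

theorem gl_det_ne (c : GL (Fin 2) ℂ) : c.1.det ≠ 0 := by
  intro h
  have := congrArg Matrix.det (gl_mul_inv c)
  rw [det_mul, h, zero_mul, det_one] at this
  exact zero_ne_one this

theorem tf_conj (c : GL (Fin 2) ℂ) (M : M2 ℂ) : tf (c.1 * M * c⁻¹.1) = c.1 * tf M * c⁻¹.1 := by
  have h : (c.1 * M * c⁻¹.1).trace = M.trace := by
    rw [trace_mul_comm, ← mul_assoc, gl_inv_mul, one_mul]
  rw [tf_apply, tf_apply, h, mul_sub, sub_mul, mul_smul_comm, smul_mul_assoc, mul_one, gl_mul_inv]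

theorem tf_conj' (c : GL (Fin 2) ℂ) (M : M2 ℂ) : tf (c⁻¹.1 * M * c.1) = c⁻¹.1 * tf M * c.1 := by
  have := tf_conj c⁻¹ M
  rwa [inv_inv] at this

/-- every linear form on matrices is a trace form -/
theorem exists_trace_form (φ : M2 ℂ →ₗ[ℂ] ℂ) : ∃ W : M2 ℂ, ∀ M, φ M = (W * M).trace := by
  obtain ⟨W, hW⟩ : ∃ W : M2 ℂ, ∀ i j, W i j = φ (Matrix.single j i 1) :=
    ⟨Matrix.of fun i j => φ (Matrix.single j i 1), fun _ _ => rfl⟩
  refine ⟨W, fun M => ?_⟩
  have h1 : ∀ i j, φ (Matrix.single i j (M i j)) = M i j * φ (Matrix.single i j 1) := by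
    intro i j
    have : Matrix.single i j (M i j) = M i j • Matrix.single i j (1 : ℂ) := by
      rw [Matrix.smul_single, smul_eq_mul, mul_one]
    rw [this, map_smul, smul_eq_mul]
  have h2 : φ M = ∑ i, ∑ j, M i j * φ (Matrix.single i j 1) := by
    conv_lhs => rw [Matrix.matrix_eq_sum_single M]
    rw [map_sum]
    refine Finset.sum_congr rfl fun i _ => ?_
    rw [map_sum]
    exact Finset.sum_congr rfl fun j _ => h1 i j
  rw [h2, tr2, mul2, mul2]
  simp only [Fin.sum_univ_two, hW]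
  ring

/-- A subspace of `sl_2(ℂ)` which is rational for both structures is trivial, if `c` is
irreducible. -/
theorem full_of_irr {c : GL (Fin 2) ℂ} (hirr : Irr c.1) {U : Submodule ℂ (M2 ℂ)}
    (htr : ∀ M ∈ U, M.trace = 0) (hb : ∀ l : Form, ∀ M ∈ U, toC (app1 l M) ∈ U)
    (hc : ∀ l : Form, ∀ M ∈ U, c.1 * toC (app1 l (c⁻¹.1 * M * c.1)) * c⁻¹.1 ∈ U)
    {M₀ : M2 ℂ} (hM₀ : M₀ ∈ U) (hM₀0 : M₀ ≠ 0) {A : M2 ℂ} (hA : A.trace = 0) : A ∈ U := by
  by_contra hAU
  have cc := gl_mul_inv c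
  have cc' := gl_inv_mul c
  have hconj0 : ∀ M : M2 ℂ, c⁻¹.1 * M * c.1 = 0 → M = 0 := by
    intro M hM
    calc M = (c.1 * c⁻¹.1) * M * (c.1 * c⁻¹.1) := by rw [cc, one_mul, mul_one]
      _ = c.1 * (c⁻¹.1 * M * c.1) * c⁻¹.1 := by simp only [mul_assoc]
      _ = 0 := by rw [hM, mul_zero, zero_mul]
  -- a rational element of `U`
  have hex : ∀ M : M2 ℂ, M ≠ 0 → ∃ l : Form, app1 l M ≠ 0 := by
    intro M hM
    by_contra hcon
    push Not at hcon
    apply hM
    have : M ∈ (⊥ : Submodule ℂ (M2 ℂ)) := by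
      refine mem_of_app1 fun l => ?_
      rw [hcon l]
      refine (Submodule.mem_bot ℂ).2 (Matrix.ext fun i j => ?_)
      simp
    exact (Submodule.mem_bot ℂ).1 this
  obtain ⟨l, hl⟩ := hex M₀ hM₀0
  obtain ⟨l', hl'⟩ := hex (c⁻¹.1 * M₀ * c.1) (fun h => hM₀0 (hconj0 _ h))
  obtain ⟨X, hX⟩ : ∃ X, X = app1 l M₀ := ⟨_, rfl⟩
  obtain ⟨X', hX'⟩ : ∃ X', X' = app1 l' (c⁻¹.1 * M₀ * c.1) := ⟨_, rfl⟩
  rw [← hX] at hl
  rw [← hX'] at hl'
  have hXU : toC X ∈ U := hX ▸ hb l M₀ hM₀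
  have hXU' : c.1 * toC X' * c⁻¹.1 ∈ U := hX' ▸ hc l' M₀ hM₀
  have trQ : ∀ Y : M2 Qbar, (toC Y).trace = 0 → Y.trace = 0 := by
    intro Y hY
    rw [toC_trace] at hY
    exact (map_eq_zero (algebraMap Qbar ℂ)).1 hY
  have tr1 : X.trace = 0 := trQ X (htr _ hXU)
  have trc : ∀ Y : M2 ℂ, (c.1 * Y * c⁻¹.1).trace = Y.trace := by
    intro Y
    rw [trace_mul_comm, ← mul_assoc, cc', one_mul]
  have tr1' : X'.trace = 0 := trQ X' (by rw [← trc]; exact htr _ hXU')
  have hcX' : ∀ Y : M2 ℂ, c.1 * Y * c⁻¹.1 * c.1 = c.1 * Y := by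
    intro Y
    rw [mul_assoc (c.1 * Y), cc', mul_one]
  by_cases hcase : ∀ M ∈ U, ∃ t : ℂ, M = t • toC X
  · obtain ⟨t, ht⟩ := hcase _ hXU'
    have h1 : c.1 * toC X' = t • (toC X * c.1) := by
      rw [← hcX' (toC X'), ht, smul_mul_assoc]
    have ht0 : t ≠ 0 := by
      rintro rfl
      rw [zero_smul] at h1
      have h2 : toC X' = 0 := by
        calc toC X' = (c⁻¹.1 * c.1) * toC X' := by rw [cc', one_mul]
          _ = c⁻¹.1 * (c.1 * toC X') := by rw [mul_assoc]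
          _ = 0 := by rw [h1, mul_zero]
      exact toC_ne_zero hl' h2
    obtain ⟨v, v', hv, hv', μ, hμ⟩ := exists_line (gl_det_ne c) hl tr1 tr1' ht0 h1
    exact hirr v v' hv hv' μ hμ
  · push Not at hcase
    obtain ⟨M, hMU, hM⟩ := hcase
    -- a second rational element
    have hY : ∃ Y : M2 Qbar, toC Y ∈ U ∧ ∀ t : ℂ, toC Y ≠ t • toC X := by
      by_contra hcon
      push Not at hcon
      have h1 : M ∈ Submodule.span ℂ {toC X} := by
        refine mem_of_app1 fun l => ?_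
        obtain ⟨t, ht⟩ := hcon (app1 l M) (hb l M hMU)
        rw [ht]
        exact Submodule.smul_mem _ _ (Submodule.mem_span_singleton_self _)
      obtain ⟨t, ht⟩ := Submodule.mem_span_singleton.1 h1
      exact hM t ht.symm
    obtain ⟨Y, hYU, hYX⟩ := hY
    have hY' : ∃ Y' : M2 Qbar, c.1 * toC Y' * c⁻¹.1 ∈ U ∧ ∀ t : ℂ, toC Y' ≠ t • toC X' := by
      by_contra hcon
      push Not at hcon
      have h1 : ∀ M ∈ U, ∃ t : ℂ, c⁻¹.1 * M * c.1 = t • toC X' := by
        intro M hMU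
        have h2 : c⁻¹.1 * M * c.1 ∈ Submodule.span ℂ {toC X'} := by
          refine mem_of_app1 fun l => ?_
          obtain ⟨t, ht⟩ := hcon (app1 l (c⁻¹.1 * M * c.1)) (hc l M hMU)
          rw [ht]
          exact Submodule.smul_mem _ _ (Submodule.mem_span_singleton_self _)
        obtain ⟨t, ht⟩ := Submodule.mem_span_singleton.1 h2
        exact ⟨t, ht.symm⟩
      have h3 : ∀ M : M2 ℂ, ∀ t : ℂ, c⁻¹.1 * M * c.1 = t • toC X' →
          M = t • (c.1 * toC X' * c⁻¹.1) := by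
        intro M t ht
        calc M = (c.1 * c⁻¹.1) * M * (c.1 * c⁻¹.1) := by rw [cc, one_mul, mul_one]
          _ = c.1 * (c⁻¹.1 * M * c.1) * c⁻¹.1 := by simp only [mul_assoc]
          _ = _ := by rw [ht, mul_smul_comm, smul_mul_assoc]
      obtain ⟨s, hs⟩ := h1 _ hXU
      obtain ⟨t, ht⟩ := h1 _ hMU
      have e1 := h3 _ _ hs
      have e2 := h3 _ _ ht
      have hs0 : s ≠ 0 := by
        rintro rfl
        rw [zero_smul] at e1
        exact toC_ne_zero hl e1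
      apply hM (t / s)
      rw [e1, e2, smul_smul, div_mul_cancel₀ _ hs0]
    obtain ⟨Y', hYU', hYX'⟩ := hY'
    have trY : Y.trace = 0 := trQ Y (htr _ hYU)
    have trY' : Y'.trace = 0 := trQ Y' (by rw [← trc]; exact htr _ hYU')
    -- the orthogonal vector
    obtain ⟨φ, hφA, hφU⟩ := Submodule.exists_le_ker_of_notMem hAU
    obtain ⟨W₀, hW₀⟩ := exists_trace_form φ
    obtain ⟨W, hW⟩ : ∃ W, W = tf W₀ := ⟨_, rfl⟩
    have hWt : W.trace = 0 := by rw [hW]; exact trace_tf W₀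
    have hWM : ∀ M : M2 ℂ, M.trace = 0 → (W * M).trace = φ M := by
      intro M hM
      rw [hW, tf_apply, sub_mul, trace_sub, smul_mul_assoc, trace_smul, one_mul, hM, smul_zero,
        sub_zero, hW₀]
    have hWU : ∀ M ∈ U, (W * M).trace = 0 := by
      intro M hM
      rw [hWM M (htr M hM)]
      exact LinearMap.mem_ker.1 (hφU hM)
    have hW0 : W ≠ 0 := by
      intro h0
      apply hφA
      rw [← hWM A hA, h0, zero_mul, trace_zero]
    have trC : ∀ Z : M2 Qbar, Z.trace = 0 → (toC Z).trace = 0 := by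
      intro Z hZ
      rw [toC_trace, hZ]
      simp
    have hbr := bracket_ne_zero (trC X tr1) (trC Y trY) (toC_ne_zero hl) hYX
    have hbr' := bracket_ne_zero (trC X' tr1') (trC Y' trY') (toC_ne_zero hl') hYX'
    obtain ⟨s, hs⟩ := exists_smul_bracket (trC X tr1) (trC Y trY) hWt hbr (hWU _ hXU) (hWU _ hYU)
    have hWc : ∀ Z : M2 ℂ, (c⁻¹.1 * W * c.1 * Z).trace = (W * (c.1 * Z * c⁻¹.1)).trace := by
      intro Z
      rw [show c⁻¹.1 * W * c.1 * Z = c⁻¹.1 * (W * c.1 * Z) by simp only [mul_assoc],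
        trace_mul_comm]
      simp only [mul_assoc]
    have hWt' : (c⁻¹.1 * W * c.1).trace = 0 := by
      rw [trace_mul_comm, ← mul_assoc, cc, one_mul, hWt]
    obtain ⟨s', hs'⟩ := exists_smul_bracket (trC X' tr1') (trC Y' trY') hWt' hbr'
      (by rw [hWc]; exact hWU _ hXU') (by rw [hWc]; exact hWU _ hYU')
    have hs0 : s ≠ 0 := by
      rintro rfl
      rw [zero_smul] at hs
      exact hW0 hs
    have hs0' : s' ≠ 0 := by
      rintro rfl
      rw [zero_smul] at hs'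
      exact hW0 (hconj0 _ hs')
    have eZ : ∀ A B : M2 Qbar, toC A * toC B - toC B * toC A = toC (A * B - B * A) := by
      intro A B
      rw [← toC_mul, ← toC_mul]
      exact (Matrix.map_sub _ (map_sub (algebraMap Qbar ℂ)) _ _).symm
    rw [eZ] at hs hs' hbr hbr'
    have hfin : c.1 * toC (X' * Y' - Y' * X') = (s / s') • (toC (X * Y - Y * X) * c.1) := by
      have h1 : c.1 * (c⁻¹.1 * W * c.1) = W * c.1 := by
        rw [← mul_assoc, ← mul_assoc, cc, one_mul]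
      rw [hs', hs, mul_smul_comm, smul_mul_assoc] at h1
      rw [div_eq_inv_mul, ← smul_smul, ← h1, smul_smul, inv_mul_cancel₀ hs0', one_smul]
    have hZ : X * Y - Y * X ≠ 0 := by
      intro h0
      apply hbr
      rw [h0]
      refine Matrix.ext fun i j => ?_
      simp
    have t1 : (X * Y - Y * X).trace = 0 := by rw [trace_sub, trace_mul_comm, sub_self]
    have t2 : (X' * Y' - Y' * X').trace = 0 := by rw [trace_sub, trace_mul_comm, sub_self]
    obtain ⟨v, v', hv, hv', μ, hμ⟩ := exists_line (gl_det_ne c) hZ t1 t2 (div_ne_zero hs0 hs0') hfin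
    exact hirr v v' hv hv' μ hμ

end Pool.Agent.Lib.MPf11a48.GL2
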