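import Pool.Agent.Lib.MP_f11a48_ag.helper92.Exact
import Pool.Agent.Lib.MP_f11a48_ag.helper92.Pair

/-! # Sums of irreducible objects of rank two: the Lefschetz torsor -/

set_option autoImplicit false
set_option linter.unusedSectionVars false

namespace Pool.Agent.Lib.MPf11a48.GL2

open Matrix Module Pool.Agent.Lib.MPf11a48.Tors
open Pool.Agent.Lib.MPf11a48.CM hiding OmegaM

section PolyFn

variable {κ J : Type} [Fintype κ] [Fintype J] [DecidableEq κ] [DecidableEq J]

/-- polynomial functions over `Qbar` on `GL_2^κ × G_m^J` -/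
def PolyFn (F : (κ → GL (Fin 2) ℂ) × (J → ℂˣ) → ℂ) : Prop :=
  ∃ p : MvPolynomial ((BIdx κ J × BIdx κ J) ⊕ (BIdx κ J × BIdx κ J)) Qbar,
    ∀ x, F x = MvPolynomial.aeval (Sum.elim (ent (blkGL x)) (ent (blkGL x)⁻¹)) p

theorem PolyFn.const (a : Qbar) : PolyFn (fun _ : (κ → GL (Fin 2) ℂ) × (J → ℂˣ) => (a : ℂ)) :=
  ⟨MvPolynomial.C a, fun _ => by
    rw [MvPolynomial.algHom_C]
    rfl⟩

theorem PolyFn.mul {F G : (κ → GL (Fin 2) ℂ) × (J → ℂˣ) → ℂ} (hF : PolyFn F) (hG : PolyFn G) :
    PolyFn (fun x => F x * G x) := by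
  obtain ⟨p, hp⟩ := hF
  obtain ⟨q, hq⟩ := hG
  exact ⟨p * q, fun x => by rw [map_mul, ← hp, ← hq]⟩

theorem PolyFn.sum {A : Type} (s : Finset A) {F : A → (κ → GL (Fin 2) ℂ) × (J → ℂˣ) → ℂ}
    (hF : ∀ a, PolyFn (F a)) : PolyFn (fun x => ∑ a ∈ s, F a x) := by
  choose p hp using hF
  exact ⟨∑ a ∈ s, p a, fun x => by
    rw [map_sum]
    exact Finset.sum_congr rfl fun a _ => hp a x⟩

theorem PolyFn.entry (k : κ) (i j : Fin 2) :
    PolyFn (fun x : (κ → GL (Fin 2) ℂ) × (J → ℂˣ) => (x.1 k).1 i j) := by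
  refine ⟨MvPolynomial.X (Sum.inl (Sum.inl (i, k), Sum.inl (j, k))), fun x => ?_⟩
  rw [MvPolynomial.aeval_X, Sum.elim_inl]
  change _ = blk (fun k => (x.1 k).1) (fun j => (x.2 j : ℂ)) (Sum.inl (i, k)) (Sum.inl (j, k))
  rw [blk_ll]

/-- entries of products of polynomial matrices -/
theorem PolyFn.mat_mul {a b c : Type} [Fintype b]
    {F : (κ → GL (Fin 2) ℂ) × (J → ℂˣ) → Matrix a b ℂ}
    {G : (κ → GL (Fin 2) ℂ) × (J → ℂˣ) → Matrix b c ℂ}
    (hF : ∀ i j, PolyFn (fun x => F x i j)) (hG : ∀ i j, PolyFn (fun x => G x i j)) (i : a)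
    (j : c) : PolyFn (fun x => (F x * G x) i j) := by
  have : (fun x => (F x * G x) i j) = fun x => ∑ k, F x i k * G x k j := by
    funext x
    rw [Matrix.mul_apply]
  rw [this]
  exact PolyFn.sum _ fun k => (hF i k).mul (hG k j)

theorem PolyFn.toC {a b : Type} (M : Matrix a b Qbar) (i : a) (j : b) :
    PolyFn (fun _ : (κ → GL (Fin 2) ℂ) × (J → ℂˣ) => CM.toC M i j) := PolyFn.const (M i j)

theorem PolyFn.blockDiagonal {B : Type} [DecidableEq B]
    {F : (κ → GL (Fin 2) ℂ) × (J → ℂˣ) → B → Matrix (Fin 2) (Fin 2) ℂ}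
    (hF : ∀ b i j, PolyFn (fun x => F x b i j)) (u v : Fin 2 × B) :
    PolyFn (fun x => Matrix.blockDiagonal (F x) u v) := by
  by_cases h : u.2 = v.2
  · have : (fun x => Matrix.blockDiagonal (F x) u v) = fun x => F x u.2 u.1 v.1 := by
      funext x
      rw [blockDiagonal_apply, if_pos h]
    rw [this]
    exact hF _ _ _
  · have : (fun x => Matrix.blockDiagonal (F x) u v) = fun _ => ((0 : Qbar) : ℂ) := by
      funext x
      rw [blockDiagonal_apply, if_neg h]
      rfl
    rw [this]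
    exact PolyFn.const 0

end PolyFn

variable {B : Type} [Fintype B] [DecidableEq B]

/-- the matrix `g` from `τ` to `σ` -/
def eB {R : Type} [Zero R] (σ τ : B) (g : Matrix (Fin 2) (Fin 2) R) :
    Matrix (Fin 2 × B) (Fin 2 × B) R :=
  Matrix.of fun u v => if u.2 = σ ∧ v.2 = τ then g u.1 v.1 else 0

theorem blockDiagonal_eB {R : Type} [CommRing R] (D : B → Matrix (Fin 2) (Fin 2) R)
    (σ τ : B) (g : Matrix (Fin 2) (Fin 2) R) :
    blockDiagonal D * eB σ τ g = eB σ τ (D σ * g) := by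
  refine Matrix.ext fun u v => ?_
  obtain ⟨i, s⟩ := u
  obtain ⟨j, t⟩ := v
  simp only [Matrix.mul_apply, eB, Matrix.of_apply, blockDiagonal_apply, Fintype.sum_prod_type]
  by_cases h : s = σ
  · subst h
    by_cases ht : t = τ
    · subst ht
      simp
    · simp [ht]
  · rw [if_neg (fun h' => h h'.1)]
    refine Finset.sum_eq_zero fun k _ => Finset.sum_eq_zero fun r _ => ?_
    by_cases hs : s = r
    · subst hs
      simp [h]
    · rw [if_neg hs, zero_mul]

theorem eB_blockDiagonal {R : Type} [CommRing R] (D : B → Matrix (Fin 2) (Fin 2) R)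
    (σ τ : B) (g : Matrix (Fin 2) (Fin 2) R) :
    eB σ τ g * blockDiagonal D = eB σ τ (g * D τ) := by
  refine Matrix.ext fun u v => ?_
  obtain ⟨i, s⟩ := u
  obtain ⟨j, t⟩ := v
  simp only [Matrix.mul_apply, eB, Matrix.of_apply, blockDiagonal_apply, Fintype.sum_prod_type]
  by_cases h : t = τ
  · subst h
    by_cases hs : s = σ
    · subst hs
      simp
    · simp [hs]
  · rw [if_neg (fun h' => h h'.2)]
    refine Finset.sum_eq_zero fun k _ => Finset.sum_eq_zero fun r _ => ?_
    by_cases hr : r = t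
    · subst hr
      simp [h]
    · rw [if_neg hr, mul_zero]

theorem toC_eB (σ τ : B) (g : Matrix (Fin 2) (Fin 2) Qbar) :
    toC (eB σ τ g) = eB σ τ (toC g) := by
  refine Matrix.ext fun u v => ?_
  simp only [map_apply, eB, Matrix.of_apply]
  split_ifs <;> simp

/-- the block of index `(b, b')` -/
def bb {R : Type} (N : Matrix (Fin 2 × B) (Fin 2 × B) R) (b b' : B) :
    Matrix (Fin 2) (Fin 2) R := Matrix.of fun i j => N (i, b) (j, b')

theorem eB_mul_apply {R : Type} [CommRing R] (σ τ : B) (g : Matrix (Fin 2) (Fin 2) R)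
    (N : Matrix (Fin 2 × B) (Fin 2 × B) R) (i j : Fin 2) (t : B) :
    (eB σ τ g * N) (i, σ) (j, t) = (g * bb N τ t) i j := by
  simp only [Matrix.mul_apply, eB, Matrix.of_apply, bb, Fintype.sum_prod_type]
  refine Finset.sum_congr rfl fun k _ => ?_
  rw [Finset.sum_eq_single τ]
  · simp
  · intro s _ hs
    rw [if_neg (fun h => hs h.2), zero_mul]
  · intro h
    exact absurd (Finset.mem_univ τ) h

theorem mul_eB_apply {R : Type} [CommRing R] (σ τ : B) (g : Matrix (Fin 2) (Fin 2) R)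
    (N : Matrix (Fin 2 × B) (Fin 2 × B) R) (i j : Fin 2) (s : B) :
    (N * eB σ τ g) (i, s) (j, τ) = (bb N s σ * g) i j := by
  simp only [Matrix.mul_apply, eB, Matrix.of_apply, bb, Fintype.sum_prod_type]
  refine Finset.sum_congr rfl fun k _ => ?_
  rw [Finset.sum_eq_single σ]
  · simp
  · intro t _ ht
    rw [if_neg (fun h => ht h.1), mul_zero]
  · intro h
    exact absurd (Finset.mem_univ σ) h

theorem mul_eB_apply_ne {R : Type} [CommRing R] (σ τ : B) (g : Matrix (Fin 2) (Fin 2) R)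
    (N : Matrix (Fin 2 × B) (Fin 2 × B) R) (u : Fin 2 × B) (j : Fin 2) {t : B} (ht : t ≠ τ) :
    (N * eB σ τ g) u (j, t) = 0 := by
  simp only [Matrix.mul_apply, eB, Matrix.of_apply]
  refine Finset.sum_eq_zero fun k _ => ?_
  rw [if_neg (fun h => ht h.2), mul_zero]

variable {ι : Type} [Fintype ι] [DecidableEq ι]

/-- the bases over `Qbar` in which an object is a direct sum -/
structure SumData (c : GL ι ℂ) (d : B → GL (Fin 2) ℂ) where
  P : Matrix (Fin 2 × B) ι Qbar
  P' : Matrix ι (Fin 2 × B) Qbar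
  Q : Matrix ι (Fin 2 × B) Qbar
  Q' : Matrix (Fin 2 × B) ι Qbar
  h1 : P * P' = 1
  h2 : P' * P = 1
  h3 : Q * Q' = 1
  h4 : Q' * Q = 1
  hc : toC P * c.1 * toC Q = blockDiagonal (fun b => (d b).1)

/-- Compatibility of `f` with all endomorphisms over `Qbar` of the object with period isomorphism
`c`. -/
def EndCompat (c f : GL ι ℂ) : Prop :=
  ∀ A A' : Matrix ι ι Qbar, c.1 * toC A' = toC A * c.1 → f.1 * toC A' = toC A * f.1

namespace SumData

variable {c : GL ι ℂ} {d : B → GL (Fin 2) ℂ} (S : SumData c d)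

theorem h1C : toC S.P * toC S.P' = 1 := by rw [← toC_mul, S.h1, toC_one]
theorem h2C : toC S.P' * toC S.P = 1 := by rw [← toC_mul, S.h2, toC_one]
theorem h3C : toC S.Q * toC S.Q' = 1 := by rw [← toC_mul, S.h3, toC_one]
theorem h4C : toC S.Q' * toC S.Q = 1 := by rw [← toC_mul, S.h4, toC_one]

/-- the isomorphism with given blocks -/
noncomputable def asm (h : B → GL (Fin 2) ℂ) : GL ι ℂ where
  val := toC S.P' * blockDiagonal (fun b => (h b).1) * toC S.Q'
  inv := toC S.Q * blockDiagonal (fun b => (h b)⁻¹.1) * toC S.P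
  val_inv := by
    have e : blockDiagonal (fun b => (h b).1) * blockDiagonal (fun b => (h b)⁻¹.1) = 1 := by
      rw [← blockDiagonal_mul, ← blockDiagonal_one]
      congr 1
      funext b
      exact (h b).mul_inv
    calc _ = toC S.P' * blockDiagonal (fun b => (h b).1) * (toC S.Q' * toC S.Q) *
          blockDiagonal (fun b => (h b)⁻¹.1) * toC S.P := by simp only [Matrix.mul_assoc]
      _ = toC S.P' * (blockDiagonal (fun b => (h b).1) *
          blockDiagonal (fun b => (h b)⁻¹.1)) * toC S.P := by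
            rw [S.h4C, Matrix.mul_one]
            simp only [Matrix.mul_assoc]
      _ = 1 := by rw [e, Matrix.mul_one, S.h2C]
  inv_val := by
    have e : blockDiagonal (fun b => (h b)⁻¹.1) * blockDiagonal (fun b => (h b).1) = 1 := by
      rw [← blockDiagonal_mul, ← blockDiagonal_one]
      congr 1
      funext b
      exact (h b).inv_mul
    calc _ = toC S.Q * blockDiagonal (fun b => (h b)⁻¹.1) * (toC S.P * toC S.P') *
          blockDiagonal (fun b => (h b).1) * toC S.Q' := by simp only [Matrix.mul_assoc]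
      _ = toC S.Q * (blockDiagonal (fun b => (h b)⁻¹.1) *
          blockDiagonal (fun b => (h b).1)) * toC S.Q' := by
            rw [S.h1C, Matrix.mul_one]
            simp only [Matrix.mul_assoc]
      _ = 1 := by rw [e, Matrix.mul_one, S.h3C]

theorem asm_val (h : B → GL (Fin 2) ℂ) : (S.asm h).1 =
    toC S.P' * blockDiagonal (fun b => (h b).1) * toC S.Q' := rfl

theorem asm_inv (h : B → GL (Fin 2) ℂ) : (S.asm h)⁻¹.1 =
    toC S.Q * blockDiagonal (fun b => (h b)⁻¹.1) * toC S.P := rfl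

theorem asm_heap (h h' h'' : B → GL (Fin 2) ℂ) :
    S.asm (h * h'⁻¹ * h'') = S.asm h * (S.asm h')⁻¹ * S.asm h'' := by
  apply Units.ext
  have e2 : (fun b => ((h * h'⁻¹ * h'') b).1) =
      fun b => (h b).1 * (h' b)⁻¹.1 * (h'' b).1 := rfl
  have e3 : blockDiagonal (fun b => (h b).1 * (h' b)⁻¹.1 * (h'' b).1) =
      blockDiagonal (fun b => (h b).1) * blockDiagonal (fun b => (h' b)⁻¹.1) *
        blockDiagonal (fun b => (h'' b).1) := by
    rw [← blockDiagonal_mul, ← blockDiagonal_mul]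
  change (S.asm (h * h'⁻¹ * h'')).1 = (S.asm h).1 * (S.asm h')⁻¹.1 * (S.asm h'').1
  rw [asm_val, asm_val, asm_val, asm_inv, e2, e3]
  symm
  calc toC S.P' * blockDiagonal (fun b => (h b).1) * toC S.Q' *
        (toC S.Q * blockDiagonal (fun b => (h' b)⁻¹.1) * toC S.P) *
        (toC S.P' * blockDiagonal (fun b => (h'' b).1) * toC S.Q')
      = toC S.P' * blockDiagonal (fun b => (h b).1) * (toC S.Q' * toC S.Q) *
        blockDiagonal (fun b => (h' b)⁻¹.1) * (toC S.P * toC S.P') *
        blockDiagonal (fun b => (h'' b).1) * toC S.Q' := by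
        simp only [Matrix.mul_assoc]
    _ = _ := by
        rw [S.h4C, S.h1C, Matrix.mul_one, Matrix.mul_one]
        simp only [Matrix.mul_assoc]

theorem asm_d : S.asm d = c := by
  apply Units.ext
  rw [asm_val, ← S.hc]
  calc toC S.P' * (toC S.P * c.1 * toC S.Q) * toC S.Q'
      = (toC S.P' * toC S.P) * c.1 * (toC S.Q * toC S.Q') := by simp only [Matrix.mul_assoc]
    _ = c.1 := by rw [S.h2C, S.h3C, Matrix.one_mul, Matrix.mul_one]

/-- the matrix of `f` in the adapted bases -/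
noncomputable def fm (f : GL ι ℂ) : Matrix (Fin 2 × B) (Fin 2 × B) ℂ := toC S.P * f.1 * toC S.Q

/-- compatibility with a morphism between summands -/
theorem compat {f : GL ι ℂ} (hf : EndCompat c f) {b b' : B} {g g' : M2 Qbar}
    (h : (d b).1 * toC g' = toC g * (d b').1) :
    S.fm f * eB b b' (toC g') = eB b b' (toC g) * S.fm f := by
  have hA := hf (S.P' * eB b b' g * S.P) (S.Q * eB b b' g' * S.Q') (by
    have hc' : c.1 = toC S.P' * blockDiagonal (fun b => (d b).1) * toC S.Q' := by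
      rw [← S.asm_val, S.asm_d]
    rw [hc']
    simp only [toC_mul, toC_eB]
    calc toC S.P' * blockDiagonal (fun b => (d b).1) * toC S.Q' *
          (toC S.Q * eB b b' (toC g') * toC S.Q')
        = toC S.P' * (blockDiagonal (fun b => (d b).1) * (toC S.Q' * toC S.Q) *
          eB b b' (toC g')) * toC S.Q' := by simp only [Matrix.mul_assoc]
      _ = toC S.P' * (eB b b' (toC g) * (toC S.P * toC S.P') *
          blockDiagonal (fun b => (d b).1)) * toC S.Q' := by
          rw [S.h4C, S.h1C, Matrix.mul_one, Matrix.mul_one, blockDiagonal_eB, eB_blockDiagonal, h]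
      _ = _ := by simp only [Matrix.mul_assoc])
  simp only [toC_mul, toC_eB] at hA
  calc S.fm f * eB b b' (toC g')
      = toC S.P * (f.1 * (toC S.Q * eB b b' (toC g') * toC S.Q')) * toC S.Q := by
        have e : toC S.P * (f.1 * (toC S.Q * eB b b' (toC g') * toC S.Q')) * toC S.Q =
            toC S.P * f.1 * toC S.Q * eB b b' (toC g') * (toC S.Q' * toC S.Q) := by
          simp only [Matrix.mul_assoc]
        rw [e, S.h4C, Matrix.mul_one, fm]
    _ = (toC S.P * toC S.P') * eB b b' (toC g) * (toC S.P * f.1 * toC S.Q) := by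
        rw [hA]
        simp only [Matrix.mul_assoc]
    _ = _ := by rw [S.h1C, Matrix.one_mul, fm]

theorem fm_off {f : GL ι ℂ} (hf : EndCompat c f) {b b' : B} (hb : b ≠ b') (i j : Fin 2) :
    S.fm f (i, b) (j, b') = 0 := by
  have h := S.compat hf (b := b) (b' := b) (g := 1) (g' := 1) (by
    rw [toC_one, Matrix.mul_one, Matrix.one_mul])
  rw [toC_one] at h
  have h1 := congrFun (congrFun h (i, b)) (j, b')
  rw [mul_eB_apply_ne _ _ _ _ _ _ (Ne.symm hb), eB_mul_apply, Matrix.one_mul] at h1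
  exact h1.symm

theorem fm_eq {f : GL ι ℂ} (hf : EndCompat c f) :
    S.fm f = blockDiagonal (fun b => bb (S.fm f) b b) := by
  refine Matrix.ext fun u v => ?_
  obtain ⟨i, b⟩ := u
  obtain ⟨j, b'⟩ := v
  rw [blockDiagonal_apply]
  by_cases h : b = b'
  · subst h
    rw [if_pos rfl]
    rfl
  · rw [if_neg h, S.fm_off hf h]

theorem f_eq (f : GL ι ℂ) : f.1 = toC S.P' * S.fm f * toC S.Q' := by
  calc f.1 = (toC S.P' * toC S.P) * f.1 * (toC S.Q * toC S.Q') := by
        rw [S.h2C, S.h3C, Matrix.one_mul, Matrix.mul_one]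
    _ = _ := by
        rw [fm]
        simp only [Matrix.mul_assoc]

theorem det_fm_ne (f : GL ι ℂ) : (S.fm f).det ≠ 0 := by
  have h : S.fm f * (toC S.Q' * f⁻¹.1 * toC S.P') = 1 := by
    have hff : f.1 * f⁻¹.1 = 1 := f.mul_inv
    calc S.fm f * (toC S.Q' * f⁻¹.1 * toC S.P')
        = toC S.P * (f.1 * (toC S.Q * toC S.Q') * f⁻¹.1) * toC S.P' := by
          rw [fm]
          simp only [Matrix.mul_assoc]
      _ = 1 := by rw [S.h3C, Matrix.mul_one, hff, Matrix.mul_one, S.h1C]
  intro h0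
  have h1 := congrArg Matrix.det h
  rw [det_mul, h0, zero_mul, det_one] at h1
  exact zero_ne_one h1

/-- the blocks of an isomorphism which is compatible with the endomorphisms -/
noncomputable def bl {f : GL ι ℂ} (hf : EndCompat c f) (b : B) : GL (Fin 2) ℂ :=
  Matrix.GeneralLinearGroup.mkOfDetNeZero (bb (S.fm f) b b) (by
    have h := S.det_fm_ne f
    rw [S.fm_eq hf, det_blockDiagonal] at h
    exact Finset.prod_ne_zero_iff.1 h b (Finset.mem_univ b))

theorem bl_val {f : GL ι ℂ} (hf : EndCompat c f) (b : B) : (S.bl hf b).1 = bb (S.fm f) b b := rfl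

theorem fm_eq' {f : GL ι ℂ} (hf : EndCompat c f) :
    S.fm f = blockDiagonal (fun b => (S.bl hf b).1) := S.fm_eq hf

theorem asm_bl {f : GL ι ℂ} (hf : EndCompat c f) : S.asm (S.bl hf) = f := by
  apply Units.ext
  rw [asm_val, ← S.fm_eq' hf, ← S.f_eq]

theorem bl_compat {f : GL ι ℂ} (hf : EndCompat c f) {b b' : B} {g g' : M2 Qbar}
    (h : (d b).1 * toC g' = toC g * (d b').1) :
    (S.bl hf b).1 * toC g' = toC g * (S.bl hf b').1 := by
  have h1 := S.compat hf h
  refine Matrix.ext fun i j => ?_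
  have h2 := congrFun (congrFun h1 (i, b)) (j, b')
  rw [mul_eB_apply, eB_mul_apply] at h2
  exact h2

end SumData

end Pool.Agent.Lib.MPf11a48.GL2
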