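import Pool.Agent.Lib.MP_f11a48_ag.helper92.Lef

/-! # The Lefschetz torsor is contained in every torsor containing the period isomorphism -/

set_option autoImplicit false
set_option linter.unusedSectionVars false

namespace Pool.Agent.Lib.MPf11a48.GL2

open Matrix Module Pool.Agent.Lib.MPf11a48.Tors
open Pool.Agent.Lib.MPf11a48.CM hiding OmegaM

/-- the objects of rank two with period matrices `d` and `d'` are isomorphic over `Qbar` -/
def Iso2 (d d' : M2 ℂ) : Prop :=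
  ∃ g g' : M2 Qbar, g.det ≠ 0 ∧ g'.det ≠ 0 ∧ d * toC g' = toC g * d'

theorem Iso2.refl (d : M2 ℂ) : Iso2 d d :=
  ⟨1, 1, by rw [det_one]; exact one_ne_zero, by rw [det_one]; exact one_ne_zero, by
    rw [toC_one, Matrix.one_mul, Matrix.mul_one]⟩

theorem toC_inv_mul {g : M2 Qbar} (hg : g.det ≠ 0) : toC g⁻¹ * toC g = 1 := by
  rw [← toC_mul, Matrix.nonsing_inv_mul _ (isUnit_iff_ne_zero.2 hg), toC_one]

theorem toC_mul_inv {g : M2 Qbar} (hg : g.det ≠ 0) : toC g * toC g⁻¹ = 1 := by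
  rw [← toC_mul, Matrix.mul_nonsing_inv _ (isUnit_iff_ne_zero.2 hg), toC_one]

theorem det_inv_ne {g : M2 Qbar} (hg : g.det ≠ 0) : (g⁻¹).det ≠ 0 := by
  have h := congrArg Matrix.det (Matrix.mul_nonsing_inv g (isUnit_iff_ne_zero.2 hg))
  rw [det_mul, det_one] at h
  exact right_ne_zero_of_mul_eq_one h

theorem Iso2.symm {d d' : M2 ℂ} (h : Iso2 d d') : Iso2 d' d := by
  obtain ⟨g, g', hg, hg', e⟩ := h
  refine ⟨g⁻¹, g'⁻¹, det_inv_ne hg, det_inv_ne hg', ?_⟩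
  calc d' * toC g'⁻¹ = (toC g⁻¹ * toC g) * d' * toC g'⁻¹ := by rw [toC_inv_mul hg, Matrix.one_mul]
    _ = toC g⁻¹ * (toC g * d') * toC g'⁻¹ := by simp only [Matrix.mul_assoc]
    _ = toC g⁻¹ * d * (toC g' * toC g'⁻¹) := by
      rw [← e]
      simp only [Matrix.mul_assoc]
    _ = _ := by rw [toC_mul_inv hg', Matrix.mul_one]

theorem Iso2.trans {d d' d'' : M2 ℂ} (h : Iso2 d d') (h' : Iso2 d' d'') : Iso2 d d'' := by
  obtain ⟨g, g', hg, hg', e⟩ := h
  obtain ⟨u, u', hu, hu', e'⟩ := h'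
  refine ⟨g * u, g' * u', ?_, ?_, ?_⟩
  · rw [det_mul]
    exact mul_ne_zero hg hu
  · rw [det_mul]
    exact mul_ne_zero hg' hu'
  · rw [toC_mul, toC_mul, ← Matrix.mul_assoc, e, Matrix.mul_assoc, e', Matrix.mul_assoc]

variable {B : Type} [Fintype B] [DecidableEq B]

/-- representatives of the isomorphism classes of the summands -/
structure Rep (d : B → GL (Fin 2) ℂ) (κ : Type) where
  t : B → κ
  r : κ → B
  g : B → M2 Qbar
  g' : B → M2 Qbar
  hg : ∀ b, (g b).det ≠ 0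
  hg' : ∀ b, (g' b).det ≠ 0
  rel : ∀ b, (d b).1 * toC (g' b) = toC (g b) * (d (r (t b))).1
  ne : ∀ k k', k ≠ k' → Noniso (d (r k)).1 (d (r k')).1

theorem exists_rep (d : B → GL (Fin 2) ℂ) :
    ∃ (κ : Type) (_ : Fintype κ) (_ : DecidableEq κ), Nonempty (Rep d κ) := by
  classical
  let s : Setoid B :=
    { r := fun b b' => Iso2 (d b).1 (d b').1
      iseqv := ⟨fun b => Iso2.refl _, fun h => h.symm, fun h h' => h.trans h'⟩ }
  have h : ∀ b : B, Iso2 (d b).1 (d (Quotient.out (Quotient.mk s b))).1 := fun b =>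
    (Quotient.exact (Quotient.out_eq (Quotient.mk s b))).symm
  choose g g' hg hg' e using h
  refine ⟨Quotient s, Fintype.ofFinite _, Classical.decEq _, ⟨⟨Quotient.mk s, Quotient.out, g, g',
    hg, hg', e, ?_⟩⟩⟩
  intro k k' hk u u' hu hu' he
  apply hk
  rw [← Quotient.out_eq k, ← Quotient.out_eq k']
  exact Quotient.sound ⟨u, u', hu, hu', he⟩

/-- an invertible matrix over `Qbar` as an invertible matrix over `ℂ` -/
noncomputable def gC (g : M2 Qbar) (hg : g.det ≠ 0) : GL (Fin 2) ℂ :=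
  ⟨toC g, toC g⁻¹, toC_mul_inv hg, toC_inv_mul hg⟩

theorem gC_val (g : M2 Qbar) (hg : g.det ≠ 0) : (gC g hg).1 = toC g := rfl

theorem gC_inv (g : M2 Qbar) (hg : g.det ≠ 0) : (gC g hg)⁻¹.1 = toC g⁻¹ := rfl

theorem gC_rel {g g' : M2 Qbar} (hg : g.det ≠ 0) (hg' : g'.det ≠ 0) {x y : GL (Fin 2) ℂ}
    (h : x.1 * toC g' = toC g * y.1) : gC g hg * y * (gC g' hg')⁻¹ = x := by
  have h1 : x * gC g' hg' = gC g hg * y := Units.ext h
  rw [← h1, mul_assoc, mul_inv_cancel, mul_one]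

variable {ι : Type} [Fintype ι] [DecidableEq ι] {c : GL ι ℂ} {d : B → GL (Fin 2) ℂ}

namespace SumData

variable (S : SumData c d) {κ : Type} [Fintype κ] [DecidableEq κ] (R : Rep d κ)

/-- the morphism from a product of `GL_2` given by the decomposition -/
noncomputable def Phi (x : (κ → GL (Fin 2) ℂ) × (Empty → ℂˣ)) : GL ι ℂ :=
  S.asm fun b => gC (R.g b) (R.hg b) * x.1 (R.t b) * (gC (R.g' b) (R.hg' b))⁻¹

theorem isMor_Phi : IsMor (S.Phi R) where
  poly := by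
    have h : ∀ i j, PolyFn (fun x => (S.Phi R x).1 i j) := by
      intro i j
      have e : (fun x => (S.Phi R x).1 i j) = fun x =>
          (toC S.P' * blockDiagonal (fun b => toC (R.g b) * (x.1 (R.t b)).1 * toC (R.g' b)⁻¹) *
            toC S.Q') i j := rfl
      rw [e]
      refine PolyFn.mat_mul (fun i j => PolyFn.mat_mul (fun i j => PolyFn.toC _ _ _)
        (fun i j => ?_) i j) (fun i j => PolyFn.toC _ _ _) i j
      refine PolyFn.blockDiagonal (F := fun x b => toC (R.g b) * (x.1 (R.t b)).1 *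
        toC (R.g' b)⁻¹) (fun b i j => ?_) i j
      exact PolyFn.mat_mul (fun i j => PolyFn.mat_mul (fun i j => PolyFn.toC _ _ _)
        (fun i j => PolyFn.entry _ i j) i j) (fun i j => PolyFn.toC _ _ _) i j
    choose F hF using h
    exact ⟨F, fun x i j => hF i j x⟩
  heap := by
    intro x y z
    rw [Phi, Phi, Phi, Phi, ← asm_heap]
    congr 1
    funext b
    change gC (R.g b) (R.hg b) * (x.1 (R.t b) * (y.1 (R.t b))⁻¹ * z.1 (R.t b)) *
      (gC (R.g' b) (R.hg' b))⁻¹ = (gC (R.g b) (R.hg b) * x.1 (R.t b) *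
      (gC (R.g' b) (R.hg' b))⁻¹) * (gC (R.g b) (R.hg b) * y.1 (R.t b) *
      (gC (R.g' b) (R.hg' b))⁻¹)⁻¹ * (gC (R.g b) (R.hg b) * z.1 (R.t b) *
      (gC (R.g' b) (R.hg' b))⁻¹)
    group

theorem Phi_c : S.Phi R (fun k => d (R.r k), fun e => e.elim) = c := by
  have : (fun b => gC (R.g b) (R.hg b) * d (R.r (R.t b)) * (gC (R.g' b) (R.hg' b))⁻¹) = d := by
    funext b
    exact gC_rel _ _ (R.rel b)
  change S.asm (fun b => gC (R.g b) (R.hg b) * d (R.r (R.t b)) * (gC (R.g' b) (R.hg' b))⁻¹) = c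
  rw [this, S.asm_d]

theorem Phi_f {f : GL ι ℂ} (hf : EndCompat c f) :
    S.Phi R (fun k => S.bl hf (R.r k), fun e => e.elim) = f := by
  have : (fun b => gC (R.g b) (R.hg b) * S.bl hf (R.r (R.t b)) * (gC (R.g' b) (R.hg' b))⁻¹) =
      S.bl hf := by
    funext b
    exact gC_rel _ _ (S.bl_compat hf (R.rel b))
  change S.asm (fun b => gC (R.g b) (R.hg b) * S.bl hf (R.r (R.t b)) *
    (gC (R.g' b) (R.hg' b))⁻¹) = f
  rw [this, S.asm_bl]

end SumData

/-- if the determinants of `c` are algebraic multiples of `(2 π i)^w`, `w ≠ 0`, every family with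
proportional determinants satisfies the same relations -/
theorem sameRel_of_det {κ : Type} [Fintype κ] [DecidableEq κ] {w : ℤ} (hw : w ≠ 0)
    {c x : κ → GL (Fin 2) ℂ} {α : κ → Qbar} {μ : ℂ}
    (hc : ∀ k, (c k).1.det = (2 * Real.pi * Complex.I : ℂ) ^ w * ((α k : Qbar) : ℂ))
    (hx : ∀ k, (x k).1.det = μ * ((α k : Qbar) : ℂ)) :
    SameRel ((c, fun e => e.elim) : (κ → GL (Fin 2) ℂ) × (Empty → ℂˣ)) (x, fun e => e.elim) := by
  have h2pi := two_pi_I_ne w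
  have hα0 : ∀ σ, ((α σ : Qbar) : ℂ) ≠ 0 := by
    intro σ h0
    apply gl_det_ne (c σ)
    rw [hc, h0, mul_zero]
  intro χ hχ
  rw [prod_sum_empty, prod_sum_empty]
  rw [prod_sum_empty] at hχ
  have ec : ∀ σ, ((dets ((c, fun e => e.elim) : (κ → GL (Fin 2) ℂ) × (Empty → ℂˣ))
      (Sum.inl σ) : ℂˣ) : ℂ) = (2 * Real.pi * Complex.I : ℂ) ^ w * ((α σ : Qbar) : ℂ) := hc
  have ef : ∀ σ, ((dets ((x, fun e => e.elim) : (κ → GL (Fin 2) ℂ) × (Empty → ℂˣ))
      (Sum.inl σ) : ℂˣ) : ℂ) = μ * ((α σ : Qbar) : ℂ) := hx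
  simp only [ec] at hχ ⊢
  simp only [ef]
  rcases isEmpty_or_nonempty κ with hemp | ⟨⟨σ₀⟩⟩
  · rw [Finset.univ_eq_empty, Finset.prod_empty, Finset.prod_empty]
  have hμ0 : μ ≠ 0 := by
    rintro rfl
    have := hx σ₀
    rw [zero_mul] at this
    exact gl_det_ne _ this
  rw [prod_smul_zpow h2pi] at hχ ⊢
  rw [prod_smul_zpow hμ0]
  have hprodQ : (∏ σ, ((α σ : Qbar) : ℂ) ^ χ (Sum.inl σ)) ∈ Qbar :=
    prod_mem fun σ _ => zpow_mem (α σ).2 _
  have hprod0 : (∏ σ, ((α σ : Qbar) : ℂ) ^ χ (Sum.inl σ)) ≠ 0 :=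
    Finset.prod_ne_zero_iff.2 fun σ _ => zpow_ne_zero _ (hα0 σ)
  have hpow : (2 * Real.pi * Complex.I : ℂ) ^ (w * ∑ σ, χ (Sum.inl σ)) ∈ Qbar := by
    rw [_root_.zpow_mul]
    have := div_mem hχ hprodQ
    rwa [mul_div_cancel_right₀ _ hprod0] at this
  have hsum : ∑ σ, χ (Sum.inl σ) = 0 :=
    (mul_eq_zero.1 (two_pi_I_zpow hpow)).resolve_left hw
  rw [hsum, zpow_zero, zpow_zero]

/-- The determinants of the blocks determine membership in the torsors containing `c`. -/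
theorem SumData.mem_of_det {K : IntermediateField ℚ ℂ} (hK : K ≤ Qbar) (S : SumData c d)
    (hirr : ∀ b, Irr (d b).1) {w : ℤ} (hw : w ≠ 0) {α : B → Qbar}
    (hα : ∀ b, (d b).1.det = (2 * Real.pi * Complex.I : ℂ) ^ w * ((α b : Qbar) : ℂ))
    {f : GL ι ℂ} (hf : EndCompat c f) {μ : ℂ}
    (hμ : ∀ b, (S.bl hf b).1.det = μ * ((α b : Qbar) : ℂ)) {T : Set (GL ι ℂ)}
    (hT : IsTorsor K T) (hc : c ∈ T) : f ∈ T := by
  obtain ⟨κ, _, _, ⟨R⟩⟩ := exists_rep d
  have hα0 : ∀ b, ((α b : Qbar) : ℂ) ≠ 0 := by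
    intro b h0
    apply gl_det_ne (d b)
    rw [hα, h0, mul_zero]
  have h := main hK (S.isMor_Phi R) (c := (fun k => d (R.r k), fun e => e.elim))
    (fun k => hirr _) (fun k k' hk => nonTw_of_noniso (R.ne k k' hk)
      ⟨α (R.r k) / α (R.r k'), by
        have e : ((α (R.r k) / α (R.r k') : Qbar) : ℂ) =
            ((α (R.r k) : Qbar) : ℂ) / ((α (R.r k') : Qbar) : ℂ) :=
          map_div₀ (algebraMap Qbar ℂ) _ _
        rw [hα, hα, e]
        have := hα0 (R.r k')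
        field_simp⟩) hT (by rw [S.Phi_c R]; exact hc)
    (x := (fun k => S.bl hf (R.r k), fun e => e.elim))
    (sameRel_of_det hw (fun k => hα (R.r k)) (fun k => hμ (R.r k)))
  rwa [S.Phi_f R] at h

end Pool.Agent.Lib.MPf11a48.GL2
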