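import Pool.Agent.Lib.MP_f11a48_ag.helper92.Lef2

/-! # Similitudes in the Lefschetz torsor -/

set_option autoImplicit false
set_option linter.unusedSectionVars false

namespace Pool.Agent.Lib.MPf11a48.GL2

open Matrix Module Pool.Agent.Lib.MPf11a48.Tors
open Pool.Agent.Lib.MPf11a48.CM hiding OmegaM

/-- the alternating matrix -/
def mJ (R : Type) [CommRing R] : Matrix (Fin 2) (Fin 2) R := !![0, 1; -1, 0]

theorem toC_mJ : toC (mJ Qbar) = mJ ℂ := by
  refine ext2 ?_ ?_ ?_ ?_ <;> simp [mJ]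

theorem mJ_mul_mJ (R : Type) [CommRing R] : mJ R * mJ R = -1 := by
  refine Matrix.ext fun i j => ?_
  fin_cases i <;> fin_cases j <;> simp [mJ, Matrix.mul_apply, Fin.sum_univ_two]

theorem mJ_conj (g : M2 ℂ) : g * mJ ℂ * gᵀ = g.det • mJ ℂ := by
  rw [det_fin_two]
  refine Matrix.ext fun i j => ?_
  fin_cases i <;> fin_cases j <;>
    simp [Matrix.mul_apply, Fin.sum_univ_two, mJ] <;> ring

theorem mJ_conj' (g : M2 ℂ) : gᵀ * mJ ℂ * g = g.det • mJ ℂ := by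
  rw [det_fin_two]
  refine Matrix.ext fun i j => ?_
  fin_cases i <;> fin_cases j <;>
    simp [Matrix.mul_apply, Fin.sum_univ_two, mJ] <;> ring

theorem toC_smul' (a : Qbar) (N : M2 Qbar) : toC (a • N) = (a : ℂ) • toC N := by
  refine Matrix.ext fun p q => ?_
  simp

/-- a form is the same as a morphism, up to a twist -/
theorem form_to_mor {d d' : M2 ℂ} {τ : ℂ} (hτ : τ ≠ 0) {α : Qbar}
    (hdet : d.det = τ * ((α : Qbar) : ℂ)) {X Y : M2 Qbar} (h : dᵀ * toC X * d' = τ • toC Y) :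
    d * toC (mJ Qbar * Y) = toC (α • (mJ Qbar * X)) * d' := by
  have e1 : τ • (d * toC (mJ Qbar * Y)) = τ • (toC (α • (mJ Qbar * X)) * d') := by
    have e2 : toC (α • (mJ Qbar * X)) = ((α : Qbar) : ℂ) • (mJ ℂ * toC X) := by
      rw [toC_smul', toC_mul, toC_mJ]
    rw [e2, toC_mul, toC_mJ]
    calc τ • (d * (mJ ℂ * toC Y)) = d * mJ ℂ * (τ • toC Y) := by
          rw [Matrix.mul_smul, Matrix.mul_assoc]
      _ = (d * mJ ℂ * dᵀ) * toC X * d' := by
          rw [← h]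
          simp only [Matrix.mul_assoc]
      _ = τ • (((α : Qbar) : ℂ) • (mJ ℂ * toC X) * d') := by
          rw [mJ_conj, hdet, Matrix.smul_mul, Matrix.smul_mul, Matrix.smul_mul, smul_smul]
  exact smul_right_injective _ hτ e1

/-- the similitude factor is given by the determinants -/
theorem det_of_sim {x x' : M2 ℂ} {μ : ℂ} {α : Qbar} {X Y : M2 Qbar} (hY : Y ≠ 0)
    (h1 : x * toC (mJ Qbar * Y) = toC (α • (mJ Qbar * X)) * x')
    (h2 : xᵀ * toC X * x' = μ • toC Y) : x.det = μ * ((α : Qbar) : ℂ) := by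
  have e2 : toC (α • (mJ Qbar * X)) = ((α : Qbar) : ℂ) • (mJ ℂ * toC X) := by
    rw [toC_smul', toC_mul, toC_mJ]
  rw [e2, toC_mul, toC_mJ] at h1
  have h3 : x.det • toC Y = (μ * ((α : Qbar) : ℂ)) • toC Y := by
    have e3 : xᵀ * mJ ℂ * (x * (mJ ℂ * toC Y)) = -(x.det • toC Y) := by
      calc xᵀ * mJ ℂ * (x * (mJ ℂ * toC Y)) = (xᵀ * mJ ℂ * x) * mJ ℂ * toC Y := by
            simp only [Matrix.mul_assoc]
        _ = x.det • ((mJ ℂ * mJ ℂ) * toC Y) := by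
            rw [mJ_conj', Matrix.smul_mul, Matrix.smul_mul]
        _ = _ := by rw [mJ_mul_mJ, Matrix.neg_mul, Matrix.one_mul, smul_neg]
    have e4 : xᵀ * mJ ℂ * (((α : Qbar) : ℂ) • (mJ ℂ * toC X) * x') =
        -((μ * ((α : Qbar) : ℂ)) • toC Y) := by
      calc xᵀ * mJ ℂ * (((α : Qbar) : ℂ) • (mJ ℂ * toC X) * x')
          = ((α : Qbar) : ℂ) • (xᵀ * ((mJ ℂ * mJ ℂ) * toC X) * x') := by
            rw [Matrix.smul_mul, Matrix.mul_smul]
            simp only [Matrix.mul_assoc]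
        _ = ((α : Qbar) : ℂ) • (-(xᵀ * toC X * x')) := by
            rw [mJ_mul_mJ, Matrix.neg_mul, Matrix.one_mul, Matrix.mul_neg, Matrix.neg_mul]
        _ = _ := by
            rw [h2, smul_neg, smul_smul, mul_comm]
    rw [h1, e4] at e3
    exact (neg_injective e3).symm
  obtain ⟨i, j, hij⟩ : ∃ i j, Y i j ≠ 0 := by
    by_contra hcon
    push Not at hcon
    exact hY (Matrix.ext hcon)
  have h4 := congrFun (congrFun h3 i) j
  simp only [Matrix.smul_apply, smul_eq_mul, map_apply] at h4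
  exact mul_right_cancel₀ (fun h0 => hij ((map_eq_zero (algebraMap Qbar ℂ)).1 h0)) h4

variable {B : Type} [Fintype B] [DecidableEq B]

theorem bb_conj (F : B → M2 ℂ) (N : Matrix (Fin 2 × B) (Fin 2 × B) ℂ) (b b' : B) :
    bb ((blockDiagonal F)ᵀ * N * blockDiagonal F) b b' = (F b)ᵀ * bb N b b' * F b' := by
  have e1 : ∀ (M : Matrix (Fin 2 × B) (Fin 2 × B) ℂ), bb (M * blockDiagonal F) b b' =
      bb M b b' * F b' := by
    intro M
    refine Matrix.ext fun i j => ?_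
    simp only [bb, Matrix.of_apply, Matrix.mul_apply, Fintype.sum_prod_type, blockDiagonal_apply]
    refine Finset.sum_congr rfl fun k _ => ?_
    rw [Finset.sum_eq_single b']
    · simp
    · intro s _ hs
      rw [if_neg hs, mul_zero]
    · intro h
      exact absurd (Finset.mem_univ b') h
  have e2 : ∀ (M : Matrix (Fin 2 × B) (Fin 2 × B) ℂ), bb ((blockDiagonal F)ᵀ * M) b b' =
      (F b)ᵀ * bb M b b' := by
    intro M
    refine Matrix.ext fun i j => ?_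
    simp only [bb, Matrix.of_apply, Matrix.mul_apply, Fintype.sum_prod_type, blockDiagonal_apply,
      Matrix.transpose_apply]
    refine Finset.sum_congr rfl fun k _ => ?_
    rw [Finset.sum_eq_single b]
    · simp
    · intro s _ hs
      rw [if_neg hs, zero_mul]
    · intro h
      exact absurd (Finset.mem_univ b) h
  rw [e1, e2]

theorem toC_bb (N : Matrix (Fin 2 × B) (Fin 2 × B) Qbar) (b b' : B) :
    toC (bb N b b') = bb (toC N) b b' := rfl

variable {ι : Type} [Fintype ι] [DecidableEq ι] {c : GL ι ℂ} {d : B → GL (Fin 2) ℂ}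
  {K : IntermediateField ℚ ℂ}

/-- a matrix over `K` as a matrix over `Qbar` -/
def upQ (hK : K ≤ Qbar) (N : Matrix ι ι K) : Matrix ι ι Qbar :=
  Matrix.of fun i j => ⟨(N i j : ℂ), hK (N i j).2⟩

theorem toC_upQ (hK : K ≤ Qbar) (N : Matrix ι ι K) : toC (upQ hK N) = N.map (algebraMap K ℂ) :=
  rfl

theorem toC_ratM (N : Matrix ι ι ℚ) :
    toC (N.map (algebraMap ℚ Qbar)) = N.map (algebraMap ℚ ℂ) := by
  refine Matrix.ext fun i j => ?_
  simp only [map_apply]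
  exact (IsScalarTower.algebraMap_apply ℚ Qbar ℂ _).symm

namespace SumData

variable (S : SumData c d)

/-- the Gram matrix of the rational form in the adapted basis -/
noncomputable def Ψ (ψB : Matrix ι ι ℚ) : Matrix (Fin 2 × B) (Fin 2 × B) Qbar :=
  S.P'ᵀ * ψB.map (algebraMap ℚ Qbar) * S.P'

/-- the Gram matrix of the de Rham form in the adapted basis -/
noncomputable def Θ (hK : K ≤ Qbar) (ψdR : Matrix ι ι K) : Matrix (Fin 2 × B) (Fin 2 × B) Qbar :=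
  S.Qᵀ * upQ hK ψdR * S.Q

theorem fm_sim (hK : K ≤ Qbar) {ψB : Matrix ι ι ℚ} {ψdR : Matrix ι ι K} {f : GL ι ℂ} {μ : ℂ}
    (h : f.1ᵀ * ψB.map (algebraMap ℚ ℂ) * f.1 = μ • ψdR.map (algebraMap K ℂ)) :
    (S.fm f)ᵀ * toC (S.Ψ ψB) * S.fm f = μ • toC (S.Θ hK ψdR) := by
  have hT : (toC S.P)ᵀ * (toC S.P')ᵀ = 1 := by
    rw [← transpose_mul, S.h2C, transpose_one]
  have e1 : toC (S.Ψ ψB) = (toC S.P')ᵀ * ψB.map (algebraMap ℚ ℂ) * toC S.P' := by
    rw [Ψ, toC_mul, toC_mul, toC_ratM, ← transpose_map]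
  have e2 : toC (S.Θ hK ψdR) = (toC S.Q)ᵀ * ψdR.map (algebraMap K ℂ) * toC S.Q := by
    rw [Θ, toC_mul, toC_mul, toC_upQ, ← transpose_map]
  rw [e1, e2, fm, transpose_mul, transpose_mul]
  calc (toC S.Q)ᵀ * (f.1ᵀ * (toC S.P)ᵀ) * ((toC S.P')ᵀ * ψB.map (algebraMap ℚ ℂ) * toC S.P') *
        (toC S.P * f.1 * toC S.Q)
      = (toC S.Q)ᵀ * (f.1ᵀ * ((toC S.P)ᵀ * (toC S.P')ᵀ) * ψB.map (algebraMap ℚ ℂ) *
        (toC S.P' * toC S.P) * f.1) * toC S.Q := by simp only [Matrix.mul_assoc]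
    _ = (toC S.Q)ᵀ * (f.1ᵀ * ψB.map (algebraMap ℚ ℂ) * f.1) * toC S.Q := by
        rw [hT, S.h2C, Matrix.mul_one, Matrix.mul_one]
    _ = _ := by rw [h, Matrix.mul_smul, Matrix.smul_mul]

theorem Ψ_ne {ψB : Matrix ι ι ℚ} (hdet : ψB.det ≠ 0) (b : B) : ∃ b', bb (S.Ψ ψB) b b' ≠ 0 := by
  by_contra hcon
  push Not at hcon
  have h1 : (S.Ψ ψB).det = 0 := by
    refine Matrix.det_eq_zero_of_row_eq_zero (0, b) fun u => ?_
    exact congrFun (congrFun (hcon u.2) 0) u.1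
  have hdet' : (ψB.map (algebraMap ℚ Qbar)).det ≠ 0 := by
    have : (ψB.map (algebraMap ℚ Qbar)).det = algebraMap ℚ Qbar ψB.det :=
      ((algebraMap ℚ Qbar).map_det ψB).symm
    rw [this]
    exact fun h => hdet ((map_eq_zero (algebraMap ℚ Qbar)).1 h)
  have hT : S.P'ᵀ * S.Pᵀ = 1 := by rw [← transpose_mul, S.h1, transpose_one]
  have e1 : S.Ψ ψB * (S.P * (ψB.map (algebraMap ℚ Qbar))⁻¹ * S.Pᵀ) = 1 := by
    calc S.Ψ ψB * (S.P * (ψB.map (algebraMap ℚ Qbar))⁻¹ * S.Pᵀ)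
        = S.P'ᵀ * (ψB.map (algebraMap ℚ Qbar) * (S.P' * S.P) *
          (ψB.map (algebraMap ℚ Qbar))⁻¹) * S.Pᵀ := by
          rw [Ψ]
          simp only [Matrix.mul_assoc]
      _ = 1 := by
          rw [S.h2, Matrix.mul_one, Matrix.mul_nonsing_inv _ (isUnit_iff_ne_zero.2 hdet'),
            Matrix.mul_one, hT]
  have e2 := congrArg Matrix.det e1
  rw [det_mul, h1, zero_mul, det_one] at e2
  exact zero_ne_one e2

theorem det_bl (hK : K ≤ Qbar) {ψB : Matrix ι ι ℚ} {ψdR : Matrix ι ι K} (hdet : ψB.det ≠ 0)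
    {τ : ℂ} (hτ : τ ≠ 0)
    (hpol : c.1ᵀ * ψB.map (algebraMap ℚ ℂ) * c.1 = τ • ψdR.map (algebraMap K ℂ))
    {α : B → Qbar} (hα : ∀ b, (d b).1.det = τ * ((α b : Qbar) : ℂ)) {f : GL ι ℂ}
    (hf : EndCompat c f) {μ : ℂ}
    (hsim : f.1ᵀ * ψB.map (algebraMap ℚ ℂ) * f.1 = μ • ψdR.map (algebraMap K ℂ)) (b : B) :
    (S.bl hf b).1.det = μ * ((α b : Qbar) : ℂ) := by
  obtain ⟨b', hb'⟩ := S.Ψ_ne hdet b
  have e1 : (d b).1ᵀ * toC (bb (S.Ψ ψB) b b') * (d b').1 = τ • toC (bb (S.Θ hK ψdR) b b') := by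
    have h1 := S.fm_sim hK hpol
    have h2 : S.fm c = blockDiagonal (fun b => (d b).1) := S.hc
    rw [h2] at h1
    have h3 := congrArg (fun N => bb N b b') h1
    simp only [bb_conj] at h3
    exact h3
  have e2 : (S.bl hf b).1ᵀ * toC (bb (S.Ψ ψB) b b') * (S.bl hf b').1 =
      μ • toC (bb (S.Θ hK ψdR) b b') := by
    have h1 := S.fm_sim hK hsim
    rw [S.fm_eq' hf] at h1
    have h3 := congrArg (fun N => bb N b b') h1
    simp only [bb_conj] at h3
    exact h3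
  have hY : bb (S.Θ hK ψdR) b b' ≠ 0 := by
    intro h0
    rw [h0] at e1
    have hz : toC (0 : M2 Qbar) = 0 := by
      refine Matrix.ext fun i j => ?_
      simp
    rw [hz, smul_zero] at e1
    apply hb'
    have hdb := gl_mul_inv (d b')
    have hdT : (d b)⁻¹.1ᵀ * (d b).1ᵀ = 1 := by
      rw [← transpose_mul, gl_mul_inv, transpose_one]
    have e3 : toC (bb (S.Ψ ψB) b b') = 0 := by
      calc toC (bb (S.Ψ ψB) b b') = ((d b)⁻¹.1ᵀ * (d b).1ᵀ) * toC (bb (S.Ψ ψB) b b') *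
            ((d b').1 * (d b')⁻¹.1) := by rw [hdb, hdT, Matrix.one_mul, Matrix.mul_one]
        _ = (d b)⁻¹.1ᵀ * ((d b).1ᵀ * toC (bb (S.Ψ ψB) b b') * (d b').1) * (d b')⁻¹.1 := by
            simp only [Matrix.mul_assoc]
        _ = 0 := by rw [e1, Matrix.mul_zero, Matrix.zero_mul]
    refine Matrix.ext fun i j => ?_
    have h4 := congrFun (congrFun e3 i) j
    exact (map_eq_zero (algebraMap Qbar ℂ)).1 h4
  exact det_of_sim hY (S.bl_compat hf (form_to_mor hτ (hα b) e1)) e2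

end SumData

/-- The Lefschetz torsor over `Qbar`: the isomorphisms which are compatible with all endomorphisms
and multiply the polarisation by a scalar. -/
def OmegaLef (c : GL ι ℂ) (ψB : Matrix ι ι ℚ) (ψdR : Matrix ι ι K) : Set (GL ι ℂ) :=
  {f | EndCompat c f ∧
    ∃ μ : ℂ, f.1ᵀ * ψB.map (algebraMap ℚ ℂ) * f.1 = μ • ψdR.map (algebraMap K ℂ)}

theorem omegaLef_subset (hK : K ≤ Qbar) {ψB : Matrix ι ι ℚ} {ψdR : Matrix ι ι K}
    (hdet : ψB.det ≠ 0) {w : ℤ} (hw : w ≠ 0)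
    (hpol : c.1ᵀ * ψB.map (algebraMap ℚ ℂ) * c.1 =
      (2 * Real.pi * Complex.I : ℂ) ^ w • ψdR.map (algebraMap K ℂ))
    (S : SumData c d) (hirr : ∀ b, Irr (d b).1)
    (hα : ∀ b, ∃ α : Qbar, (d b).1.det = (2 * Real.pi * Complex.I : ℂ) ^ w * (α : ℂ)) :
    OmegaLef c ψB ψdR ⊆ OmegaM K c := by
  rintro f ⟨hf, μ, hμ⟩ T hT hcT
  choose α hα using hα
  exact S.mem_of_det hK hirr hw hα hf
    (fun b => S.det_bl hK hdet (two_pi_I_ne w) hpol hα hf hμ b) hT hcT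

end Pool.Agent.Lib.MPf11a48.GL2
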