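import Pool.Agent.Lib.MP_f11a48_ag.helper16.Heap
import Pool.Agent.Lib.MP_f11a48_ag.helper92.Sl2

/-! # Rational structures: descent of complex vectors to `Qbar` by linear forms -/

set_option autoImplicit false

namespace Pool.Agent.Lib.MPf11a48.GL2

open Matrix Pool.Agent.Lib.MPf11a48.CM

/-- `Qbar`-linear forms on `ℂ` -/
abbrev Form : Type := ℂ →ₗ[Qbar] Qbar

theorem form_mul (l : Form) (z : ℂ) (a : Qbar) : l (z * (a : ℂ)) = l z * a := by
  have h : z * (a : ℂ) = a • z := by
    rw [Algebra.smul_def, mul_comm]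
    rfl
  rw [h, map_smul, smul_eq_mul, mul_comm]

theorem form_mul' (l : Form) (z : ℂ) (a : Qbar) : l ((a : ℂ) * z) = a * l z := by
  rw [mul_comm, form_mul, mul_comm]

theorem exists_expansion {J : Type*} [Finite J] (z : J → ℂ) :
    ∃ (m : ℕ) (β : Fin m → ℂ) (l : Fin m → Form), ∀ j, z j = ∑ i, β i * ((l i (z j) : Qbar) : ℂ) := by
  classical
  cases nonempty_fintype J
  let b := Module.Basis.ofVectorSpace Qbar ℂ
  let s : Finset (Module.Basis.ofVectorSpaceIndex Qbar ℂ) :=
    Finset.univ.biUnion fun j => (b.repr (z j)).support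
  refine ⟨s.card, fun i => b (s.equivFin.symm i), fun i => b.coord (s.equivFin.symm i), fun j => ?_⟩
  have h1 : z j = ∑ i ∈ s, b i * ((b.coord i (z j) : Qbar) : ℂ) := by
    conv_lhs => rw [← b.linearCombination_repr (z j), Finsupp.linearCombination_apply]
    rw [Finsupp.sum_of_support_subset (s := s)]
    · refine Finset.sum_congr rfl fun i _ => ?_
      rw [Algebra.smul_def, mul_comm]
      rfl
    · intro i hi
      exact Finset.mem_biUnion.2 ⟨j, Finset.mem_univ j, hi⟩
    · intro i _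
      rw [zero_smul]
  rw [← Finset.sum_coe_sort s fun i => b i * ((b.coord i (z j) : Qbar) : ℂ)] at h1
  rw [← s.equivFin.symm.sum_comp] at h1
  exact h1

/-- a form that does not vanish at a given nonzero number -/
theorem exists_form {z : ℂ} (hz : z ≠ 0) : ∃ l : Form, l z ≠ 0 := by
  by_contra hcon
  push Not at hcon
  obtain ⟨m, β, l, h⟩ := exists_expansion (J := Unit) (fun _ => z)
  apply hz
  rw [h ()]
  exact Finset.sum_eq_zero fun i _ => by rw [hcon (l i)]; simp

/-- a form with value `1` at `1` -/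
theorem exists_form_one : ∃ l : Form, ∀ a : Qbar, l (a : ℂ) = a := by
  obtain ⟨l, hl⟩ := exists_form (one_ne_zero (α := ℂ))
  refine ⟨(l 1)⁻¹ • l, fun a => ?_⟩
  have h1 : l (a : ℂ) = l 1 * a := by
    have := form_mul l 1 a
    rwa [one_mul] at this
  rw [LinearMap.smul_apply, h1, smul_eq_mul, inv_mul_cancel_left₀ hl]

variable {κ n : Type}

/-- entrywise application of a form to a family of matrices -/
noncomputable def app (l : Form) (X : κ → Matrix n n ℂ) : κ → Matrix n n ℂ :=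
  fun k i j => ((l (X k i j) : Qbar) : ℂ)

/-- extension of scalars for families of matrices -/
noncomputable def ext (X : κ → Matrix n n Qbar) : κ → Matrix n n ℂ := fun k => toC (X k)

/-- entrywise application of a form to a family of matrices, over `Qbar` -/
noncomputable def app0 (l : Form) (X : κ → Matrix n n ℂ) : κ → Matrix n n Qbar :=
  fun k i j => l (X k i j)

theorem ext_app0 (l : Form) (X : κ → Matrix n n ℂ) : ext (app0 l X) = app l X := rfl

theorem app_eq_sum [Finite κ] [Finite n] (X : κ → Matrix n n ℂ) :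
    ∃ (m : ℕ) (β : Fin m → ℂ) (l : Fin m → Form), X = ∑ i, β i • app (l i) X := by
  obtain ⟨m, β, l, h⟩ := exists_expansion (J := κ × n × n) (fun x => X x.1 x.2.1 x.2.2)
  refine ⟨m, β, l, ?_⟩
  funext k
  refine Matrix.ext fun i j => ?_
  have := h (k, i, j)
  simp only at this
  rw [this, Finset.sum_apply, Matrix.sum_apply]
  rfl

theorem mem_of_app [Finite κ] [Finite n] {N : Submodule ℂ (κ → Matrix n n ℂ)}
    {X : κ → Matrix n n ℂ} (h : ∀ l, app l X ∈ N) : X ∈ N := by
  obtain ⟨m, β, l, hX⟩ := app_eq_sum X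
  rw [hX]
  exact N.sum_mem fun i _ => N.smul_mem _ (h _)

/-- the analogous statements for one matrix -/
noncomputable def app1 (l : Form) (X : Matrix n n ℂ) : Matrix n n Qbar := fun i j => l (X i j)

theorem mem_of_app1 [Finite n] {N : Submodule ℂ (Matrix n n ℂ)}
    {X : Matrix n n ℂ} (h : ∀ l : Form, toC (app1 l X) ∈ N) : X ∈ N := by
  obtain ⟨m, β, l, hX⟩ := exists_expansion (J := n × n) (fun x => X x.1 x.2)
  have h1 : X = ∑ i, β i • toC (app1 (l i) X) := by
    refine Matrix.ext fun i j => ?_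
    have := hX (i, j)
    simp only at this
    rw [this, Matrix.sum_apply]
    rfl
  rw [h1]
  exact N.sum_mem fun i _ => N.smul_mem _ (h _)

theorem mem_Qbar_of_sq {z : ℂ} {a : Qbar} (h : z ^ 2 = (a : ℂ)) : ∃ w : Qbar, (w : ℂ) = z := by
  obtain ⟨w, hw⟩ := IsAlgClosed.exists_pow_nat_eq a (n := 2) two_pos
  have h1 : z ^ 2 = ((w : Qbar) : ℂ) ^ 2 := by
    rw [h, ← hw]
    push_cast
    rfl
  rcases sq_eq_sq_iff_eq_or_eq_neg.1 h1 with h2 | h2
  · exact ⟨w, h2.symm⟩
  · exact ⟨-w, by rw [h2]; push_cast; rfl⟩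

theorem toC_mulVec {m n : Type} [Fintype n] (X : Matrix m n Qbar) (v : n → Qbar) :
    (fun i => (((X *ᵥ v) i : Qbar) : ℂ)) = toC X *ᵥ fun i => ((v i : Qbar) : ℂ) := by
  funext i
  simp only [mulVec, dotProduct]
  push_cast
  rfl

theorem toC_ne_zero {m n : Type} {X : Matrix m n Qbar} (hX : X ≠ 0) : toC X ≠ 0 := by
  intro h
  apply hX
  refine Matrix.ext fun i j => ?_
  have := congrFun (congrFun h i) j
  exact (map_eq_zero (algebraMap Qbar ℂ)).1 this

theorem coe_ne_zero {n : Type} {v : n → Qbar} (hv : v ≠ 0) : (fun i => ((v i : Qbar) : ℂ)) ≠ 0 := by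
  intro h
  apply hv
  funext i
  have := congrFun h i
  exact (map_eq_zero (algebraMap Qbar ℂ)).1 this

theorem toC_trace {n : Type} [Fintype n] (X : Matrix n n Qbar) :
    (toC X).trace = ((X.trace : Qbar) : ℂ) := by
  simp only [Matrix.trace, Matrix.diag]
  push_cast
  rfl

theorem toC_det {n : Type} [Fintype n] [DecidableEq n] (X : Matrix n n Qbar) :
    (toC X).det = ((X.det : Qbar) : ℂ) := ((algebraMap Qbar ℂ).map_det X).symm

/-- If `c` conjugates an algebraic traceless matrix to a multiple of an algebraic one, then `c`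
maps an algebraic line to an algebraic line. -/
theorem exists_line {c : Matrix (Fin 2) (Fin 2) ℂ} (hc : c.det ≠ 0)
    {X X' : Matrix (Fin 2) (Fin 2) Qbar} (hX : X ≠ 0) (ht : X.trace = 0)
    (ht' : X'.trace = 0) {t : ℂ} (ht0 : t ≠ 0) (h : c * toC X' = t • (toC X * c)) :
    ∃ v v' : Fin 2 → Qbar, v ≠ 0 ∧ v' ≠ 0 ∧ ∃ μ : ℂ,
      c *ᵥ (fun i => ((v' i : Qbar) : ℂ)) = μ • (fun i => ((v i : Qbar) : ℂ)) := by
  -- determinants
  have hdet : ((X'.det : Qbar) : ℂ) = t ^ 2 * ((X.det : Qbar) : ℂ) := by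
    have h1 := congrArg Matrix.det h
    rw [det_mul, det_smul, det_mul, toC_det, toC_det, Fintype.card_fin] at h1
    have h2 : c.det * (((X'.det : Qbar) : ℂ) - t ^ 2 * ((X.det : Qbar) : ℂ)) = 0 := by
      linear_combination h1
    exact sub_eq_zero.1 ((mul_eq_zero.1 h2).resolve_left hc)
  obtain ⟨s, hs⟩ := IsAlgClosed.exists_pow_nat_eq (-X.det) (n := 2) two_pos
  obtain ⟨s', hs'⟩ : ∃ s' : Qbar, (s' : ℂ) = t * (s : ℂ) := by
    apply mem_Qbar_of_sq (a := -X'.det)
    have h1 : ((s : Qbar) : ℂ) ^ 2 = -((X.det : Qbar) : ℂ) := by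
      rw [← SubmonoidClass.coe_pow, hs]
      push_cast
      rfl
    push_cast
    rw [mul_pow, h1, hdet]
    ring
  have hs'2 : s' ^ 2 = -X'.det := by
    apply (algebraMap Qbar ℂ).injective
    change ((s' ^ 2 : Qbar) : ℂ) = ((-X'.det : Qbar) : ℂ)
    push_cast
    rw [hs', mul_pow, hdet]
    have h1 : ((s : Qbar) : ℂ) ^ 2 = -((X.det : Qbar) : ℂ) := by
      rw [← SubmonoidClass.coe_pow, hs]
      push_cast
      rfl
    rw [h1]
    ring
  have d1 : ∀ (Y : Matrix (Fin 2) (Fin 2) Qbar) (r : Qbar), Y.trace = 0 → r ^ 2 = -Y.det →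
      (Y - r • (1 : Matrix (Fin 2) (Fin 2) Qbar)).det = 0 := by
    intro Y r hY hr
    have y3 := apply_one_one_of_trace hY
    rw [det_fin_two] at hr ⊢
    simp only [Matrix.sub_apply, Matrix.smul_apply, smul_eq_mul, Matrix.one_apply_eq, ne_eq,
      Fin.isValue, zero_ne_one, not_false_eq_true, one_ne_zero, Matrix.one_apply_ne, mul_one,
      mul_zero, sub_zero]
    rw [y3] at hr ⊢
    linear_combination hr
  obtain ⟨v, hv, hXv⟩ := Matrix.exists_mulVec_eq_zero_iff.2 (d1 X s ht hs)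
  obtain ⟨v', hv', hXv'⟩ := Matrix.exists_mulVec_eq_zero_iff.2 (d1 X' s' ht' hs'2)
  refine ⟨v, v', hv, hv', ?_⟩
  have e1 : toC (X - s • (1 : Matrix (Fin 2) (Fin 2) Qbar)) = toC X - (s : ℂ) • 1 := by
    refine Matrix.ext fun i j => ?_
    simp only [Matrix.map_apply, Matrix.sub_apply, Matrix.smul_apply, smul_eq_mul, map_sub, map_mul]
    congr 2
    rw [Matrix.one_apply, Matrix.one_apply]
    split_ifs <;> simp
  have hne : toC X - (s : ℂ) • 1 ≠ 0 := by
    rw [← e1]
    apply toC_ne_zero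
    intro h0
    have h1 := congrArg Matrix.trace h0
    rw [trace_sub, ht, trace_smul, trace_one, trace_zero, zero_sub, neg_eq_zero, smul_eq_mul,
      Fintype.card_fin] at h1
    have h2 : s = 0 := (mul_eq_zero.1 h1).resolve_right (by norm_num)
    rw [h2, zero_smul, sub_zero] at h0
    exact hX h0
  refine exists_smul_of_ker hne (coe_ne_zero hv) ?_ ?_
  · rw [← e1, ← toC_mulVec, hXv]
    funext i
    simp
  · have h1 : toC X' *ᵥ (fun i => ((v' i : Qbar) : ℂ)) = (s' : ℂ) • fun i => ((v' i : Qbar) : ℂ) := by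
      rw [← toC_mulVec]
      have h2 : X' *ᵥ v' = s' • v' := by
        rw [sub_mulVec, sub_eq_zero, smul_mulVec, one_mulVec] at hXv'
        exact hXv'
      rw [h2]
      funext i
      simp
    have h2 : c *ᵥ (toC X' *ᵥ (fun i => ((v' i : Qbar) : ℂ))) =
        t • (toC X *ᵥ (c *ᵥ fun i => ((v' i : Qbar) : ℂ))) := by
      rw [mulVec_mulVec, h, smul_mulVec, mulVec_mulVec]
    rw [h1, mulVec_smul, hs', mul_smul] at h2
    have h3 := smul_right_injective (Fin 2 → ℂ) ht0 h2
    rw [sub_mulVec, smul_mulVec, one_mulVec]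
    rw [← h3, sub_self]

end Pool.Agent.Lib.MPf11a48.GL2
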