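import Pool.Agent.Lib.MP_f11a48_ag.helper92.LA2
import Pool.Agent.Lib.MP_f11a48_ag.helper92.Deriv
import Pool.Agent.Lib.MP_f11a48_ag.helper92.Exp
import Pool.Agent.Lib.MP_f11a48_ag.helper92.Blk

/-! # The semisimple part of the group of a torsor of block diagonal matrices -/

set_option autoImplicit false
set_option linter.unusedSectionVars false

namespace Pool.Agent.Lib.MPf11a48.GL2

open Matrix Pool.Agent.Lib.MPf11a48.CM Pool.Agent.Lib.MPf11a48.Tors

/-- an irreducible matrix is not a multiple of an algebraic matrix, infinitesimally -/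
theorem exists_nonscalar {c : GL (Fin 2) ℂ} (hirr : Irr c.1) :
    ∃ D : Derivation Qbar ℂ ℂ, ∀ t : ℂ, c.1.map D * c⁻¹.1 ≠ t • 1 := by
  by_contra hcon
  push Not at hcon
  have h1 : ∀ D : Derivation Qbar ℂ ℂ, ∃ t : ℂ, ∀ i j, D (c.1 i j) = t * c.1 i j := by
    intro D
    obtain ⟨t, ht⟩ := hcon D
    refine ⟨t, fun i j => ?_⟩
    have h2 : c.1.map D = t • c.1 := by
      calc c.1.map D = c.1.map D * (c⁻¹.1 * c.1) := by rw [gl_inv_mul, mul_one]
        _ = c.1.map D * c⁻¹.1 * c.1 := by rw [mul_assoc]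
        _ = t • c.1 := by rw [ht, smul_mul_assoc, one_mul]
    exact congrFun (congrFun h2 i) j
  have hcol : ∃ p, c.1 p 0 ≠ 0 := by
    by_contra h0
    push Not at h0
    apply gl_det_ne c
    rw [det_fin_two, h0 0, h0 1, zero_mul, mul_zero, sub_zero]
  obtain ⟨p, hp⟩ := hcol
  have hq : ∀ r, c.1 r 0 / c.1 p 0 ∈ Qbar := by
    intro r
    by_contra hr
    obtain ⟨D, hD⟩ := exists_derivation hr
    apply hD
    obtain ⟨t, ht⟩ := h1 D
    have h3 : D (c.1 r 0) = D (c.1 r 0 / c.1 p 0 * c.1 p 0) := by rw [div_mul_cancel₀ _ hp]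
    rw [D.leibniz, ht, ht, smul_eq_mul, smul_eq_mul] at h3
    have h4 : c.1 r 0 / c.1 p 0 * (t * c.1 p 0) = t * c.1 r 0 := by
      field_simp
    rw [h4] at h3
    have h5 : c.1 p 0 * D (c.1 r 0 / c.1 p 0) = 0 := by linear_combination -h3
    exact (mul_eq_zero.1 h5).resolve_left hp
  let w : Fin 2 → Qbar := fun r => ⟨c.1 r 0 / c.1 p 0, hq r⟩
  have hw : w ≠ 0 := by
    intro h0
    have h2 := congrArg (fun z : Qbar => (z : ℂ)) (congrFun h0 p)
    simp only [w] at h2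
    rw [div_self hp] at h2
    exact one_ne_zero h2
  refine hirr w ![1, 0] hw ?_ (c.1 p 0) ?_
  · intro h0
    have := congrFun h0 0
    simp at this
  · funext r
    simp only [mulVec, dotProduct, Fin.sum_univ_two]
    simp [w]
    field_simp

variable {κ J : Type} [Fintype κ] [Fintype J] [DecidableEq κ] [DecidableEq J]

/-- torsors of block diagonal matrices -/
structure Blocky (T : Set (GL (BIdx κ J) ℂ)) : Prop where
  geo : Geo T
  sub : ∀ g ∈ T, ∃ x : (κ → GL (Fin 2) ℂ) × (J → ℂˣ), blkGL x = g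

variable {T : Set (GL (BIdx κ J) ℂ)}

/-- the semisimple quotient of the Lie algebra -/
noncomputable def NN (T : Set (GL (BIdx κ J) ℂ)) : Submodule ℂ (κ → M2 ℂ) where
  carrier := {A | ∃ y : J → ℂ, blk A y ∈ lie T}
  add_mem' := by
    rintro A B ⟨y, hy⟩ ⟨z, hz⟩
    exact ⟨y + z, by rw [← blk_add]; exact (lie T).add_mem hy hz⟩
  zero_mem' := ⟨0, by
    have h : blk (0 : κ → M2 ℂ) (0 : J → ℂ) = 0 := by
      have := blk_smul (0 : ℂ) (0 : κ → M2 ℂ) (0 : J → ℂ)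
      rw [zero_smul, smul_zero, smul_zero] at this
      exact this.symm
    rw [h]
    exact (lie T).zero_mem⟩
  smul_mem' := by
    rintro t A ⟨y, hy⟩
    exact ⟨t • y, by rw [← blk_smul]; exact (lie T).smul_mem t hy⟩

theorem mem_NN {A : κ → M2 ℂ} : A ∈ NN T ↔ ∃ y : J → ℂ, blk A y ∈ lie T := Iff.rfl

theorem br_blk {A B : κ → M2 ℂ} {y z : J → ℂ} (hA : blk A y ∈ lie T) (hB : blk B z ∈ lie T) :
    blk (A * B - B * A) (0 : J → ℂ) ∈ lie T := by
  have h := lie_br hA hB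
  rw [blk_mul, blk_mul, blk_sub, mul_comm y z, sub_self] at h
  exact h

theorem toC_app1_blk (l : Form) (A : κ → M2 ℂ) (y : J → ℂ) :
    toC (app1 l (blk A y)) = blk (app l A) (fun j => ((l (y j) : Qbar) : ℂ)) := by
  have h1 : app1 l (blk A y) = blk (fun k => app1 l (A k)) (fun j => l (y j)) :=
    blk_map (fun z => l z) (LinearMap.map_zero l) A y
  rw [h1]
  exact blk_map (fun z : Qbar => (z : ℂ)) rfl _ _

theorem ratLie_NN (h : Geo T) : RatLie (NN T) := by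
  refine ⟨?_, ?_⟩
  · rintro A ⟨y, hy⟩ B ⟨z, hz⟩
    exact ⟨0, br_blk hy hz⟩
  · rintro l A ⟨y, hy⟩
    refine ⟨fun j => ((l (y j) : Qbar) : ℂ), ?_⟩
    rw [← toC_app1_blk]
    exact h.lie_rat l hy

theorem blk_conj (c : (κ → GL (Fin 2) ℂ) × (J → ℂˣ)) (A : κ → M2 ℂ) (y : J → ℂ) :
    (blkGL c).1 * blk A y * (blkGL c)⁻¹.1 = blk (cj c.1 A) y := by
  have h1 : (blkGL c)⁻¹.1 = blk (fun k => (c.1 k)⁻¹.1) (fun j => ((c.2 j)⁻¹.1 : ℂ)) := rfl
  rw [h1, blkGL_val, blk_mul, blk_mul]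
  congr 1
  funext j
  simp only [Pi.mul_apply]
  have : (c.2 j : ℂ) * y j * ((c.2 j)⁻¹.1 : ℂ) = y j * ((c.2 j : ℂ) * ((c.2 j)⁻¹.1 : ℂ)) := by ring
  rw [this, (c.2 j).mul_inv, mul_one]

theorem comap_NN (h : Geo T) {c : (κ → GL (Fin 2) ℂ) × (J → ℂˣ)} (hc : blkGL c ∈ T) (l : Form)
    (A : κ → M2 ℂ) (hA : A ∈ (NN T).comap (cj c.1)) : app l A ∈ (NN T).comap (cj c.1) := by
  obtain ⟨y, hy⟩ := hA
  refine ⟨fun j => ((l (y j) : Qbar) : ℂ), ?_⟩
  rw [← blk_conj c] at hy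
  have h1 := h.conj_rat hc l hy
  rwa [toC_app1_blk, blk_conj] at h1

theorem NN_nonscalar (h : Geo T) {c : (κ → GL (Fin 2) ℂ) × (J → ℂˣ)} (hc : blkGL c ∈ T) {k : κ}
    (hirr : Irr (c.1 k).1) : ∃ X ∈ NN T, ∀ t : ℂ, X k ≠ t • 1 := by
  obtain ⟨D, hD⟩ := exists_nonscalar hirr
  refine ⟨fun k => (c.1 k).1.map D * (c.1 k)⁻¹.1,
    ⟨fun j => D (c.2 j) * ((c.2 j)⁻¹.1 : ℂ), ?_⟩, hD⟩
  have h1 := h.deriv_mem hc D
  have h2 : (blkGL c)⁻¹.1 = blk (fun k => (c.1 k)⁻¹.1) (fun j => ((c.2 j)⁻¹.1 : ℂ)) := rfl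
  have h3 : (blkGL c).1.map D = blk (fun k => (c.1 k).1.map D) (fun j => D (c.2 j)) :=
    blk_map (fun z => D z) D.map_zero _ _
  rw [h2, h3, blk_mul] at h1
  exact h1

theorem single_mul_single (k : κ) (a b : M2 ℂ) :
    (Pi.single k a : κ → M2 ℂ) * Pi.single k b = Pi.single k (a * b) := by
  funext k'
  by_cases hk : k' = k
  · subst hk
    simp
  · simp [Pi.single_eq_of_ne hk]

/-- all traceless families lie in the Lie algebra -/
theorem single_mem_lie (h : Geo T) {c : (κ → GL (Fin 2) ℂ) × (J → ℂˣ)} (hc : blkGL c ∈ T)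
    (hirr : ∀ k, Irr (c.1 k).1) (hiso : ∀ i j, i ≠ j → NonTw (c.1 i).1 (c.1 j).1)
    (k : κ) {a : M2 ℂ} (ha : a.trace = 0) :
    blk (Pi.single k a : κ → M2 ℂ) (0 : J → ℂ) ∈ lie T := by
  have hfull : ∀ {b : M2 ℂ}, b.trace = 0 → (Pi.single k b : κ → M2 ℂ) ∈ NN T := by
    intro b hb
    refine full (ratLie_NN h) (comap_NN h hc) hirr (fun k => NN_nonscalar h hc (hirr k)) hiso ?_
    intro k'
    by_cases hk : k' = k
    · subst hk
      rw [Pi.single_eq_same, hb]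
    · rw [Pi.single_eq_of_ne hk, trace_zero]
  refine sl2_induction (P := fun a => blk (Pi.single k a : κ → M2 ℂ) (0 : J → ℂ) ∈ lie T)
    ?_ ?_ ?_ ha
  · intro a b ha hb
    have := (lie T).add_mem ha hb
    rwa [blk_add, add_zero, ← Pi.single_add] at this
  · intro t a ha
    have := (lie T).smul_mem t ha
    rwa [blk_smul, smul_zero, ← Pi.single_smul] at this
  · intro a b ha hb
    obtain ⟨y, hy⟩ := hfull ha
    obtain ⟨z, hz⟩ := hfull hb
    have := br_blk hy hz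
    rwa [single_mul_single, single_mul_single, ← Pi.single_sub] at this

end Pool.Agent.Lib.MPf11a48.GL2
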